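import Pool.Agent.H2.PK.Two

/-!
# Enumeration of the degree matrices with two rows

Let `c j = (D 0 j, D 1 j)` be the columns. All column sums are at least `2` and the total is `r + 5`, so `r ≤ 5`.
Define `cols r T` recursively: all lists of `r` pairs with sums at least `2` and total `T` (`cols 0 T = [[]]` if
`T = 0`, else `[]`; `cols (r+1) T` = all `(a, s - a) :: l` with `2 ≤ s ≤ T`, `a ≤ s`, `l ∈ cols r (T - s)`). Then
`List.ofFn c ∈ cols r (r + 5)` (induction), and a computation in the kernel (`decide`; about 1000 lists, insertion sort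
with the order `p` before `q` iff `q.1 < p.1 ∨ (q.1 = p.1 ∧ q.2 ≤ p.2)`, all members of the tables are sorted) shows that
for `l ∈ cols r (r + 5)` with both row sums at least `2` the sorted list of `l` or of `l.map Prod.swap` is in `table`. A
permutation of lists gives the equivalence `a` (for instance `Multiset.map_univ_eq_iff`); the exchange of the rows is `e`.
-/

set_option linter.unusedSectionVars false

namespace Pool.Agent.H2.PK

private def cols : ℕ → ℕ → List (List (ℕ × ℕ))
  | 0, T => if T = 0 then [[]] else []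
  | r + 1, T => (List.range (T + 1)).flatMap fun s => if s < 2 then [] else
      (List.range (s + 1)).flatMap fun a => (cols r (T - s)).map fun l => (a, s - a) :: l

private def leB (p q : ℕ × ℕ) : Bool := Nat.blt q.1 p.1 || (Nat.beq q.1 p.1 && Nat.ble q.2 p.2)

private def srt (l : List (ℕ × ℕ)) : List (ℕ × ℕ) := l.insertionSort (fun p q => leB p q = true)

private def eqp (p q : ℕ × ℕ) : Bool := Nat.beq p.1 q.1 && Nat.beq p.2 q.2

private def eql : List (ℕ × ℕ) → List (ℕ × ℕ) → Bool
  | [], [] => true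
  | p :: l, q :: m => eqp p q && eql l m
  | _, _ => false

private def okB (l : List (ℕ × ℕ)) : Bool :=
  Nat.blt (l.map Prod.fst).sum 2 || Nat.blt (l.map Prod.snd).sum 2 ||
    table.any (eql (srt l)) || table.any (eql (srt (l.map Prod.swap)))

private theorem ok0 : (cols 0 5).all okB = true := by decide +kernel
private theorem ok1 : (cols 1 6).all okB = true := by decide +kernel
private theorem ok2 : (cols 2 7).all okB = true := by decide +kernel
private theorem ok3 : (cols 3 8).all okB = true := by decide +kernel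
private theorem ok4 : (cols 4 9).all okB = true := by decide +kernel
private theorem ok5 : (cols 5 10).all okB = true := by decide +kernel

private theorem eq_of_eql : ∀ l m : List (ℕ × ℕ), eql l m = true → l = m
  | [], [], _ => rfl
  | [], _ :: _, h => by simp [eql] at h
  | _ :: _, [], h => by simp [eql] at h
  | p :: l, q :: m, h => by
    simp only [eql, Bool.and_eq_true, eqp] at h
    obtain ⟨⟨h1, h2⟩, h3⟩ := h
    rw [eq_of_eql l m h3, Prod.ext (Nat.eq_of_beq_eq_true h1) (Nat.eq_of_beq_eq_true h2)]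

private theorem srt_perm (l : List (ℕ × ℕ)) : (srt l).Perm l := List.perm_insertionSort _ l

private theorem perm_of_any {l : List (ℕ × ℕ)} (h : table.any (eql (srt l)) = true) :
    ∃ t ∈ table, l.Perm t := by
  obtain ⟨t, ht, h1⟩ := List.any_eq_true.1 h
  exact ⟨t, ht, (eq_of_eql _ _ h1) ▸ (srt_perm l).symm⟩

private theorem mem_cols : ∀ (r : ℕ) (c : Fin r → ℕ × ℕ), (∀ j, 2 ≤ (c j).1 + (c j).2) →
    List.ofFn c ∈ cols r (∑ j, ((c j).1 + (c j).2))
  | 0, c, _ => by simp [cols]
  | r + 1, c, h => by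
    have h1 := mem_cols r (fun j => c j.succ) fun j => h j.succ
    have h0 := h 0
    rw [List.ofFn_succ, Fin.sum_univ_succ]
    unfold cols
    rw [List.mem_flatMap]
    refine ⟨(c 0).1 + (c 0).2, List.mem_range.2 (by omega), ?_⟩
    rw [if_neg (by omega), List.mem_flatMap]
    refine ⟨(c 0).1, List.mem_range.2 (by omega), ?_⟩
    rw [List.mem_map]
    refine ⟨List.ofFn fun j => c j.succ, ?_, ?_⟩
    · rw [Nat.add_sub_cancel_left]
      exact h1
    · rw [Nat.add_sub_cancel_left]

private theorem perm_equiv {l m : List (ℕ × ℕ)} (h : l.Perm m) :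
    ∃ a : Fin l.length ≃ Fin m.length, ∀ j, l.get j = m.get (a j) := by
  induction h with
  | nil => exact ⟨Equiv.refl _, fun j => j.elim0⟩
  | @cons x l m h ih =>
    obtain ⟨a, ha⟩ := ih
    refine ⟨(finSuccEquiv _).trans ((Equiv.optionCongr a).trans (finSuccEquiv _).symm),
      fun j => ?_⟩
    refine Fin.cases ?_ (fun i => ?_) j
    · simp
    · have := ha i
      simp only [List.get_eq_getElem] at this
      simp [this]
  | @swap x y l =>
    refine ⟨Equiv.swap (0 : Fin (l.length + 2)) 1, fun j => ?_⟩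
    refine Fin.cases ?_ (fun i => ?_) j
    · simp
    · refine Fin.cases ?_ (fun k => ?_) i
      · simp
      · have h1 : Equiv.swap (0 : Fin (l.length + 2)) 1 k.succ.succ = k.succ.succ :=
          Equiv.swap_apply_of_ne_of_ne (Fin.succ_ne_zero _)
            (fun h => Fin.succ_ne_zero _ (Fin.succ_injective _ h))
        rw [h1]
        rfl
  | trans _ _ ih1 ih2 =>
    obtain ⟨a, ha⟩ := ih1
    obtain ⟨b, hb⟩ := ih2
    exact ⟨a.trans b, fun j => by rw [ha, hb]; rfl⟩

private theorem hasCols_of_perm {r : ℕ} {D : Fin 2 → Fin r → ℕ} {t : List (ℕ × ℕ)}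
    (e : Fin 2 ≃ Fin 2) (h : (List.ofFn fun j => (D (e 0) j, D (e 1) j)).Perm t) :
    HasCols D t := by
  obtain ⟨a, ha⟩ := perm_equiv h
  refine ⟨e.symm, (finCongr (List.length_ofFn).symm).trans a, fun i j => ?_⟩
  have h1 := ha (finCongr (List.length_ofFn).symm j)
  have h2 : (List.ofFn fun j => (D (e 0) j, D (e 1) j)).get
      (finCongr (List.length_ofFn).symm j) = (D (e 0) j, D (e 1) j) := by simp
  rw [h2] at h1
  obtain ⟨k, rfl⟩ := e.surjective i
  rw [Equiv.symm_apply_apply]
  unfold mat
  rw [Equiv.trans_apply, ← h1]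
  fin_cases k
  · simp
  · simp

theorem enum_two {r : ℕ} {D : Fin 2 → Fin r → ℕ} (h1 : ∀ i, 2 ≤ ∑ j, D i j)
    (h2 : ∀ j, 2 ≤ ∑ i, D i j) (h3 : ∑ i, ∑ j, D i j = r + 5) : ∃ t ∈ table, HasCols D t := by
  have e1 : ∀ j, ∑ i, D i j = D 0 j + D 1 j := fun j => Fin.sum_univ_two _
  have e2 : ∑ j, (D 0 j + D 1 j) = r + 5 := by
    rw [← h3, Fin.sum_univ_two, Finset.sum_add_distrib]
  have hr : r ≤ 5 := by
    have h4 : ∑ _j : Fin r, 2 ≤ ∑ j, (D 0 j + D 1 j) :=
      Finset.sum_le_sum fun j _ => by rw [← e1 j]; exact h2 j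
    rw [e2] at h4
    simp only [Finset.sum_const, Finset.card_univ, Fintype.card_fin, smul_eq_mul] at h4
    omega
  have hm : List.ofFn (fun j => (D 0 j, D 1 j)) ∈ cols r (r + 5) := by
    have := mem_cols r (fun j => (D 0 j, D 1 j)) fun j => by rw [← e1 j]; exact h2 j
    rwa [e2] at this
  have hok : (cols r (r + 5)).all okB = true := by
    interval_cases r
    · exact ok0
    · exact ok1
    · exact ok2
    · exact ok3
    · exact ok4
    · exact ok5
  have h4 := List.all_eq_true.1 hok _ hm
  have f1 : ((List.ofFn fun j => (D 0 j, D 1 j)).map Prod.fst).sum = ∑ j, D 0 j := by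
    rw [List.map_ofFn, List.sum_ofFn]
    rfl
  have f2 : ((List.ofFn fun j => (D 0 j, D 1 j)).map Prod.snd).sum = ∑ j, D 1 j := by
    rw [List.map_ofFn, List.sum_ofFn]
    rfl
  have f3 : (List.ofFn fun j => (D 0 j, D 1 j)).map Prod.swap =
      List.ofFn fun j => (D 1 j, D 0 j) := by
    rw [List.map_ofFn]
    rfl
  unfold okB at h4
  rw [f1, f2, f3] at h4
  simp only [Bool.or_eq_true] at h4
  rcases h4 with ((h4 | h4) | h4) | h4
  · rw [Nat.blt_eq] at h4
    have := h1 0
    omega
  · rw [Nat.blt_eq] at h4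
    have := h1 1
    omega
  · obtain ⟨t, ht, h5⟩ := perm_of_any h4
    exact ⟨t, ht, hasCols_of_perm (Equiv.refl _) h5⟩
  · obtain ⟨t, ht, h5⟩ := perm_of_any h4
    exact ⟨t, ht, hasCols_of_perm (Equiv.swap 0 1) (by simpa using h5)⟩

end Pool.Agent.H2.PK
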