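import Pool.Agent.H2.PK.Fam

/-!
# Invariance under permutations of the rows and the columns

`choice_perm`: `z' = e.symm ∘ z ∘ a` (the sums of the rows are the same, the sets of columns correspond). `adm_perm`: take
`S i j j' := S' (e i) (a j) (a j')`. `IsRegS`: for `z`, `e₀` use `z' = e ∘ z ∘ a.symm` and `e₀' j j' = e₀ (a.symm j)
(a.symm j')`; the matrix is `Matrix.reindex` (or `submatrix`) of the other, the same determinant. `IsRec`: for `f`, `part` with
degree matrix `D` take `f' = e ∘ f` and `part' k = a (part (Sum.map id e.symm k))` on `ι ⊕ σ'`: then `cdeg f' part' = D'` and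
`sP f' part' S' (a j) = sP f part S j` (with `y' i' = Sum.map id e (y (e.symm i'))`).
-/

set_option linter.unusedSectionVars false

open Matrix

namespace Pool.Agent.H2.PK

open Pool.Agent.H99.SYZ Pool.Agent.H55.CI Pool.Agent.H2.CI Pool.Agent.H99.ON Pool.Agent.H99.PI

variable {σ κ σ' κ' : Type} [Fintype σ] [Fintype κ] [DecidableEq σ] [DecidableEq κ] [Fintype σ']
  [Fintype κ'] [DecidableEq σ'] [DecidableEq κ']

private theorem card_perm {D : σ → κ → ℕ} {D' : σ' → κ' → ℕ} (e : σ ≃ σ') (a : κ ≃ κ')
    (h : ∀ i j, D i j = D' (e i) (a j)) (i : σ) : ∑ j, D i j = ∑ j, D' (e i) j := by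
  rw [← Equiv.sum_comp a]
  exact Finset.sum_congr rfl fun j _ => h i j

theorem choice_perm {D : σ → κ → ℕ} {D' : σ' → κ' → ℕ} (e : σ ≃ σ') (a : κ ≃ κ')
    (h : ∀ i j, D i j = D' (e i) (a j)) (H : HasChoice D') : HasChoice D := by
  obtain ⟨z, h1, h2⟩ := H
  refine ⟨fun j => e.symm (z (a j)), fun j => ?_, fun i => ?_⟩
  · rw [h, e.apply_symm_apply]
    exact h1 (a j)
  · rw [card_perm e a h i]
    refine lt_of_eq_of_lt ?_ (h2 (e i))
    refine Finset.card_equiv a fun j => ?_
    simp only [Finset.mem_filter, Finset.mem_univ, true_and]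
    exact e.symm_apply_eq

private def sh (e : σ ≃ σ') (ι : Type) : ι ⊕ σ ≃ ι ⊕ σ' := Equiv.sumCongr (Equiv.refl ι) e

private theorem fac_sh {ι : Type} (e : σ ≃ σ') (f : ι → σ) (k : ι ⊕ σ) :
    fac (fun x => e (f x)) (sh e ι k) = e (fac f k) := by
  cases k <;> rfl

private theorem cdeg_sh {ι : Type} [Fintype ι] [DecidableEq ι] (e : σ ≃ σ') (a : κ ≃ κ')
    (f : ι → σ) (part : ι ⊕ σ → κ) (i : σ) (j : κ) :
    cdeg (fun x => e (f x)) (fun k => a (part ((sh e ι).symm k))) (e i) (a j) =
      cdeg f part i j := by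
  unfold cdeg
  refine (Finset.card_equiv (sh e ι) fun k => ?_).symm
  simp only [Finset.mem_filter, Finset.mem_univ, true_and, fac_sh, Equiv.symm_apply_apply,
    e.injective.eq_iff, a.injective.eq_iff]

theorem adm_perm {D : σ → κ → ℕ} {D' : σ' → κ' → ℕ} (e : σ ≃ σ') (a : κ ≃ κ')
    (h : ∀ i j, D i j = D' (e i) (a j)) {Y : σ → κ → Prop} {Y' : σ' → κ' → Prop}
    (hY : ∀ i j, Y' (e i) (a j) → Y i j) (H : ∃ S, IsRegS D' S Y' ∧ IsRec D' S) :
    ∃ S, IsRegS D S Y ∧ IsRec D S := by
  obtain ⟨S, H1, H2⟩ := H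
  have hD : ∀ i j, D' i j = D (e.symm i) (a.symm j) := fun i j => by
    rw [h, e.apply_symm_apply, a.apply_symm_apply]
  refine ⟨fun i j j' => S (e i) (a j) (a j'), ?_, ?_⟩
  · intro z w h1 h2 h3 h4
    have h5 := H1 (fun j => e (z (a.symm j))) (fun j j' => w (a.symm j) (a.symm j'))
      (fun j => ?_) (fun i => ?_) (fun j j' hj => ?_) (fun j j' j'' hj hj' hz => ?_)
    · intro h6
      apply h5
      refine Eq.trans ?_ ((Matrix.det_submatrix_equiv_self a.symm _).trans h6)
      congr 1
      ext j j'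
      simp only [Matrix.submatrix_apply, Matrix.of_apply, a.symm.injective.eq_iff, hD,
        e.symm_apply_apply]
    · rw [hD, e.symm_apply_apply]
      exact h1 _
    · have h6 := h2 (e.symm i)
      rw [card_perm e a h, e.apply_symm_apply] at h6
      refine lt_of_eq_of_lt ?_ h6
      refine (Finset.card_equiv a fun j => ?_).symm
      simp only [Finset.mem_filter, Finset.mem_univ, true_and, a.symm_apply_apply]
      exact e.eq_symm_apply
    · obtain ⟨h6, h7, h8⟩ := h3 _ _ hj
      simp only [a.apply_symm_apply] at h6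
      refine ⟨h6, ?_, fun h9 => ?_⟩
      · rw [hD, e.symm_apply_apply]
        exact h7
      · rw [hD, e.symm_apply_apply]
        refine h8 (hY _ _ ?_)
        rw [a.apply_symm_apply]
        exact h9
    · exact a.symm.injective (h4 _ _ _ hj hj' (e.injective hz))
  · intro ι _ _ f part hf n hn
    refine H2 ι (fun x => e (f x)) (fun k => a (part ((sh e ι).symm k))) ?_ n ?_
    · funext i j
      have h1 := cdeg_sh e a f part (e.symm i) (a.symm j)
      rw [e.apply_symm_apply, a.apply_symm_apply] at h1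
      rw [h1, hf, hD]
    · rintro p ⟨j, hp, y, hy, hS, rfl⟩
      refine hn _ ⟨a.symm j, hp, fun i => (sh e ι).symm (y (e i)), fun i => ?_, fun i hi => ?_, ?_⟩
      · have h1 := fac_sh e f ((sh e ι).symm (y (e i)))
        rw [Equiv.apply_symm_apply, hy] at h1
        exact e.injective h1.symm
      · have h1 := cdeg_sh e a f part i (a.symm j)
        rw [a.apply_symm_apply] at h1
        have h2 := hS (e i) (by rw [h1]; exact hi)
        show S (e i) (a (a.symm j)) (a (part ((sh e ι).symm (y (e i)))))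
        rw [a.apply_symm_apply]
        exact h2
      · funext x
        have h1 := cdeg_sh e a f part (f x) (a.symm j)
        rw [a.apply_symm_apply] at h1
        have h2 : (a (part ((sh e ι).symm (Sum.inl x))) = j) ↔ (part (Sum.inl x) = a.symm j) := by
          rw [Equiv.eq_symm_apply]
          rfl
        have h3 : (Sum.inl x = y (e (f x))) ↔ (Sum.inl x = (sh e ι).symm (y (e (f x)))) := by
          rw [Equiv.eq_symm_apply]
          rfl
        unfold cver
        rw [h1]
        simp only [h2, h3]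

end Pool.Agent.H2.PK
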