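import Pool.Agent.H2.PK.Num
import Pool.Agent.H2.PK.Inv
import Pool.Agent.H2.PK.Enum

/-!
# Threefolds in products of two projective spaces
-/

set_option linter.unusedSectionVars false

open Matrix

namespace Pool.Agent.H2.PK

open Pool.Agent.H99.PI

theorem forest_two_rows {κ : Type} {D : Fin 2 → κ → ℕ}
    (h : ∀ j j', D 0 j ≠ 0 → D 1 j ≠ 0 → D 0 j' ≠ 0 → D 1 j' ≠ 0 → j = j') : IsForest D := by
  classical
  refine ⟨![0, 2], fun j => if D 0 j = 0 then 3 else 1, ?_, ?_, ?_⟩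
  · intro i j hij
    by_cases h0 : D 0 j = 0
    · simp only [if_pos h0]
      fin_cases i <;> simp
    · simp only [if_neg h0]
      fin_cases i <;> simp
  · intro i j j' hj hj' h1 h2
    have h3 : D 0 j ≠ 0 := by
      intro h0
      simp only [if_pos h0] at h1
      fin_cases i <;> simp at h1
    have h4 : D 0 j' ≠ 0 := by
      intro h0
      simp only [if_pos h0] at h2
      fin_cases i <;> simp at h2
    have h5 : i = 1 := by
      fin_cases i
      · simp only [if_neg h3] at h1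
        simp at h1
      · rfl
    subst h5
    exact h j j' h3 hj h4 hj'
  · intro j i i' hi hi' h1 h2
    by_cases h0 : D 0 j = 0
    · fin_cases i <;> fin_cases i' <;> simp_all
    · simp only [if_neg h0] at h1 h2
      fin_cases i <;> fin_cases i' <;> simp_all

theorem ones_two_rows {κ : Type} {D : Fin 2 → κ → ℕ} {i : Fin 2} {j₀ : κ} (h : 2 ≤ D i j₀) :
    IsForest (onesM D) := by
  refine forest_two_rows fun j j' h0 h1 => ?_
  exfalso
  have h2 : onesM D i j = 0 := by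
    unfold onesM
    rw [if_neg]
    intro h3
    exact absurd (h3 j₀) (by omega)
  fin_cases i
  · exact h0 h2
  · exact h1 h2

private theorem cF : ∀ t ∈ tF, ∀ j j', mat t 0 j ≠ 0 → mat t 1 j ≠ 0 → mat t 0 j' ≠ 0 →
    mat t 1 j' ≠ 0 → j = j' := by
  decide

private theorem cR : ∀ x ∈ tR, (∃ i j, 2 ≤ mat x.1 i j) ∧ 2 ≤ x.2.1 ∧
    (∀ i, (∀ j, mat x.1 i j ≤ 1) → ∀ j j', mat x.1 i j ≠ 0 → mat x.1 i j' ≠ 0 →
      x.2.2.getD j 0 = x.2.2.getD j' 0) ∧
    ∀ i, (¬ ∀ j, mat x.1 i j ≤ 1) → ∃ o, mat x.1 i o ≠ 0 ∧ x.2.1 ∣ mat x.1 i o ∧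
      ∀ j, ¬ x.2.1 ∣ mat x.1 i j → x.2.2.getD j 0 < x.2.2.getD o 0 := by
  decide

private theorem cC : ∀ t ∈ table, ∃ z : Fin t.length → Fin 2, (∀ j, mat t (z j) j ≠ 0) ∧
    ∀ i, (Finset.univ.filter fun j => z j = i).card < ∑ j, mat t i j := by
  decide

private theorem cS : ∀ x ∈ tS, (∃ i j, 2 ≤ mat x.1 i j) ∧ (∀ j : Fin x.1.length, 0 < x.2.1.getD j 0) ∧
    (∀ i, (∀ j, mat x.1 i j ≤ 1) → ∀ j j', mat x.1 i j ≠ 0 → mat x.1 i j' ≠ 0 →
      x.2.1.getD j 0 = x.2.1.getD j' 0) ∧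
    ∀ i, ∃ o, (¬ ∀ j, mat x.1 i j ≤ 1) → 2 ≤ mat x.1 i o ∧
      ∑ j, (if mat x.1 i j = 1 then x.2.1.getD j 0 else 0) < mat x.1 i o * x.2.1.getD o 0 := by
  decide

/-- The exceptions for symmetric valuations. -/
def tE2 : List (List (ℕ × ℕ)) := [
  [(1, 1), (1, 1), (1, 1), (1, 1), (1, 1)], [(2, 1), (1, 1), (1, 1), (1, 1)]]

private theorem cE : ∀ t ∈ tE, t ∈ tS.map Prod.fst ∨ t ∈ tE2 := by
  decide

/-- No blocks, all blocks. -/
private theorem adm_mono {σ κ : Type} [Fintype σ] [Fintype κ] [DecidableEq σ] [DecidableEq κ]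
    {D : σ → κ → ℕ} (H : ∃ S, (IsRegS D S fun _ _ => False) ∧ IsRec D S) :
    ∃ S, (IsRegS D S fun _ _ => True) ∧ IsRec D S :=
  adm_perm (Equiv.refl _) (Equiv.refl _) (fun _ _ => rfl) (fun _ _ h => h.elim) H

private theorem adm_nonempty : ∀ t ∈ table, 0 < t.length := by
  decide

private theorem cert_F {t : List (ℕ × ℕ)} (ht : t ∈ tF) (h0 : 0 < t.length) :
    ∃ S, (IsRegS (mat t) S fun _ _ => False) ∧ IsRec (mat t) S :=
  haveI : Nonempty (Fin t.length) := ⟨⟨0, h0⟩⟩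
  fam_forest (forest_two_rows (cF t ht))

private theorem cert_R {t : List (ℕ × ℕ)} (ht : t ∈ tR.map Prod.fst) (h0 : 0 < t.length) :
    ∃ S, (IsRegS (mat t) S fun _ _ => False) ∧ IsRec (mat t) S := by
  haveI : Nonempty (Fin t.length) := ⟨⟨0, h0⟩⟩
  obtain ⟨x, hx, rfl⟩ := List.mem_map.1 ht
  obtain ⟨⟨i, j, h1⟩, h2, h3, h4⟩ := cR x hx
  exact fam_dvd (ones_two_rows h1) (l := x.2.1) (ρ := fun j => x.2.2.getD j 0) ⟨h2, h3, h4⟩

private theorem cert_T {t : List (ℕ × ℕ)} (ht : t ∈ tT) :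
    ∃ S, (IsRegS (mat t) S fun _ _ => False) ∧ IsRec (mat t) S := by
  unfold tT at ht
  rw [List.mem_cons, List.mem_singleton] at ht
  rcases ht with rfl | rfl
  · exact fam_two (D := mat [(3, 2), (1, 1)]) (by decide) (by decide) (by decide)
  · exact fam_two (D := mat [(3, 1), (2, 1)]) (by decide) (by decide) (by decide)

private theorem cert_N {t : List (ℕ × ℕ)} (ht : t ∈ tN) :
    ∃ S, (IsRegS (mat t) S fun _ _ => False) ∧ IsRec (mat t) S := by
  unfold tN at ht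
  rw [List.mem_cons, List.mem_cons, List.mem_singleton] at ht
  rcases ht with rfl | rfl | rfl
  · exact adm_perm (D := mat [(3, 0), (1, 1), (1, 1), (0, 2)]) (Equiv.refl (Fin 2))
      (Equiv.refl (Fin 4)) (by decide) (fun _ _ h => h) num_b
  · exact adm_perm (D := mat [(3, 1), (1, 1), (0, 2)]) (Equiv.refl (Fin 2))
      (Equiv.refl (Fin 3)) (by decide) (fun _ _ h => h) num_c
  · exact adm_perm (D := mat [(3, 0), (1, 2), (1, 1)]) (Equiv.refl (Fin 2))
      (Equiv.refl (Fin 3)) (by decide) (fun _ _ h => h) num_a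

private theorem cert_S {t : List (ℕ × ℕ)} (ht : t ∈ tS.map Prod.fst) :
    ∃ S, (IsRegS (mat t) S fun _ _ => True) ∧ IsRec (mat t) S := by
  obtain ⟨x, hx, rfl⟩ := List.mem_map.1 ht
  obtain ⟨⟨i, j, h1⟩, h2, h3, h4⟩ := cS x hx
  choose o ho using h4
  refine fam_sym (ones_two_rows h1) (jo := o) (μ := fun j => (x.2.1.getD j 0 : ℝ))
    ⟨fun j => by exact_mod_cast h2 j, fun i hi j j' hj hj' => by rw [h3 i hi j j' hj hj'],
      fun i hi => (ho i hi).1, fun i hi => ?_⟩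
  have h5 := (ho i hi).2
  have h6 : ((∑ j, (if mat x.1 i j = 1 then x.2.1.getD j 0 else 0) : ℕ) : ℝ) <
      ((mat x.1 i (o i) * x.2.1.getD (o i) 0 : ℕ) : ℝ) := by exact_mod_cast h5
  push_cast at h6
  exact h6

/-- Threefolds in products of two projective spaces. -/
theorem two_factor {r : ℕ} {D : Fin 2 → Fin r → ℕ} (h1 : ∀ i, 2 ≤ ∑ j, D i j)
    (h2 : ∀ j, 2 ≤ ∑ i, D i j) (h3 : ∑ i, ∑ j, D i j = r + 5) :
    HasChoice D ∧
    ((∃ S, (IsRegS D S fun _ _ => False) ∧ IsRec D S) ∨ ∃ t ∈ tE, HasCols D t) ∧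
    ((∃ S, (IsRegS D S fun _ _ => True) ∧ IsRec D S) ∨ ∃ t ∈ tE2, HasCols D t) := by
  obtain ⟨t, ht, hD⟩ := enum_two h1 h2 h3
  have h0 := adm_nonempty t ht
  obtain ⟨z, hz, hz'⟩ := cC t ht
  obtain ⟨e, a, he⟩ := id hD
  refine ⟨choice_perm e a he ⟨z, hz, fun i => hz' i⟩, ?_⟩
  have h5 : (∃ S, (IsRegS (mat t) S fun _ _ => False) ∧ IsRec (mat t) S) ∨ t ∈ tE := by
    unfold table at ht
    rw [List.mem_append, List.mem_append, List.mem_append, List.mem_append] at ht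
    rcases ht with (((ht | ht) | ht) | ht) | ht
    · exact Or.inl (cert_F ht h0)
    · exact Or.inl (cert_R ht h0)
    · exact Or.inl (cert_T ht)
    · exact Or.inl (cert_N ht)
    · exact Or.inr ht
  rcases h5 with h5 | h5
  · have h6 := adm_perm (Y := fun _ _ => False) e a he (fun _ _ h => h) h5
    exact ⟨Or.inl h6, Or.inl (adm_mono h6)⟩
  · refine ⟨Or.inr ⟨t, h5, hD⟩, ?_⟩
    rcases cE t h5 with h6 | h6
    · exact Or.inl (adm_perm (Y := fun _ _ => True) e a he (fun _ _ h => h) (cert_S h6))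
    · exact Or.inr ⟨t, h6, hD⟩

end Pool.Agent.H2.PK
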