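import Pool.Agent.H99.PI.DFine
import Pool.Agent.H99.PI.EForest

/-!
# Complete intersections in products of projective spaces, every polarisation: definitions

Conventions as in `Pool.Agent.H99.PI.BDefs`: factors `σ`, equations (parts) `κ`, homogeneous
coordinates `ι ⊕ σ`, factor `fac f`, part `part`, degree matrix `cdeg f part i j`. The block `(i, j)`
consists of the `cdeg f part i j` coordinates of the factor `i` in the part `j`.
-/

set_option linter.unusedSectionVars false

open MeasureTheory Matrix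
open scoped ENNReal

namespace Pool.Agent.H2.PK

open Pool.Agent.H99.SYZ Pool.Agent.H55.CI Pool.Agent.H2.CI Pool.Agent.H99.ON Pool.Agent.H99.PI
open Pool.Agent.H61.OT (IsPlan IsOptimal refl)

variable {ι σ κ : Type} [Fintype ι] [Fintype σ] [Fintype κ] [DecidableEq ι] [DecidableEq σ]
  [DecidableEq κ]

/-- The allowed products of powers: in the factor `i` the equation `j` uses a power of a coordinate of
a block `(i, j')` with `S i j j'`. -/
def sP (f : ι → σ) (part : ι ⊕ σ → κ) (S : σ → κ → κ → Prop) : κ → Set (ι → ℝ) := fun j =>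
  {p | p ≠ 0 ∧ ∃ y : σ → ι ⊕ σ, (∀ i, fac f (y i) = i) ∧
    (∀ i, cdeg f part i j ≠ 0 → S i j (part (y i))) ∧ p = cver f part j y}

/-- Regular pairs of a degree matrix `D` and a relation `S`, with symmetric blocks `Sy`: all matrices
`1 - N` are nonsingular, where `N j j' = D (z j') j` if `e j j'` holds and `N j j' = 0` otherwise. Here
`z` chooses a row with nonzero entry for every column, every row is chosen less often than its sum,
`e j j'` only holds for blocks `(z j', j')` which the equation `j` uses and which are not symmetric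
blocks with at least two elements, and for given `j` and `i` there is at most one `j'` with `e j j'`
and `z j' = i`. -/
def IsRegS (D : σ → κ → ℕ) (S : σ → κ → κ → Prop) (Sy : σ → κ → Prop) : Prop :=
  ∀ (z : κ → σ) (e : κ → κ → Bool), (∀ j, D (z j) j ≠ 0) →
    (∀ i, (Finset.univ.filter fun j => z j = i).card < ∑ j, D i j) →
    (∀ j j', e j j' = true → S (z j') j j' ∧ D (z j') j ≠ 0 ∧ (Sy (z j') j' → D (z j') j' = 1)) →
    (∀ j j' j'', e j j' = true → e j j'' = true → z j' = z j'' → j' = j'') →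
    (Matrix.of fun j j' => (if j = j' then 1 else 0) - (if e j j' = true then (D (z j') j : ℝ)
      else 0)).det ≠ 0

/-- The rows can be chosen such that no row is exhausted. -/
def HasChoice (D : σ → κ → ℕ) : Prop :=
  ∃ z : κ → σ, (∀ j, D (z j) j ≠ 0) ∧
    ∀ i, (Finset.univ.filter fun j => z j = i).card < ∑ j, D i j

/-- The height of an allowed product of powers does not change if a coordinate of a symmetric block
is replaced by another one of the same block. -/
def IsBlk (f : ι → σ) (part : ι ⊕ σ → κ) (S : σ → κ → κ → Prop) (Sy : σ → κ → Prop)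
    (h : (ι → ℝ) → ℝ) : Prop :=
  ∀ j, ∀ y y' : σ → ι ⊕ σ, (∀ i, fac f (y i) = i) → (∀ i, fac f (y' i) = i) →
    (∀ i, cdeg f part i j ≠ 0 → S i j (part (y i))) →
    (∀ i, cdeg f part i j ≠ 0 → y i = y' i ∨ (Sy i (part (y i)) ∧ part (y i) = part (y' i))) →
    h (cver f part j y) = h (cver f part j y')

/-- The transpositions of coordinates of the same symmetric block. -/
def sR (f : ι → σ) (part : ι ⊕ σ → κ) (Sy : σ → κ → Prop) : Set ((ι → ℝ) × (ι → ℝ)) :=
  {r | ∃ k l, k ≠ l ∧ fac f k = fac f l ∧ part k = part l ∧ Sy (fac f k) (part k) ∧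
    r = (pcor k l, pray f k - pray f l)}

/-- Further monomials: their inequality is strict on the polytope, or their height is at least an
average of the heights of elements of `V j`. -/
structure IsHigh (V P : κ → Set (ι → ℝ)) (h : (ι → ℝ) → ℝ) : Prop where
  sub : ∀ j, V j ⊆ P j
  high : ∀ j, ∀ p ∈ P j, p ∉ V j → (∀ n ∈ poly (un V) h, n ⬝ᵥ p < h p) ∨
    ∃ (T : Finset (ι → ℝ)) (b : (ι → ℝ) → ℝ), ↑T ⊆ V j ∧ (∀ x ∈ T, 0 < b x) ∧
      ∑ x ∈ T, b x = 1 ∧ ∑ x ∈ T, b x • x = p ∧ ∑ x ∈ T, b x * h x ≤ h p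

/-- Generic heights: they avoid finitely many hyperplanes. -/
structure IsGen (V : κ → Set (ι → ℝ)) (h : (ι → ℝ) → ℝ) : Prop where
  pos : ∀ p ∈ un V, 0 < h p
  avoid : ∀ p ∈ tup V, LinearIndependent ℝ p → ∀ p' ∈ un V, (∀ j, p' ≠ p j) →
    ∀ b : κ → ℝ, p' = ∑ j, b j • p j → h p' ≠ ∑ j, b j * h (p j)

/-- What is proved. -/
structure IsGoodS (f : ι → σ) (part : ι ⊕ σ → κ) (P : κ → Set (ι → ℝ)) (g h : (ι → ℝ) → ℝ) :
    Prop where
  solvable : IsSolvable P (cQ f part) g h
  uniq : IsUniq P (cQ f part) g h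
  nonsing : ∀ γ, IsOptimal (skProb (cQ f part) g) (skProb P h) γ →
    IsNonsing P (cQ f part) g h γ
  plan : ∃! γ, IsOptimal (skProb (cQ f part) g) (skProb P h) γ
  bddP : Bornology.IsBounded (poly (un P) h)

/-! ## Degree matrices -/

/-- The rows without entries `≥ 2`. -/
def IsOnes (D : σ → κ → ℕ) (i : σ) : Prop := ∀ j, D i j ≤ 1

open Classical in
/-- The submatrix of the rows without entries `≥ 2`. -/
noncomputable def onesM (D : σ → κ → ℕ) : σ → κ → ℕ := fun i j => if IsOnes D i then D i j else 0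

/-- `nx i` permutes the support of the row `i` cyclically, for the rows of ones. -/
structure IsCyc (D : σ → κ → ℕ) (nx : σ → κ → κ) : Prop where
  maps : ∀ i, IsOnes D i → ∀ j, D i j ≠ 0 → D i (nx i j) ≠ 0
  inj : ∀ i, IsOnes D i → ∀ j j', D i j ≠ 0 → D i j' ≠ 0 → nx i j = nx i j' → j = j'
  trans : ∀ i, IsOnes D i → ∀ J : Set κ, (∃ j ∈ J, D i j ≠ 0) →
    (∀ j ∈ J, D i j ≠ 0 → nx i j ∈ J) → ∀ j, D i j ≠ 0 → j ∈ J

/-- The blocks used by the equations, first choice: in a row of ones the equation `j` uses the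
coordinate `nx i j`; in the other rows entries `≥ 2` use all blocks, and entries `1` the blocks
with at least two elements. -/
def S1 (D : σ → κ → ℕ) (nx : σ → κ → κ) (i : σ) (j j' : κ) : Prop :=
  D i j' ≠ 0 ∧ ((IsOnes D i ∧ j' = nx i j) ∨ (¬ IsOnes D i ∧ (2 ≤ D i j ∨ 2 ≤ D i j')))

/-- The blocks used by the equations, second choice: in the other rows only the equation `jo i` uses
all blocks. -/
def S2 (D : σ → κ → ℕ) (nx : σ → κ → κ) (jo : σ → κ) (i : σ) (j j' : κ) : Prop :=
  D i j' ≠ 0 ∧ ((IsOnes D i ∧ j' = nx i j) ∨ (¬ IsOnes D i ∧ (j = jo i ∨ 2 ≤ D i j')))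

/-- Weights of the columns: constant on the rows of ones, and in every other row `i` the sum of the
weights of the entries `1` is less than the product of the entry `≥ 2` in the column `jo i` with its
weight. -/
structure IsWt (D : σ → κ → ℕ) (jo : σ → κ) (μ : κ → ℝ) : Prop where
  pos : ∀ j, 0 < μ j
  const : ∀ i, IsOnes D i → ∀ j j', D i j ≠ 0 → D i j' ≠ 0 → μ j = μ j'
  two : ∀ i, ¬ IsOnes D i → 2 ≤ D i (jo i)
  lt : ∀ i, ¬ IsOnes D i → ∑ j, (if D i j = 1 then μ j else 0) < D i (jo i) * μ (jo i)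

/-- The blocks used by the equations, third choice: in the other rows an entry which is divisible by
`l` uses all blocks, the other entries use the blocks `(i, j')` with `ρ j < ρ j'`. -/
def S4 (D : σ → κ → ℕ) (nx : σ → κ → κ) (l : ℕ) (ρ : κ → ℕ) (i : σ) (j j' : κ) : Prop :=
  D i j' ≠ 0 ∧ ((IsOnes D i ∧ j' = nx i j) ∨ (¬ IsOnes D i ∧ (l ∣ D i j ∨ ρ j < ρ j')))

/-- The smallest relation: the equation `jo i` uses all blocks, the low entries use the block of
`jo i`, the other entries use this block and their own block. -/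
def S7 (D : σ → κ → ℕ) (nx : σ → κ → κ) (jo : σ → κ) (Lo : σ → κ → Prop) (i : σ) (j j' : κ) :
    Prop :=
  D i j' ≠ 0 ∧ ((IsOnes D i ∧ j' = nx i j) ∨
    (¬ IsOnes D i ∧ (j = jo i ∨ j' = jo i ∨ (¬ Lo i j ∧ j' = j))))

open Classical in
/-- Weights of the columns: constant on the rows of ones, and in every other row `i` the weighted sum of
the low entries is less than the weighted entry in the column `jo i`. -/
structure IsWtL (D : σ → κ → ℕ) (jo : σ → κ) (Lo : σ → κ → Prop) (μ : κ → ℝ) : Prop where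
  pos : ∀ j, 0 < μ j
  const : ∀ i, IsOnes D i → ∀ j j', D i j ≠ 0 → D i j' ≠ 0 → μ j = μ j'
  low : ∀ i, ¬ IsOnes D i → D i (jo i) ≠ 0 ∧ ¬ Lo i (jo i)
  lt : ∀ i, ¬ IsOnes D i → ∑ j, (if Lo i j then (D i j : ℝ) * μ j else 0) < D i (jo i) * μ (jo i)

end Pool.Agent.H2.PK
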