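import Pool.Agent.H2.PK.Vec
import Pool.Agent.H99.PI.BDet
import Pool.Agent.H99.PI.BTight

/-!
# Tight tuples

`s_row`: if the number of the `z j` in the factor `i` is at least `∑ j, cdeg f part i j`, the number of all
coordinates of the factor, then all coordinates of the factor are `z j`, so all `smap f g m k` are zero there; but their
sum is `gsum f g i > 0` (`rsum_smap`, see `c_strongQ` in `Pool.Agent.H99.PI.BStrong`). `s_det`: as `c_det` in
`Pool.Agent.H99.PI.BDet`: if the determinant is zero then by `IsRegS` for `e j j' := decide (z j' = y j (fac f (z j'))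
and cdeg (fac f (z j')) j ≠ 0)` there are `j j'` with `e j j'` and `Sy (fac (z j')) j'`, `cdeg (fac (z j')) j' ≠ 1`
(and then `s_sep`).
-/

set_option linter.unusedSectionVars false

open MeasureTheory Matrix
open scoped ENNReal

namespace Pool.Agent.H2.PK

open Pool.Agent.H99.SYZ Pool.Agent.H55.CI Pool.Agent.H2.CI Pool.Agent.H99.ON Pool.Agent.H99.PI
open Pool.Agent.H61.OT (IsPlan IsOptimal refl)

variable {ι σ κ : Type} [Fintype ι] [Fintype σ] [Fintype κ] [DecidableEq ι] [DecidableEq σ]
  [DecidableEq κ] {f : ι → σ} {part : ι ⊕ σ → κ} {S S' : σ → κ → κ → Prop} {Sy : σ → κ → Prop}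
  {P : κ → Set (ι → ℝ)} {g h : (ι → ℝ) → ℝ}

/-- No row is exhausted at a point of the polytope. -/
theorem s_row (hg : ∀ k, 0 < g (pray f k)) {z : κ → ι ⊕ σ} (hz : ∀ j, part (z j) = j) {m : ι → ℝ}
    (hm : m ∈ poly (un (cQ f part)) g) (ht : ∀ j, m ⬝ᵥ pray f (z j) = g (pray f (z j))) (i : σ) :
    (Finset.univ.filter fun j => fac f (z j) = i).card < ∑ j, cdeg f part i j := by
  classical
  by_contra hcon
  push Not at hcon
  have hzi : Function.Injective z := fun j j' h => by rw [← hz j, ← hz j', h]
  have hcard : (Finset.univ.filter fun k : ι ⊕ σ => fac f k = i).card = ∑ j, cdeg f part i j := by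
    rw [Finset.card_eq_sum_card_fiberwise (f := part) (t := Finset.univ)
      (fun _ _ => Finset.mem_coe.2 (Finset.mem_univ _))]
    refine Finset.sum_congr rfl fun j _ => ?_
    unfold cdeg
    rw [Finset.filter_filter]
  have hsub : (Finset.univ.filter fun j => fac f (z j) = i).image z ⊆
      Finset.univ.filter fun k : ι ⊕ σ => fac f k = i := by
    intro k hk
    obtain ⟨j, hj, rfl⟩ := Finset.mem_image.1 hk
    exact Finset.mem_filter.2 ⟨Finset.mem_univ _, (Finset.mem_filter.1 hj).2⟩
  have heq : (Finset.univ.filter fun j => fac f (z j) = i).image z =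
      Finset.univ.filter fun k : ι ⊕ σ => fac f k = i := by
    refine Finset.eq_of_subset_of_card_le hsub ?_
    rw [Finset.card_image_of_injective _ hzi, hcard]
    exact hcon
  have hzero : ∀ l, fac f l = i → smap f g m l = 0 := by
    intro l hl
    have h1 : l ∈ Finset.univ.filter fun k : ι ⊕ σ => fac f k = i :=
      Finset.mem_filter.2 ⟨Finset.mem_univ _, hl⟩
    rw [← heq] at h1
    obtain ⟨j, -, rfl⟩ := Finset.mem_image.1 h1
    exact (tightQ (z j)).1 (ht j)
  have h1 := rsum_smap f g m i
  have h2 : rsum (fac f) i (smap f g m) = 0 := by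
    unfold rsum
    refine Finset.sum_eq_zero fun l _ => ?_
    split_ifs with hl
    · exact hzero l hl
    · rfl
  have h3 : 0 < gsum f g i := by
    unfold gsum
    refine Finset.sum_pos' (fun l _ => ?_) ⟨Sum.inr i, Finset.mem_univ _, ?_⟩
    · split_ifs
      · exact (hg l).le
      · exact le_rfl
    · rw [if_pos (show fac f (Sum.inr i) = i from rfl)]
      exact hg _
  rw [← h1, h2] at h3
  exact lt_irrefl _ h3

/-- Tight tuples are nonsingular or separated by a transposition. -/
theorem s_det (hD : IsRegS (cdeg f part) S Sy) (hg : ∀ k, 0 < g (pray f k)) {p : κ → ι → ℝ}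
    (hp : p ∈ tup (sP f part S)) {q : κ → ι → ℝ} (hq : q ∈ tup (cQ f part)) {m : ι → ℝ}
    (hm : m ∈ poly (un (cQ f part)) g) (ht : ∀ j, m ⬝ᵥ q j = g (q j)) :
    (Amat p q).det ≠ 0 ∨ ∃ r ∈ sR f part Sy, ∃ i j, (p i ⬝ᵥ r.2) * (q j ⬝ᵥ r.1) < 0 := by
  classical
  by_contra hcon
  push Not at hcon
  obtain ⟨hdet, hsep⟩ := hcon
  choose y hy hyS hpy using fun j => (hp j).2
  choose z hz hqz using hq
  obtain rfl : p = fun j => cver f part j (y j) := funext hpy
  obtain rfl : q = fun j => pray f (z j) := funext hqz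
  have hpos : ∀ j', cdeg f part (fac f (z j')) j' ≠ 0 := by
    intro j' h0
    unfold cdeg at h0
    rw [Finset.card_eq_zero, Finset.filter_eq_empty_iff] at h0
    exact h0 (Finset.mem_univ (z j')) ⟨rfl, hz j'⟩
  refine hD (fun j' => fac f (z j'))
    (fun j j' => decide (z j' = y j (fac f (z j')) ∧ cdeg f part (fac f (z j')) j ≠ 0)) hpos
    (s_row hg hz hm ht) ?_ ?_ ?_
  · intro j j' he
    rw [decide_eq_true_eq] at he
    refine ⟨?_, he.2, fun hS => ?_⟩
    · have h1 := hyS j _ he.2
      rw [← he.1, hz j'] at h1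
      exact h1
    · by_contra h1
      obtain ⟨r, hr, hlt⟩ := s_sep hy hz he.1 he.2 hS h1
      exact absurd hlt (not_lt.2 (hsep r hr j j'))
  · intro j j' j'' he he' hzz
    rw [decide_eq_true_eq] at he he'
    have h1 : fac f (z j') = fac f (z j'') := hzz
    rw [← hz j', ← hz j'', he.1, he'.1, h1]
  · refine (congrArg Matrix.det ?_).trans hdet
    ext j j'
    show (if j = j' then (1 : ℝ) else 0) - (if decide (z j' = y j (fac f (z j')) ∧
      cdeg f part (fac f (z j')) j ≠ 0) = true then (cdeg f part (fac f (z j')) j : ℝ) else 0) =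
      cver f part j (y j) ⬝ᵥ pray f (z j')
    rw [cver_dot (hy j), hz j']
    have h1 : (if j = j' then (1 : ℝ) else 0) = if j' = j then 1 else 0 := by
      by_cases h2 : j = j'
      · rw [if_pos h2, if_pos h2.symm]
      · rw [if_neg h2, if_neg fun h3 => h2 h3.symm]
    rw [h1]
    congr 1
    by_cases h2 : z j' = y j (fac f (z j'))
    · rw [if_pos h2, mul_one]
      by_cases h3 : cdeg f part (fac f (z j')) j = 0
      · rw [if_neg (by rw [decide_eq_true_eq]; exact fun h4 => h4.2 h3), h3, Nat.cast_zero]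
      · rw [if_pos (by rw [decide_eq_true_eq]; exact ⟨h2, h3⟩)]
    · rw [if_neg h2, mul_zero, if_neg (by rw [decide_eq_true_eq]; exact fun h4 => h2 h4.1)]

end Pool.Agent.H2.PK
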