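import Pool.Agent.H2.PK.Fam

/-!
# Examples
-/

set_option linter.unusedSectionVars false

open Matrix

namespace Pool.Agent.H2.PK

open Pool.Agent.H99.PI

variable {σ κ : Type}

theorem isForest_of_le {D D' : σ → κ → ℕ} (H : IsForest D) (h : ∀ i j, D' i j ≠ 0 → D i j ≠ 0) :
    IsForest D' := by
  obtain ⟨a, b, h1, h2, h3⟩ := H
  exact ⟨a, b, fun i j hij => h1 i j (h i j hij),
    fun i j j' hj hj' => h2 i j j' (h i j hj) (h i j' hj'),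
    fun j i i' hi hi' => h3 j i i' (h i j hi) (h i' j hi')⟩

theorem forest_ones_of_two {D : σ → κ → ℕ} (h : ∀ i, ∃ j, 2 ≤ D i j) : IsForest (onesM D) := by
  have h0 : ∀ i j, onesM D i j = 0 := by
    intro i j
    unfold onesM
    rw [if_neg]
    intro h1
    obtain ⟨j', hj'⟩ := h i
    exact absurd (h1 j') (by omega)
  exact ⟨fun _ => 0, fun _ => 0, fun i j hij => absurd (h0 i j) hij,
    fun i j _ hij => absurd (h0 i j) hij, fun j i _ hij => absurd (h0 i j) hij⟩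

/-- Schoen. -/
theorem ex_schoen : (∃ S, IsRegS (![![1, 1], ![3, 0], ![0, 3]] : Fin 3 → Fin 2 → ℕ) S
      (fun _ _ => False) ∧ IsRec (![![1, 1], ![3, 0], ![0, 3]] : Fin 3 → Fin 2 → ℕ) S) ∧
    HasChoice (![![1, 1], ![3, 0], ![0, 3]] : Fin 3 → Fin 2 → ℕ) := by
  refine ⟨fam_forest ⟨![0, 2, 2], fun _ => 1, ?_, ?_, ?_⟩, ![1, 2], ?_, ?_⟩ <;> decide

/-- Tian and Yau. -/
theorem ex_tianyau : (∃ S, IsRegS (![![3, 0, 1], ![0, 3, 1]] : Fin 2 → Fin 3 → ℕ) S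
      (fun _ _ => False) ∧ IsRec (![![3, 0, 1], ![0, 3, 1]] : Fin 2 → Fin 3 → ℕ) S) ∧
    HasChoice (![![3, 0, 1], ![0, 3, 1]] : Fin 2 → Fin 3 → ℕ) := by
  refine ⟨fam_forest ⟨fun _ => 1, ![2, 2, 0], ?_, ?_, ?_⟩, ![0, 1, 0], ?_, ?_⟩ <;> decide

/-- Degrees `(1,3), (1,2)` in `P^1 × P^4`. -/
theorem ex_14 : (∃ S, IsRegS (![![1, 1], ![3, 2]] : Fin 2 → Fin 2 → ℕ) S
      (fun _ _ => False) ∧ IsRec (![![1, 1], ![3, 2]] : Fin 2 → Fin 2 → ℕ) S) ∧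
    HasChoice (![![1, 1], ![3, 2]] : Fin 2 → Fin 2 → ℕ) := by
  refine ⟨fam_two ?_ ?_ ?_, ![1, 1], ?_, ?_⟩ <;> decide

/-- Degrees `(2,2), (1,1), (1,1)` in `P^3 × P^3`. -/
theorem ex_33 : (∃ S, IsRegS (![![2, 1, 1], ![2, 1, 1]] : Fin 2 → Fin 3 → ℕ) S
      (fun _ _ => False) ∧ IsRec (![![2, 1, 1], ![2, 1, 1]] : Fin 2 → Fin 3 → ℕ) S) ∧
    HasChoice (![![2, 1, 1], ![2, 1, 1]] : Fin 2 → Fin 3 → ℕ) := by
  refine ⟨fam_dvd ?_ (l := 2) (ρ := ![1, 0, 0]) ⟨le_rfl, ?_, ?_⟩, ![0, 0, 1], ?_, ?_⟩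
  · exact forest_ones_of_two (by decide)
  · unfold IsOnes
    decide
  · unfold IsOnes
    decide
  · decide
  · decide

/-- Degrees `(4,1), (1,1)` in `P^4 × P^1`. -/
theorem ex_41 : (∃ S, IsRegS (![![4, 1], ![1, 1]] : Fin 2 → Fin 2 → ℕ) S
      (fun _ _ => True) ∧ IsRec (![![4, 1], ![1, 1]] : Fin 2 → Fin 2 → ℕ) S) ∧
    HasChoice (![![4, 1], ![1, 1]] : Fin 2 → Fin 2 → ℕ) := by
  have h0 : ¬ IsOnes (![![4, 1], ![1, 1]] : Fin 2 → Fin 2 → ℕ) 0 := by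
    unfold IsOnes
    decide
  have h1 : IsOnes (![![4, 1], ![1, 1]] : Fin 2 → Fin 2 → ℕ) 1 := by
    unfold IsOnes
    decide
  refine ⟨fam_sym (isForest_of_le (D := ![![0, 0], ![1, 1]]) ⟨fun _ => 1, ![0, 2], ?_, ?_, ?_⟩ ?_)
    (jo := fun _ => 0) (μ := fun _ => 1) ⟨fun _ => one_pos, fun _ _ _ _ _ _ => rfl, ?_, ?_⟩,
    ![0, 0], ?_, ?_⟩
  · decide
  · decide
  · decide
  · intro i j
    fin_cases i
    · intro h2
      exact absurd (if_neg h0) h2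
    · intro _
      fin_cases j <;> decide
  · intro i hi
    fin_cases i
    · decide
    · exact absurd h1 hi
  · intro i hi
    fin_cases i
    · rw [Fin.sum_univ_two]
      norm_num
    · exact absurd h1 hi
  · decide
  · decide

/-- Degrees `(2,1), (1,2)` in `P^2 × P^2`. -/
theorem ex_22 : (∃ S, IsRegS (![![2, 1], ![1, 2]] : Fin 2 → Fin 2 → ℕ) S
      (fun _ _ => True) ∧ IsRec (![![2, 1], ![1, 2]] : Fin 2 → Fin 2 → ℕ) S) ∧
    HasChoice (![![2, 1], ![1, 2]] : Fin 2 → Fin 2 → ℕ) := by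
  refine ⟨fam_sym (forest_ones_of_two (by decide))
    (jo := ![0, 1]) (μ := fun _ => 1) ⟨fun _ => one_pos, fun _ _ _ _ _ _ => rfl, ?_, ?_⟩,
    ![0, 1], ?_, ?_⟩
  · intro i _
    fin_cases i <;> decide
  · intro i _
    fin_cases i <;> rw [Fin.sum_univ_two] <;> norm_num
  · decide
  · decide

end Pool.Agent.H2.PK
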