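import Pool.Agent.H2.PK.Flow

/-!
# Regular matrices: entries with a common divisor

`reg_dvd`: take a prime `q` dividing `l` and reduce the (integral) matrix modulo `q`: a kernel vector `v ≠ 0` over
`ZMod q` satisfies `v j = ∑ D (z j') j * v j'` over the `j'` with `e j j'` and `D (z j') j` not divisible by `q`.
Such a `j'` has `ρ j' > ρ j` if the row `z j'` is not a row of ones (`S4`), and `ρ j' = ρ j`,
`j' = nx (z j') j` if it is one. Let `T` be the set of the `j` with `v j ≠ 0` and `ρ j` maximal among these. For `j ∈ T` only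
rows of ones occur in the sum, and only `j' ∈ T` matter. Now the same argument as for forests, for the forest `onesM D`.
-/

set_option linter.unusedSectionVars false

open Matrix

namespace Pool.Agent.H2.PK

open Pool.Agent.H99.PI

variable {σ κ : Type} [Fintype σ] [Fintype κ] [DecidableEq σ] [DecidableEq κ]

/-- The kernel vector modulo a prime. -/
private theorem exists_ker_mod (M : κ → κ → ℕ)
    (h : (Matrix.of fun j j' => (if j = j' then 1 else 0) - (M j j' : ℝ)).det = 0) (q : ℕ)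
    [Fact q.Prime] : ∃ v : κ → ZMod q, v ≠ 0 ∧ ∀ j, v j = ∑ j', (M j j' : ZMod q) * v j' := by
  set C : Matrix κ κ ℤ := Matrix.of fun j j' => (if j = j' then 1 else 0) - (M j j' : ℤ) with hC
  have e1 : (Matrix.of fun j j' => (if j = j' then 1 else 0) - (M j j' : ℝ)) =
      C.map (Int.castRingHom ℝ) := by
    ext j j'
    by_cases hij : j = j'
    · subst hij
      simp [hC]
    · simp [hC, hij]
  have h2 : C.det = 0 := by
    rw [e1, ← RingHom.mapMatrix_apply, ← RingHom.map_det] at h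
    simpa using h
  have h3 : (C.map (Int.castRingHom (ZMod q))).det = 0 := by
    rw [← RingHom.mapMatrix_apply, ← RingHom.map_det, h2, map_zero]
  obtain ⟨v, hv0, hv⟩ := Matrix.exists_mulVec_eq_zero_iff.mpr h3
  refine ⟨v, hv0, fun j => ?_⟩
  have h4 := congrFun hv j
  have e2 : ∀ x, C.map (Int.castRingHom (ZMod q)) j x =
      (if j = x then 1 else 0) - (M j x : ZMod q) := by
    intro x
    by_cases hij : j = x
    · subst hij
      simp [hC]
    · simp [hC, hij]
  simp only [Matrix.mulVec, dotProduct, e2, sub_mul, Finset.sum_sub_distrib, Pi.zero_apply] at h4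
  have h5 : ∑ x, (if j = x then (1 : ZMod q) else 0) * v x = v j := by simp
  rw [h5] at h4
  exact sub_eq_zero.1 h4

theorem reg_dvd {D : σ → κ → ℕ} {l : ℕ} (hl : 2 ≤ l) {ρ : κ → ℕ}
    (h2 : ∀ i, IsOnes D i → ∀ j j', D i j ≠ 0 → D i j' ≠ 0 → ρ j = ρ j')
    (H : IsForest (onesM D)) {nx : σ → κ → κ} (hc : IsCyc D nx) :
    IsRegS D (S4 D nx l ρ) fun _ _ => False := by
  classical
  intro z e hz hcard he _ hdet
  have hq : (l.minFac).Prime := Nat.minFac_prime (by omega)
  have : Fact (l.minFac).Prime := ⟨hq⟩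
  obtain ⟨v, hv0, hv⟩ := exists_ker_mod (fun j j' => if e j j' = true then D (z j') j else 0) (by
    refine Eq.trans ?_ hdet
    congr 1
    ext j j'
    by_cases h : e j j' = true <;> simp [h]) l.minFac
  -- a column with nonzero value
  have hne : ∃ j, v j ≠ 0 := by
    by_contra h
    push Not at h
    exact hv0 (funext h)
  obtain ⟨j₀, hj₀⟩ := hne
  obtain ⟨jm, hjm, hmax⟩ := Finset.exists_max_image (Finset.univ.filter fun j => v j ≠ 0) ρ
    ⟨j₀, Finset.mem_filter.mpr ⟨Finset.mem_univ _, hj₀⟩⟩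
  have hjm0 : v jm ≠ 0 := (Finset.mem_filter.mp hjm).2
  have hmax' : ∀ j, v j ≠ 0 → ρ j ≤ ρ jm := fun j hj =>
    hmax j (Finset.mem_filter.mpr ⟨Finset.mem_univ _, hj⟩)
  -- the next columns
  have hstep : ∀ j, v j ≠ 0 → ρ j = ρ jm → ∃ j', v j' ≠ 0 ∧ ρ j' = ρ jm ∧ e j j' = true ∧
      IsOnes D (z j') ∧ D (z j') j ≠ 0 ∧ j' = nx (z j') j := by
    intro j hj hρ
    by_contra hcon
    apply hj
    rw [hv j]
    refine Finset.sum_eq_zero fun j' _ => ?_
    by_cases hev : e j j' = true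
    · rw [if_pos hev]
      by_cases hvj : v j' = 0
      · rw [hvj, mul_zero]
      · obtain ⟨⟨hS0, hS⟩, hD, _⟩ := he j j' hev
        rcases hS with ⟨hon, hnx⟩ | ⟨_, hS | hS⟩
        · exact absurd ⟨j', hvj, (h2 _ hon j j' hD hS0).symm.trans hρ, hev, hon, hD, hnx⟩ hcon
        · have h3 : ((D (z j') j : ℕ) : ZMod l.minFac) = 0 :=
            (ZMod.natCast_eq_zero_iff _ _).2 ((Nat.minFac_dvd l).trans hS)
          rw [h3, zero_mul]
        · exfalso
          have h5 := hmax' j' hvj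
          omega
    · rw [if_neg hev, Nat.cast_zero, zero_mul]
  -- the targets
  let T : Finset κ := Finset.univ.filter fun j' => v j' ≠ 0 ∧ ρ j' = ρ jm ∧ IsOnes D (z j')
  have hT : T.Nonempty := by
    obtain ⟨j', h3, h4, _, h5, _⟩ := hstep jm hjm0 rfl
    exact ⟨j', Finset.mem_filter.mpr ⟨Finset.mem_univ _, h3, h4, h5⟩⟩
  obtain ⟨i, hi, hrow⟩ := exists_row H z (T.image z) (hT.image z)
  obtain ⟨j₁, hj₁T, hj₁⟩ := Finset.mem_image.mp hi
  have hion : IsOnes D i := hj₁ ▸ (Finset.mem_filter.mp hj₁T).2.2.2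
  refine exhausted hc hion (hcard i) (J := {j | j ∈ T ∧ z j = i}) ⟨j₁, ⟨hj₁T, hj₁⟩, hj₁ ▸ hz j₁⟩ ?_
    fun j hj => hj.2
  rintro j ⟨hjT, hzj⟩ hDj
  obtain ⟨_, hvj, hρj, _⟩ := Finset.mem_filter.mp hjT
  obtain ⟨j', h3, h4, _, h5, h6, h7⟩ := hstep j hvj hρj
  have hj'T : j' ∈ T := Finset.mem_filter.mpr ⟨Finset.mem_univ _, h3, h4, h5⟩
  have hzj' : z j' = i := by
    by_contra hne
    have h8 := hrow j hzj (by rw [onesM, if_pos hion]; exact hDj) (z j')
      (Finset.mem_image_of_mem z hj'T) hne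
    rw [onesM, if_pos h5] at h8
    exact h6 h8
  rw [hzj'] at h7
  exact ⟨h7 ▸ hj'T, h7 ▸ hzj'⟩

end Pool.Agent.H2.PK
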