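import Pool.Agent.H2.PK.Flow

/-!
# Regular matrices: forests

`reg_forest`: as `isReg_forest` in `Pool.Agent.H99.PI.EForest` (the combinatorial claim is `exists_row` in
`Pool.Agent.H2.PK.Flow`). In the chain `v j = D i j * v j'` inside of the row `i` take the set `J` of the `j` in
`T.filter (z j = i)` with minimal `|v j|`: for `j ∈ J` we get `D i j = 1` and `j' ∈ J`, so `D i j' = 1` too, hence
`S1 D nx i j j'` says that `i` is a row of ones and `j' = nx i j`: `exhausted`.
-/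

set_option linter.unusedSectionVars false

open Matrix

namespace Pool.Agent.H2.PK

open Pool.Agent.H99.PI

variable {σ κ : Type} [Fintype σ] [Fintype κ] [DecidableEq σ] [DecidableEq κ]

theorem reg_forest {D : σ → κ → ℕ} (H : IsForest D) {nx : σ → κ → κ} (hc : IsCyc D nx) :
    IsRegS D (S1 D nx) fun _ _ => False := by
  intro z e hz0 hzc he1 he2 hdet
  obtain ⟨v, hv0, hv⟩ := Matrix.exists_mulVec_eq_zero_iff.mpr hdet
  have hv' : ∀ j, v j = ∑ j', (if e j j' = true then (D (z j') j : ℝ) else 0) * v j' := by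
    intro j
    have h := congrFun hv j
    simp only [Matrix.mulVec, dotProduct, Matrix.of_apply, sub_mul, Finset.sum_sub_distrib,
      Pi.zero_apply] at h
    have h1 : ∑ x, (if j = x then (1 : ℝ) else 0) * v x = v j := by simp
    rw [h1] at h
    linarith
  have hstep : ∀ j, v j ≠ 0 → ∃ j', e j j' = true ∧ D (z j') j ≠ 0 ∧ v j' ≠ 0 := by
    intro j hj
    by_contra hcon
    push Not at hcon
    apply hj
    rw [hv' j]
    refine Finset.sum_eq_zero fun j' _ => ?_
    by_cases h : e j j' = true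
    · by_cases h2 : D (z j') j = 0
      · simp [h2]
      · rw [hcon j' h h2, mul_zero]
    · simp [h]
  let T : Finset κ := Finset.univ.filter fun j => v j ≠ 0 ∧ ∃ j₀, e j₀ j = true
  have hT : T.Nonempty := by
    obtain ⟨j, hj⟩ : ∃ j, v j ≠ 0 := by
      by_contra h
      push Not at h
      exact hv0 (funext h)
    obtain ⟨j', h1, _, h3⟩ := hstep j hj
    exact ⟨j', Finset.mem_filter.mpr ⟨Finset.mem_univ _, h3, j, h1⟩⟩
  obtain ⟨i, hi, hrow⟩ := exists_row H z (T.image z) (hT.image z)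
  obtain ⟨j₁, hj₁T, hj₁⟩ := Finset.mem_image.mp hi
  -- the chain in the row `i`
  have hchain : ∀ j ∈ T, z j = i → ∃ j' ∈ T, z j' = i ∧ e j j' = true ∧ v j = (D i j : ℝ) * v j' := by
    intro j hjT hz
    obtain ⟨_, hvj, j₀, hj₀⟩ := Finset.mem_filter.mp hjT
    have hrow' := hrow j hz (hz ▸ hz0 j)
    obtain ⟨j', h1, h2, h3⟩ := hstep j hvj
    have hj'T : j' ∈ T := Finset.mem_filter.mpr ⟨Finset.mem_univ _, h3, j, h1⟩
    have hzj' : z j' = i := by
      by_contra hne
      exact h2 (hrow' (z j') (Finset.mem_image_of_mem z hj'T) hne)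
    refine ⟨j', hj'T, hzj', h1, ?_⟩
    rw [hv' j, Finset.sum_eq_single j']
    · rw [if_pos h1, hzj']
    · intro x _ hx
      by_cases hex : e j x = true
      · by_cases hvx : v x = 0
        · rw [hvx, mul_zero]
        · have hxT : x ∈ T := Finset.mem_filter.mpr ⟨Finset.mem_univ _, hvx, j, hex⟩
          by_cases hzx : z x = i
          · exact absurd (he2 j x j' hex h1 (hzx.trans hzj'.symm)) hx
          · rw [hrow' (z x) (Finset.mem_image_of_mem z hxT) hzx]
            simp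
      · simp [hex]
    · intro h
      exact absurd (Finset.mem_univ _) h
  obtain ⟨jm, hjm, hmin⟩ := Finset.exists_min_image (T.filter fun j => z j = i) (fun j => |v j|)
    ⟨j₁, Finset.mem_filter.mpr ⟨hj₁T, hj₁⟩⟩
  obtain ⟨hjmT, hzm⟩ := Finset.mem_filter.mp hjm
  let J : Set κ := {j | j ∈ T ∧ z j = i ∧ |v j| = |v jm|}
  have hJ : ∀ j ∈ J, D i j = 1 ∧ ∃ j' ∈ J, e j j' = true := by
    rintro j ⟨hjT, hz, hmj⟩
    obtain ⟨j', hj'T, hz', h1, h2⟩ := hchain j hjT hz
    have hvj : v j ≠ 0 := (Finset.mem_filter.mp hjT).2.1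
    have h3 : |v jm| ≤ |v j'| := hmin j' (Finset.mem_filter.mpr ⟨hj'T, hz'⟩)
    have h4 : |v j| = (D i j : ℝ) * |v j'| := by
      rw [h2, abs_mul, Nat.abs_cast]
    have h5 : 0 < |v j| := abs_pos.mpr hvj
    have h6 : D i j ≠ 0 := hz ▸ hz0 j
    have h7 : (1 : ℝ) ≤ (D i j : ℝ) := by
      exact_mod_cast Nat.one_le_iff_ne_zero.mpr h6
    have h8 : 0 < |v j'| := by rw [← hmj] at h3; linarith
    have h9 : (D i j : ℝ) ≤ 1 := by
      by_contra hcon
      push Not at hcon
      nlinarith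
    have h10 : D i j = 1 := by
      have : D i j ≤ 1 := by exact_mod_cast h9
      omega
    refine ⟨h10, j', ⟨hj'T, hz', ?_⟩, h1⟩
    rw [h10, Nat.cast_one, one_mul] at h4
    rw [← h4, hmj]
  have hones : ∀ j ∈ J, IsOnes D i ∧ nx i j ∈ J := by
    intro j hj
    obtain ⟨h1, j', hj', he⟩ := hJ j hj
    have h2 := (hJ j' hj').1
    obtain ⟨⟨-, h3⟩, -, -⟩ := he1 j j' he
    rw [hj'.2.1] at h3
    rcases h3 with ⟨h3, h4⟩ | ⟨-, h3 | h3⟩
    · exact ⟨h3, h4 ▸ hj'⟩
    · omega
    · omega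
  have hjmJ : jm ∈ J := ⟨hjmT, hzm, rfl⟩
  exact exhausted hc (hones jm hjmJ).1 (hzc i) (J := J)
    ⟨jm, hjmJ, by rw [(hJ jm hjmJ).1]; exact one_ne_zero⟩ (fun j hj _ => (hones j hj).2) fun j hj => hj.2.1

end Pool.Agent.H2.PK
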