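import Pool.Agent.H2.PK.Flow

/-!
# Regular matrices: symmetric blocks

`reg_sym`: let `x ≠ 0` with `x ᵥ* (1 - N) = 0`, so `x j' = ∑ j, x j * N j j'`. If `N j j' ≠ 0` then `D (z j') j' = 1`
(the block is not symmetric with two elements), so by `S2` either `z j'` is a row of ones and `j' = nx (z j') j`
(one `j`, by injectivity), `N j j' = 1`, or it is not a row of ones and `j = jo (z j')`, `N j j' ≥ 2`. So every column of `N` has
at most one nonzero entry: `x j' = N j j' * x j`, with `j = φ j'`. Let `J` be the set of the `j'` with `|x j'|` minimal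
and nonzero. For `j' ∈ J` the row `z j'` is a row of ones and `φ j' ∈ J`. So `φ` maps `J` to `J`. Take `c k = φ^[k] j₀`
and `n < m` with `c n = c m`. The function
`y i j = ∑ k ∈ [n, m), ((if z (c k) = i and c k = j then 1 else 0) - (if z (c k) = i and c (k + 1) = j then 1 else 0))`
has zero sum over every row and (telescoping) every column, and is supported on the edges of `onesM D`. By `flow_zero` it
is zero. So for `k ∈ [n, m)`, `i = z (c k)` there is a `k'` with `c (k' + 1) = c k` and `z (c k') = i`; and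
`c k' = nx i (c k)`, as `φ (c k') = c k`. So `C = {c k | k ∈ [n, m), z (c k) = i₀}`, for `i₀ = z (c n)`, is closed under
`nx i₀`: `exhausted`.
-/

set_option linter.unusedSectionVars false

open Matrix

namespace Pool.Agent.H2.PK

open Pool.Agent.H99.PI

variable {σ κ : Type} [Fintype σ] [Fintype κ] [DecidableEq σ] [DecidableEq κ]

private theorem cyc_contra {D : σ → κ → ℕ} (H : IsForest (onesM D)) {nx : σ → κ → κ}
    (hc : IsCyc D nx) {z : κ → σ} (hz0 : ∀ j, D (z j) j ≠ 0)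
    (hz : ∀ i, (Finset.univ.filter fun j => z j = i).card < ∑ j, D i j) (J : Set κ)
    {φ : κ → κ} (hφ : ∀ j ∈ J, φ j ∈ J ∧ IsOnes D (z j) ∧ nx (z j) (φ j) = j ∧
      D (z j) (φ j) ≠ 0) {j₀ : κ} (hj₀ : j₀ ∈ J) : False := by
  classical
  have hit : ∀ n : ℕ, ∀ j ∈ J, φ^[n] j ∈ J := by
    intro n
    induction n with
    | zero => exact fun j hj => hj
    | succ n ih =>
      intro j hj
      rw [Function.iterate_succ_apply]
      exact ih _ (hφ j hj).1
  -- a periodic point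
  obtain ⟨j₁, hj₁, p, hp, hper⟩ : ∃ j₁ ∈ J, ∃ p, 0 < p ∧ φ^[p] j₁ = j₁ := by
    obtain ⟨n, m, hnm, heq⟩ := Finite.exists_ne_map_eq_of_infinite fun n : ℕ => φ^[n] j₀
    have key : ∀ n m : ℕ, n < m → φ^[n] j₀ = φ^[m] j₀ → ∃ j₁ ∈ J, ∃ p, 0 < p ∧ φ^[p] j₁ = j₁ := by
      intro n m hlt h
      refine ⟨φ^[n] j₀, hit n j₀ hj₀, m - n, Nat.sub_pos_of_lt hlt, ?_⟩
      rw [← Function.iterate_add_apply, Nat.sub_add_cancel hlt.le]
      exact h.symm
    rcases lt_or_gt_of_ne hnm with h | h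
    · exact key n m h heq
    · exact key m n h heq.symm
  -- the periodic points in `J`
  set C : Finset κ := Finset.univ.filter fun j => j ∈ J ∧ ∃ p, 0 < p ∧ φ^[p] j = j with hC
  have hmem : ∀ j, j ∈ C ↔ j ∈ J ∧ ∃ p, 0 < p ∧ φ^[p] j = j := fun j => by
    rw [hC, Finset.mem_filter]
    simp
  have hmaps : ∀ j ∈ C, φ j ∈ C := by
    intro j hj
    obtain ⟨h1, q, hq, h2⟩ := (hmem j).1 hj
    refine (hmem _).2 ⟨(hφ j h1).1, q, hq, ?_⟩
    rw [← Function.iterate_succ_apply, Function.iterate_succ_apply', h2]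
  have hsurj : ∀ j ∈ C, ∃ k ∈ C, φ k = j := by
    intro j hj
    obtain ⟨h1, q, hq, h2⟩ := (hmem j).1 hj
    obtain ⟨r, rfl⟩ := Nat.exists_eq_succ_of_ne_zero hq.ne'
    refine ⟨φ^[r] j, (hmem _).2 ⟨hit r j h1, r + 1, hq, ?_⟩, ?_⟩
    · rw [← Function.iterate_add_apply, Nat.add_comm, Function.iterate_add_apply, h2]
    · rw [← Function.iterate_succ_apply' φ r j]
      exact h2
  have hinj : Set.InjOn φ (C : Set κ) := by
    have hs : Set.SurjOn φ (C : Set κ) (C : Set κ) := by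
      intro j hj
      obtain ⟨k, hk, h⟩ := hsurj j (Finset.mem_coe.1 hj)
      exact ⟨k, Finset.mem_coe.2 hk, h⟩
    exact Finset.injOn_of_surjOn_of_card_le φ (fun j hj => Finset.mem_coe.2
      (hmaps j (Finset.mem_coe.1 hj))) hs le_rfl
  have hCJ : ∀ j ∈ C, j ∈ J := fun j hj => ((hmem j).1 hj).1
  set y : σ → κ → ℝ := fun i j => ∑ k ∈ C, ((if z k = i ∧ k = j then (1 : ℝ) else 0) -
    (if z k = i ∧ φ k = j then (1 : ℝ) else 0)) with hy
  have hy0 : ∀ i j, y i j = 0 := by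
    refine flow_zero H ?_ ?_ ?_
    · intro i j hD
      rw [hy]
      refine Finset.sum_eq_zero fun k hk => ?_
      have hkJ := hCJ k hk
      have hone : ∀ j', D (z k) j' ≠ 0 → onesM D (z k) j' ≠ 0 := by
        intro j' h
        unfold onesM
        rw [if_pos (hφ k hkJ).2.1]
        exact h
      rw [if_neg, if_neg, sub_zero]
      · rintro ⟨rfl, rfl⟩
        exact hone _ (hφ k hkJ).2.2.2 hD
      · rintro ⟨rfl, rfl⟩
        exact hone _ (hz0 k) hD
    · intro i
      rw [hy]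
      simp only
      rw [Finset.sum_comm]
      refine Finset.sum_eq_zero fun k _ => ?_
      rw [Finset.sum_sub_distrib]
      by_cases h : z k = i
      · simp [h]
      · simp [h]
    · intro j
      rw [hy]
      simp only
      rw [Finset.sum_comm]
      have h1 : ∀ k ∈ C, ∑ i, ((if z k = i ∧ k = j then (1 : ℝ) else 0) -
          (if z k = i ∧ φ k = j then (1 : ℝ) else 0)) =
          (if k = j then (1 : ℝ) else 0) - (if φ k = j then (1 : ℝ) else 0) := by
        intro k _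
        rw [Finset.sum_sub_distrib]
        congr 1
        · by_cases h : k = j
          · simp [h]
          · simp [h]
        · by_cases h : φ k = j
          · simp [h]
          · simp [h]
      rw [Finset.sum_congr rfl h1, Finset.sum_sub_distrib, sub_eq_zero]
      symm
      refine Finset.sum_nbij φ (fun k hk => hmaps k hk) hinj ?_ (fun k _ => rfl)
      intro k hk
      obtain ⟨l, hl, h⟩ := hsurj k (Finset.mem_coe.1 hk)
      exact ⟨l, Finset.mem_coe.2 hl, h⟩
  have hj₁C : j₁ ∈ C := (hmem j₁).2 ⟨hj₁, p, hp, hper⟩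
  -- the set of the periodic points with the row of `j₁` is closed under the cyclic permutation
  refine exhausted hc (i := z j₁) (hφ j₁ hj₁).2.1 (hz (z j₁))
    (J := {j | j ∈ C ∧ z j = z j₁}) ⟨j₁, ⟨hj₁C, rfl⟩, hz0 j₁⟩ ?_ (fun j hj => hj.2)
  rintro j ⟨hjC, hjz⟩ _
  have h1 := hy0 (z j) j
  have h2 : ∑ k ∈ C, (if z k = z j ∧ k = j then (1 : ℝ) else 0) = 1 := by
    rw [Finset.sum_eq_single j]
    · rw [if_pos ⟨rfl, rfl⟩]
    · intro k _ hk
      rw [if_neg fun h => hk h.2]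
    · intro h
      exact absurd hjC h
  rw [hy] at h1
  simp only at h1
  rw [Finset.sum_sub_distrib, h2] at h1
  have h3 : ∑ k ∈ C, (if z k = z j ∧ φ k = j then (1 : ℝ) else 0) ≠ 0 := by
    intro h
    rw [h] at h1
    norm_num at h1
  obtain ⟨k, hk, hk2⟩ := Finset.exists_ne_zero_of_sum_ne_zero h3
  have hk3 : z k = z j ∧ φ k = j := by
    by_contra h
    exact hk2 (if_neg h)
  have hk4 := (hφ k (hCJ k hk)).2.2.1
  rw [hk3.1, hk3.2, hjz] at hk4
  rw [hk4]
  exact ⟨hk, hk3.1.trans hjz⟩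

theorem reg_sym {D : σ → κ → ℕ} (H : IsForest (onesM D)) {nx : σ → κ → κ} (hc : IsCyc D nx)
    {jo : σ → κ} (hjo : ∀ i, ¬ IsOnes D i → 2 ≤ D i (jo i)) :
    IsRegS D (S2 D nx jo) fun _ _ => True := by
  classical
  intro z e hz0 hz he _ hdet
  obtain ⟨x, hx0, hx⟩ := Matrix.exists_vecMul_eq_zero_iff.2 hdet
  have hkey : ∀ j j', e j j' = true → (IsOnes D (z j') ∧ nx (z j') j = j' ∧ D (z j') j = 1) ∨
      (¬ IsOnes D (z j') ∧ j = jo (z j') ∧ 2 ≤ D (z j') j) := by
    intro j j' hj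
    obtain ⟨⟨_, h1⟩, h2, h3⟩ := he j j' hj
    have h4 := h3 trivial
    rcases h1 with ⟨h5, h6⟩ | ⟨h5, h6 | h6⟩
    · refine Or.inl ⟨h5, h6.symm, ?_⟩
      have h7 := h5 j
      omega
    · refine Or.inr ⟨h5, h6, ?_⟩
      rw [h6]
      exact hjo _ h5
    · omega
  have huniq : ∀ j k j', e j j' = true → e k j' = true → j = k := by
    intro j k j' h1 h2
    rcases hkey j j' h1 with ⟨h3, h4, h5⟩ | ⟨h3, h4, h5⟩
    · rcases hkey k j' h2 with ⟨h6, h7, h8⟩ | ⟨h6, h7, h8⟩
      · exact hc.inj _ h3 j k (by omega) (by omega) (h4.trans h7.symm)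
      · exact absurd h3 h6
    · rcases hkey k j' h2 with ⟨h6, h7, h8⟩ | ⟨h6, h7, h8⟩
      · exact absurd h6 h3
      · exact h4.trans h7.symm
  have hsum : ∀ j', x j' = ∑ j, x j * (if e j j' = true then (D (z j') j : ℝ) else 0) := by
    intro j'
    have h1 := congrFun hx j'
    rw [Matrix.vecMul, Pi.zero_apply] at h1
    have h2 : ∑ j, x j * ((if j = j' then (1 : ℝ) else 0) -
        (if e j j' = true then (D (z j') j : ℝ) else 0)) = 0 := h1
    simp only [mul_sub, Finset.sum_sub_distrib, mul_ite, mul_one, mul_zero,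
      Finset.sum_ite_eq', Finset.mem_univ, if_true] at h2
    rw [sub_eq_zero] at h2
    rw [h2]
    refine Finset.sum_congr rfl fun j _ => ?_
    by_cases h : e j j' = true
    · rw [if_pos h, if_pos h]
    · rw [if_neg h, if_neg h, mul_zero]
  have hx1 : ∀ j j', e j j' = true → x j' = x j * (D (z j') j : ℝ) := by
    intro j j' h
    rw [hsum j', Finset.sum_eq_single j]
    · rw [if_pos h]
    · intro k _ hk
      rw [if_neg fun h' => hk (huniq k j j' h' h), mul_zero]
    · intro h'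
      exact absurd (Finset.mem_univ j) h'
  have hx2 : ∀ j', x j' ≠ 0 → ∃ j, e j j' = true := by
    intro j' h
    by_contra hcon
    push Not at hcon
    apply h
    rw [hsum j']
    refine Finset.sum_eq_zero fun j _ => ?_
    rw [if_neg (hcon j), mul_zero]
  obtain ⟨j₀, hj₀⟩ := Function.ne_iff.1 hx0
  obtain ⟨j₁, hj₁, hmin⟩ := Finset.exists_min_image (Finset.univ.filter fun j => x j ≠ 0)
    (fun j => |x j|) ⟨j₀, Finset.mem_filter.2 ⟨Finset.mem_univ _, hj₀⟩⟩
  have hJ : ∀ j' ∈ {j | x j ≠ 0 ∧ ∀ k, x k ≠ 0 → |x j| ≤ |x k|}, ∃ j,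
      j ∈ {j | x j ≠ 0 ∧ ∀ k, x k ≠ 0 → |x j| ≤ |x k|} ∧ IsOnes D (z j') ∧ nx (z j') j = j' ∧
        D (z j') j ≠ 0 := by
    rintro j' ⟨h1, h2⟩
    obtain ⟨j, hj⟩ := hx2 j' h1
    have h3 := hx1 j j' hj
    have h4 : x j ≠ 0 := by
      intro h
      rw [h, zero_mul] at h3
      exact h1 h3
    have h5 := h2 j h4
    have h6 : |x j'| = |x j| * (D (z j') j : ℝ) := by
      rw [h3, abs_mul, Nat.abs_cast]
    have h7 : 0 < |x j| := abs_pos.2 h4
    rcases hkey j j' hj with ⟨h8, h9, h10⟩ | ⟨h8, h9, h10⟩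
    · refine ⟨j, ⟨h4, fun k hk => ?_⟩, h8, h9, by omega⟩
      have h11 : |x j| = |x j'| := by
        rw [h6, h10, Nat.cast_one, mul_one]
      rw [h11]
      exact h2 k hk
    · exfalso
      have h11 : (2 : ℝ) ≤ (D (z j') j : ℝ) := by exact_mod_cast h10
      nlinarith
  have : Nonempty κ := ⟨j₀⟩
  choose! φ hφ using hJ
  refine cyc_contra H hc hz0 hz _ (φ := φ) hφ (j₀ := j₁) ⟨(Finset.mem_filter.1 hj₁).2,
    fun k hk => hmin k (Finset.mem_filter.2 ⟨Finset.mem_univ _, hk⟩)⟩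

end Pool.Agent.H2.PK
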