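import Pool.Agent.H2.PK.Flow

/-!
# Regular matrices: two equations

`reg_two`: see `isReg_two` in `Pool.Agent.H99.PI.EReg`. If `e 0 0` holds then `2 ≤ D (z 0) 0`: otherwise the row `i = z 0`
is a row of ones with `nx i 0 = 0`, so its support is `{0}` (`IsCyc.trans`), its sum is `1`, and it is exhausted. If
`z 0 = z 1 = i`, `e 0 1`, `e 1 0` then `D i 0 * D i 1 ≠ 1`, since otherwise the row `i` is exhausted.
-/

set_option linter.unusedSectionVars false

open Matrix

namespace Pool.Agent.H2.PK

open Pool.Agent.H99.PI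

variable {σ κ : Type} [Fintype σ] [Fintype κ] [DecidableEq σ] [DecidableEq κ]

theorem reg_two {D : σ → Fin 2 → ℕ}
    (h1 : ∀ a b, a ≠ b → D a 0 ≠ 0 → D b 1 ≠ 0 → D b 0 * D a 1 ≠ 1)
    (h2 : ∀ a b, a ≠ b → 2 ≤ D a 0 → 2 ≤ D b 1 → (D a 0 - 1) * (D b 1 - 1) ≠ D b 0 * D a 1)
    {nx : σ → Fin 2 → Fin 2} (hc : IsCyc D nx) :
    IsRegS D (S1 D nx) fun _ _ => False := by
  intro z e hD hcard he hz
  have hd : ∀ j : Fin 2, e j j = true → 2 ≤ D (z j) j := by
    intro j hj
    obtain ⟨⟨h3, h4⟩, -, -⟩ := he j j hj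
    rcases h4 with ⟨h5, h6⟩ | ⟨-, h5⟩
    · exfalso
      refine exhausted hc h5 (hcard (z j)) (J := {j}) ⟨j, rfl, h3⟩ ?_ ?_
      · rintro j' rfl _
        exact h6.symm
      · rintro j' rfl
        rfl
    · exact h5.elim id id
  rw [Matrix.det_fin_two]
  simp only [Matrix.of_apply, if_true]
  rw [if_neg (by decide : ¬ (0 : Fin 2) = 1), if_neg (by decide : ¬ (1 : Fin 2) = 0)]
  have hf : ∀ j : Fin 2, (1 - (if e j j = true then (D (z j) j : ℝ) else 0)) ≠ 0 := by
    intro j
    by_cases h : e j j = true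
    · rw [if_pos h]
      have h3 : (2 : ℝ) ≤ (D (z j) j : ℝ) := by exact_mod_cast hd j h
      intro h4
      linarith
    · rw [if_neg h]
      norm_num
  by_cases h01 : e 0 1 = true
  swap
  · rw [if_neg h01]
    have := mul_ne_zero (hf 0) (hf 1)
    simpa using this
  by_cases h10 : e 1 0 = true
  swap
  · rw [if_neg h10]
    have := mul_ne_zero (hf 0) (hf 1)
    simpa using this
  rw [if_pos h01, if_pos h10]
  by_cases hab : z 0 = z 1
  · have h00 : ¬ e 0 0 = true := fun h => by
      have := hz 0 0 1 h h01 hab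
      exact absurd this (by decide)
    have h11 : ¬ e 1 1 = true := fun h => by
      have := hz 1 0 1 h10 h hab
      exact absurd this (by decide)
    rw [if_neg h00, if_neg h11, hab]
    intro h3
    have h4 : ((D (z 1) 0 * D (z 1) 1 : ℕ) : ℝ) = ((1 : ℕ) : ℝ) := by
      push_cast
      linarith
    have h5 : D (z 1) 0 * D (z 1) 1 = 1 := by exact_mod_cast h4
    have h6 := Nat.eq_one_of_mul_eq_one_right h5
    have h7 := Nat.eq_one_of_mul_eq_one_left h5
    have h8 : IsOnes D (z 1) := by
      intro j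
      fin_cases j
      · exact h6.le
      · exact h7.le
    refine exhausted hc h8 (hcard (z 1)) (J := Set.univ) ⟨1, trivial, hD 1⟩
      (fun _ _ _ => trivial) ?_
    intro j _
    fin_cases j
    · exact hab
    · rfl
  · have k1 := h1 _ _ hab (hD 0) (hD 1)
    have hp : (0 : ℝ) ≤ (D (z 1) 0 : ℝ) * (D (z 0) 1 : ℝ) := by positivity
    by_cases h00 : e 0 0 = true
    · have ha := hd 0 h00
      have ha' : (2 : ℝ) ≤ (D (z 0) 0 : ℝ) := by exact_mod_cast ha
      by_cases h11 : e 1 1 = true
      · have hb := hd 1 h11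
        have k2 := h2 _ _ hab ha hb
        rw [if_pos h00, if_pos h11]
        intro h3
        apply k2
        have h4 : (((D (z 0) 0 - 1) * (D (z 1) 1 - 1) : ℕ) : ℝ) =
            ((D (z 1) 0 * D (z 0) 1 : ℕ) : ℝ) := by
          push_cast [Nat.cast_sub (by omega : 1 ≤ D (z 0) 0),
            Nat.cast_sub (by omega : 1 ≤ D (z 1) 1)]
          linarith
        exact_mod_cast h4
      · rw [if_pos h00, if_neg h11]
        intro h3
        nlinarith
    · by_cases h11 : e 1 1 = true
      · have hb := hd 1 h11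
        have hb' : (2 : ℝ) ≤ (D (z 1) 1 : ℝ) := by exact_mod_cast hb
        rw [if_neg h00, if_pos h11]
        intro h3
        nlinarith
      · rw [if_neg h00, if_neg h11]
        intro h3
        apply k1
        have h4 : ((D (z 1) 0 * D (z 0) 1 : ℕ) : ℝ) = ((1 : ℕ) : ℝ) := by
          push_cast
          linarith
        exact_mod_cast h4

end Pool.Agent.H2.PK
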