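import Pool.Agent.H2.PK.Wt

/-!
# Weights of the columns of a forest

`wt_forest`: let `a`, `b` be the heights of the
forest. By induction on `n` there is a `ρ : κ → ℤ` which satisfies the conditions of `wt_of_rank` for all rows with
`a i < n` (with a choice of `jo i`). Step: change `ρ` only on the columns `j` with a neighbour `i` with `a i = n < b j`
(this neighbour is unique, and all other neighbours of `j` have a larger height). For a row `i` of ones with `a i = n`
give all these columns the value of its lower neighbour (if there is one). For another row with a lower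
neighbour `j₁`: if `D i j₁ ≥ 2` take `jo i = j₁` and give all upper columns the value `ρ j₁ - 1`; if `D i j₁ = 1` take
for `jo i` any column with `D i j ≥ 2`, give it the value `ρ j₁ + 1` and the others `ρ j₁`. Without lower neighbour:
`jo i` any column with `D i j ≥ 2`, value `1`, the others `0`.
-/

set_option linter.unusedSectionVars false

open Matrix

namespace Pool.Agent.H2.PK

open Pool.Agent.H99.PI

variable {σ κ : Type} [Fintype σ] [Fintype κ] [DecidableEq σ] [DecidableEq κ]

omit [Fintype σ] [Fintype κ] [DecidableEq σ] in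
/-- The values on the columns of one row, the values on the lower columns are given. -/
private theorem wt_local {D : σ → κ → ℕ} [Nonempty κ] (b : κ → ℕ) (n : ℕ) (ρ : κ → ℤ) (i : σ)
    (hr : ∀ j j', D i j ≠ 0 → D i j' ≠ 0 → b j < n → b j' < n → j = j') :
    ∃ (f : κ → ℤ) (j₀ : κ), (∀ j, D i j ≠ 0 → b j < n → f j = ρ j) ∧
      (¬ IsOnes D i → 2 ≤ D i j₀ ∧ ∀ j, D i j = 1 → f j < f j₀) ∧
      (IsOnes D i → ∀ j j', D i j ≠ 0 → D i j' ≠ 0 → f j = f j') := by
  by_cases hl : ∃ j₁, D i j₁ ≠ 0 ∧ b j₁ < n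
  · obtain ⟨j₁, hj₁, hb₁⟩ := hl
    by_cases ho : IsOnes D i
    · refine ⟨fun _ => ρ j₁, j₁, fun j hj hb => ?_, fun h => absurd ho h, fun _ j j' _ _ => rfl⟩
      rw [hr j j₁ hj hj₁ hb hb₁]
    · by_cases h2 : 2 ≤ D i j₁
      · refine ⟨fun j => if j = j₁ then ρ j₁ else ρ j₁ - 1, j₁, fun j hj hb => ?_,
          fun _ => ⟨h2, fun j hj => ?_⟩, fun h => absurd h ho⟩
        · have h3 := hr j j₁ hj hj₁ hb hb₁
          simp [h3]
        · have h3 : j ≠ j₁ := by
            rintro rfl
            omega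
          simp [h3]
      · obtain ⟨j₂, hj₂⟩ : ∃ j₂, 2 ≤ D i j₂ := by
          by_contra hcon
          push Not at hcon
          exact ho fun j => by
            have := hcon j
            omega
        have h21 : j₁ ≠ j₂ := by
          rintro rfl
          exact h2 hj₂
        refine ⟨fun j => if j = j₂ then ρ j₁ + 1 else ρ j₁, j₂, fun j hj hb => ?_,
          fun _ => ⟨hj₂, fun j hj => ?_⟩, fun h => absurd h ho⟩
        · have h3 := hr j j₁ hj hj₁ hb hb₁
          simp [h3, h21]
        · have h3 : j ≠ j₂ := by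
            rintro rfl
            omega
          simp [h3]
  · push Not at hl
    by_cases ho : IsOnes D i
    · refine ⟨fun _ => 0, Classical.arbitrary κ, fun j hj hb => ?_, fun h => absurd ho h,
        fun _ j j' _ _ => rfl⟩
      have := hl j hj
      omega
    · obtain ⟨j₂, hj₂⟩ : ∃ j₂, 2 ≤ D i j₂ := by
        by_contra hcon
        push Not at hcon
        exact ho fun j => by
          have := hcon j
          omega
      refine ⟨fun j => if j = j₂ then 1 else 0, j₂, fun j hj hb => ?_,
        fun _ => ⟨hj₂, fun j hj => ?_⟩, fun h => absurd h ho⟩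
      · have := hl j hj
        omega
      · have h3 : j ≠ j₂ := by
          rintro rfl
          omega
        simp [h3]

omit [Fintype σ] [Fintype κ] [DecidableEq σ] in
private theorem wt_rank {D : σ → κ → ℕ} [Nonempty κ] {a : σ → ℕ} {b : κ → ℕ}
    (h0 : ∀ i j, D i j ≠ 0 → a i ≠ b j)
    (hr : ∀ i j j', D i j ≠ 0 → D i j' ≠ 0 → b j < a i → b j' < a i → j = j')
    (hc : ∀ j i i', D i j ≠ 0 → D i' j ≠ 0 → a i < b j → a i' < b j → i = i') (n : ℕ) :
    ∃ (ρ : κ → ℤ) (jo : σ → κ), ∀ i, a i < n →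
      (¬ IsOnes D i → 2 ≤ D i (jo i) ∧ ∀ j, D i j = 1 → ρ j < ρ (jo i)) ∧
      (IsOnes D i → ∀ j j', D i j ≠ 0 → D i j' ≠ 0 → ρ j = ρ j') := by
  classical
  induction n with
  | zero =>
    exact ⟨fun _ => 0, fun _ => Classical.arbitrary κ, fun i hi => absurd hi (Nat.not_lt_zero _)⟩
  | succ n ih =>
    obtain ⟨ρ, jo, h⟩ := ih
    have hloc : ∀ i : σ, ∃ (f : κ → ℤ) (j₀ : κ), a i = n →
        (∀ j, D i j ≠ 0 → b j < n → f j = ρ j) ∧
        (¬ IsOnes D i → 2 ≤ D i j₀ ∧ ∀ j, D i j = 1 → f j < f j₀) ∧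
        (IsOnes D i → ∀ j j', D i j ≠ 0 → D i j' ≠ 0 → f j = f j') := by
      intro i
      by_cases hi : a i = n
      · obtain ⟨f, j₀, h1⟩ := wt_local (D := D) b n ρ i fun j j' hj hj' hb hb' =>
          hr i j j' hj hj' (hi ▸ hb) (hi ▸ hb')
        exact ⟨f, j₀, fun _ => h1⟩
      · exact ⟨fun _ => 0, Classical.arbitrary κ, fun h1 => absurd h1 hi⟩
    choose f j₀ hf using hloc
    let ρ' : κ → ℤ := fun j =>
      if hh : ∃ i, D i j ≠ 0 ∧ a i = n ∧ n < b j then f hh.choose j else ρ j
    have hnew : ∀ i, a i = n → ∀ j, D i j ≠ 0 → ρ' j = f i j := by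
      intro i hi j hj
      by_cases hh : ∃ i, D i j ≠ 0 ∧ a i = n ∧ n < b j
      · have h1 : ρ' j = f hh.choose j := dif_pos hh
        obtain ⟨h2, h3, h4⟩ := hh.choose_spec
        have h5 : hh.choose = i := hc j _ _ h2 hj (by omega) (by omega)
        rw [h1, h5]
      · have h1 : ρ' j = ρ j := dif_neg hh
        have h2 := h0 i j hj
        have h3 : b j < n := by
          by_contra h4
          exact hh ⟨i, hj, hi, by omega⟩
        rw [h1, (hf i hi).1 j hj h3]
    have hold : ∀ i, a i < n → ∀ j, D i j ≠ 0 → ρ' j = ρ j := by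
      intro i hi j hj
      refine dif_neg ?_
      rintro ⟨i', h2, h3, h4⟩
      have h5 : i' = i := hc j _ _ h2 hj (by omega) (by omega)
      subst h5
      omega
    refine ⟨ρ', fun i => if a i = n then j₀ i else jo i, fun i hi => ?_⟩
    rcases Nat.lt_or_ge (a i) n with hlt | hge
    · have hjo : (fun i => if a i = n then j₀ i else jo i) i = jo i := if_neg (by omega)
      rw [hjo]
      obtain ⟨h1, h2⟩ := h i hlt
      refine ⟨fun ho => ?_, fun ho j j' hj hj' => ?_⟩
      · obtain ⟨h3, h4⟩ := h1 ho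
        refine ⟨h3, fun j hj => ?_⟩
        rw [hold i hlt j (by omega), hold i hlt _ (by omega)]
        exact h4 j hj
      · rw [hold i hlt j hj, hold i hlt j' hj']
        exact h2 ho j j' hj hj'
    · have hin : a i = n := by omega
      have hjo : (fun i => if a i = n then j₀ i else jo i) i = j₀ i := if_pos hin
      rw [hjo]
      obtain ⟨_, h1, h2⟩ := hf i hin
      refine ⟨fun ho => ?_, fun ho j j' hj hj' => ?_⟩
      · obtain ⟨h3, h4⟩ := h1 ho
        refine ⟨h3, fun j hj => ?_⟩
        rw [hnew i hin j (by omega), hnew i hin _ (by omega)]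
        exact h4 j hj
      · rw [hnew i hin j hj, hnew i hin j' hj']
        exact h2 ho j j' hj hj'

theorem wt_forest {D : σ → κ → ℕ} [Nonempty κ] (H : IsForest D) : ∃ jo μ, IsWt D jo μ := by
  obtain ⟨a, b, h0, hr, hc⟩ := H
  obtain ⟨ρ, jo, h⟩ := wt_rank h0 hr hc (∑ i, a i + 1)
  have ha : ∀ i, a i < ∑ i, a i + 1 := fun i =>
    Nat.lt_succ_of_le (Finset.single_le_sum (f := a) (fun _ _ => Nat.zero_le _)
      (Finset.mem_univ i))
  exact ⟨jo, wt_of_rank ρ (fun i => (h i (ha i)).1) fun i => (h i (ha i)).2⟩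

end Pool.Agent.H2.PK
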