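import Pool.Agent.H2.PK.FlowEx
import Pool.Agent.H2.PK.RegF
import Pool.Agent.H2.PK.RegD
import Pool.Agent.H2.PK.RegS
import Pool.Agent.H2.PK.RegT
import Pool.Agent.H2.PK.WtF

/-!
# Families of regular matrices
-/

set_option linter.unusedSectionVars false

open Matrix

namespace Pool.Agent.H2.PK

open Pool.Agent.H99.SYZ Pool.Agent.H55.CI Pool.Agent.H2.CI Pool.Agent.H99.ON Pool.Agent.H99.PI

variable {σ κ : Type} [Fintype σ] [Fintype κ] [DecidableEq σ] [DecidableEq κ]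

/-- The recession cones of the polytopes of the allowed powers are zero. -/
def IsRec (D : σ → κ → ℕ) (S : σ → κ → κ → Prop) : Prop :=
  ∀ (ι : Type) [Fintype ι] [DecidableEq ι] (f : ι → σ) (part : ι ⊕ σ → κ), cdeg f part = D →
    ∀ n : ι → ℝ, (∀ p ∈ un (sP f part S), n ⬝ᵥ p ≤ 0) → n = 0

/-- Ranks of the columns for a common divisor `l`. -/
structure IsRk (D : σ → κ → ℕ) (l : ℕ) (ρ : κ → ℕ) : Prop where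
  two : 2 ≤ l
  ones : ∀ i, IsOnes D i → ∀ j j', D i j ≠ 0 → D i j' ≠ 0 → ρ j = ρ j'
  top : ∀ i, ¬ IsOnes D i → ∃ o, D i o ≠ 0 ∧ l ∣ D i o ∧ ∀ j, ¬ l ∣ D i j → ρ j < ρ o

private theorem isRec_of {D : σ → κ → ℕ} (hF : IsForest (onesM D)) {nx : σ → κ → κ}
    (hc : IsCyc D nx) {S : σ → κ → κ → Prop} {jo : σ → κ} {Lo : σ → κ → Prop} {μ : κ → ℝ}
    (hμ : IsWtL D jo Lo μ)
    (hS : ∀ i j j', D i j ≠ 0 → D i j' ≠ 0 → S7 D nx jo Lo i j j' → S i j j') : IsRec D S := by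
  intro ι _ _ f part hD n hn
  subst hD
  exact rec_wtL hF hc hμ hS hn

private theorem S7_S1 {D : σ → κ → ℕ} {nx : σ → κ → κ} {jo : σ → κ} {μ : κ → ℝ}
    (hμ : IsWt D jo μ) (i : σ) (j j' : κ) (hj : D i j ≠ 0)
    (h : S7 D nx jo (fun i j => D i j = 1) i j j') : S1 D nx i j j' := by
  obtain ⟨h0, ⟨h1, h2⟩ | ⟨h1, h2 | h2 | ⟨h2, h3⟩⟩⟩ := h
  · exact ⟨h0, Or.inl ⟨h1, h2⟩⟩
  · exact ⟨h0, Or.inr ⟨h1, Or.inl (h2 ▸ hμ.two i h1)⟩⟩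
  · exact ⟨h0, Or.inr ⟨h1, Or.inr (h2 ▸ hμ.two i h1)⟩⟩
  · refine ⟨h0, Or.inr ⟨h1, Or.inl ?_⟩⟩
    have h4 : ¬ D i j = 1 := h2
    omega

private theorem S7_S2 {D : σ → κ → ℕ} {nx : σ → κ → κ} {jo : σ → κ} {μ : κ → ℝ}
    (hμ : IsWt D jo μ) (i : σ) (j j' : κ) (hj : D i j ≠ 0)
    (h : S7 D nx jo (fun i j => D i j = 1) i j j') : S2 D nx jo i j j' := by
  obtain ⟨h0, ⟨h1, h2⟩ | ⟨h1, h2 | h2 | ⟨h2, h3⟩⟩⟩ := h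
  · exact ⟨h0, Or.inl ⟨h1, h2⟩⟩
  · exact ⟨h0, Or.inr ⟨h1, Or.inl h2⟩⟩
  · exact ⟨h0, Or.inr ⟨h1, Or.inr (h2 ▸ hμ.two i h1)⟩⟩
  · refine ⟨h0, Or.inr ⟨h1, Or.inr ?_⟩⟩
    have h4 : ¬ D i j = 1 := h2
    subst h3
    omega

/-- Forests. -/
theorem fam_forest [Nonempty κ] {D : σ → κ → ℕ} (H : IsForest D) :
    ∃ S, (IsRegS D S fun _ _ => False) ∧ IsRec D S := by
  obtain ⟨nx, hc⟩ := exists_cyc D
  obtain ⟨jo, μ, hμ⟩ := wt_forest H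
  exact ⟨S1 D nx, reg_forest H hc, isRec_of (onesM_forest H) hc hμ.toL
    fun i j j' hj _ h => S7_S1 hμ i j j' hj h⟩

/-- A common divisor. -/
theorem fam_dvd [Nonempty κ] {D : σ → κ → ℕ} (H : IsForest (onesM D)) {l : ℕ} {ρ : κ → ℕ}
    (hρ : IsRk D l ρ) : ∃ S, (IsRegS D S fun _ _ => False) ∧ IsRec D S := by
  classical
  obtain ⟨nx, hc⟩ := exists_cyc D
  have h1 : ∀ i, ∃ o, ¬ IsOnes D i → D i o ≠ 0 ∧ l ∣ D i o ∧ ∀ j, ¬ l ∣ D i j → ρ j < ρ o := by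
    intro i
    by_cases hi : IsOnes D i
    · exact ⟨Classical.arbitrary κ, fun h => absurd hi h⟩
    · obtain ⟨o, ho⟩ := hρ.top i hi
      exact ⟨o, fun _ => ho⟩
  choose jo hjo using h1
  obtain ⟨μ, hμ⟩ := wtL_of_rank (D := D) (jo := jo) (Lo := fun i j => ¬ l ∣ D i j) (ρ := ρ) hρ.ones
    (fun i hi => ⟨(hjo i hi).1, not_not.2 (hjo i hi).2.1⟩) fun i hi j _ hL => (hjo i hi).2.2 j hL
  refine ⟨S4 D nx l ρ, reg_dvd hρ.two hρ.ones H hc, isRec_of H hc hμ ?_⟩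
  rintro i j j' hj - ⟨h0, ⟨h1, h2⟩ | ⟨h1, h2 | h2 | ⟨h2, h3⟩⟩⟩
  · exact ⟨h0, Or.inl ⟨h1, h2⟩⟩
  · exact ⟨h0, Or.inr ⟨h1, Or.inl (h2 ▸ (hjo i h1).2.1)⟩⟩
  · refine ⟨h0, Or.inr ⟨h1, ?_⟩⟩
    by_cases h3 : l ∣ D i j
    · exact Or.inl h3
    · exact Or.inr (h2 ▸ (hjo i h1).2.2 j h3)
  · exact ⟨h0, Or.inr ⟨h1, Or.inl (not_not.1 h2)⟩⟩

/-- Symmetric blocks. -/
theorem fam_sym {D : σ → κ → ℕ} (H : IsForest (onesM D)) {jo : σ → κ} {μ : κ → ℝ}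
    (hμ : IsWt D jo μ) : ∃ S, (IsRegS D S fun _ _ => True) ∧ IsRec D S := by
  obtain ⟨nx, hc⟩ := exists_cyc D
  exact ⟨S2 D nx jo, reg_sym H hc hμ.two, isRec_of H hc hμ.toL
    fun i j j' hj _ h => S7_S2 hμ i j j' hj h⟩

/-- Two equations. -/
theorem fam_two {D : σ → Fin 2 → ℕ} (h1 : ∀ a b, a ≠ b → D a 0 ≠ 0 → D b 1 ≠ 0 → D b 0 * D a 1 ≠ 1)
    (h2 : ∀ a b, a ≠ b → 2 ≤ D a 0 → 2 ≤ D b 1 → (D a 0 - 1) * (D b 1 - 1) ≠ D b 0 * D a 1)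
    (hr : ∀ i, 2 ≤ ∑ j, D i j) : ∃ S, (IsRegS D S fun _ _ => False) ∧ IsRec D S := by
  obtain ⟨nx, hc⟩ := exists_cyc D
  obtain ⟨hF, jo, μ, hμ⟩ := wt_two h1 hr
  exact ⟨S1 D nx, reg_two h1 h2 hc, isRec_of hF hc hμ.toL
    fun i j j' hj _ h => S7_S1 hμ i j j' hj h⟩

end Pool.Agent.H2.PK
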