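import Pool.Agent.H2.PK.Defs

/-!
# Forests, flows and cyclic permutations

`flow_zero`: suppose `x i j ≠ 0` for some edge. Among all vertices (rows and columns) with a nonzero edge take one of
maximal height (`a i` or `b j`). The other ends of its nonzero edges have smaller height (adjacent heights are
different), so there is exactly one nonzero edge at this vertex (at most one neighbour of smaller height), and the sum
at this vertex is not zero. `exists_cyc`: `Finset.exists_cycleOn` for the support of the row (`Equiv.Perm.IsCycleOn`),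
or take the next element in a list. `exhausted`: all `j` in the support of the row `i` have `z j = i`, and the row sum
is the number of elements of the support.
-/

set_option linter.unusedSectionVars false

open Matrix

namespace Pool.Agent.H2.PK

open Pool.Agent.H99.PI

variable {σ κ : Type} [Fintype σ] [Fintype κ] [DecidableEq σ] [DecidableEq κ]

/-- the vertex of maximal height with a nonzero edge -/
private theorem flow_top {D : σ → κ → ℕ} {a : σ → ℕ} {b : κ → ℕ} (h0 : ∀ i j, D i j ≠ 0 → a i ≠ b j)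
    (h1 : ∀ i j j', D i j ≠ 0 → D i j' ≠ 0 → b j < a i → b j' < a i → j = j')
    (h2 : ∀ j i i', D i j ≠ 0 → D i' j ≠ 0 → a i < b j → a i' < b j → i = i')
    {x : σ → κ → ℝ} (hx : ∀ i j, D i j = 0 → x i j = 0) (hr : ∀ i, ∑ j, x i j = 0)
    (hc : ∀ j, ∑ i, x i j = 0) (i : σ) (j : κ) (hij : x i j ≠ 0)
    (hmax : ∀ i' j', x i' j' ≠ 0 → a i' ≤ max (a i) (b j) ∧ b j' ≤ max (a i) (b j)) : False := by
  have hD : ∀ i j, x i j ≠ 0 → D i j ≠ 0 := fun i j h h0 => h (hx i j h0)
  rcases lt_or_gt_of_ne (h0 i j (hD i j hij)) with hlt | hlt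
  · rw [max_eq_right hlt.le] at hmax
    have h3 := hc j
    rw [Finset.sum_eq_single i] at h3
    · exact hij h3
    · intro i' _ hne
      by_contra hx'
      have h4 := (hmax i' j hx').1
      have h5 := h0 i' j (hD i' j hx')
      exact hne (h2 j i' i (hD _ _ hx') (hD _ _ hij) (lt_of_le_of_ne h4 h5) hlt)
    · intro h
      exact absurd (Finset.mem_univ _) h
  · rw [max_eq_left hlt.le] at hmax
    have h3 := hr i
    rw [Finset.sum_eq_single j] at h3
    · exact hij h3
    · intro j' _ hne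
      by_contra hx'
      have h4 := (hmax i j' hx').2
      have h5 := h0 i j' (hD i j' hx')
      exact hne (h1 i j' j (hD _ _ hx') (hD _ _ hij) (lt_of_le_of_ne h4 (Ne.symm h5)) hlt)
    · intro h
      exact absurd (Finset.mem_univ _) h

/-- A function on the edges of a forest with zero sum at every vertex is zero. -/
theorem flow_zero {D : σ → κ → ℕ} (H : IsForest D) {x : σ → κ → ℝ}
    (hx : ∀ i j, D i j = 0 → x i j = 0) (hr : ∀ i, ∑ j, x i j = 0) (hc : ∀ j, ∑ i, x i j = 0)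
    (i : σ) (j : κ) : x i j = 0 := by
  obtain ⟨a, b, h0, h1, h2⟩ := H
  by_contra hij
  obtain ⟨w, hw, hmax⟩ := Finset.exists_max_image
    (Finset.univ.filter fun w : σ × κ => x w.1 w.2 ≠ 0) (fun w => max (a w.1) (b w.2))
    ⟨(i, j), Finset.mem_filter.2 ⟨Finset.mem_univ _, hij⟩⟩
  rw [Finset.mem_filter] at hw
  refine flow_top h0 h1 h2 hx hr hc w.1 w.2 hw.2 fun i' j' h' => ?_
  have h3 := hmax (i', j') (Finset.mem_filter.2 ⟨Finset.mem_univ _, h'⟩)
  exact ⟨(le_max_left _ _).trans h3, (le_max_right _ _).trans h3⟩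

theorem exists_cyc (D : σ → κ → ℕ) : ∃ nx : σ → κ → κ, IsCyc D nx := by
  have h : ∀ i : σ, ∃ f : Equiv.Perm κ, f.IsCycleOn ((Finset.univ.filter fun j => D i j ≠ 0 : Finset κ) : Set κ) ∧
      f.support ⊆ Finset.univ.filter fun j => D i j ≠ 0 := fun i => Finset.exists_cycleOn _
  choose f hf _ using h
  have hmem : ∀ i j, j ∈ ((Finset.univ.filter fun j => D i j ≠ 0 : Finset κ) : Set κ) ↔ D i j ≠ 0 := by
    intro i j
    simp
  refine ⟨fun i j => f i j, fun i _ j hj => ?_, fun i _ j j' _ _ hjj => (f i).injective hjj,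
    fun i _ J hJ hJn j hj => ?_⟩
  · exact (hmem i _).1 ((hf i).1.mapsTo ((hmem i j).2 hj))
  · obtain ⟨j₀, hj₀, hD₀⟩ := hJ
    have hpow : ∀ n : ℕ, ((f i) ^ n) j₀ ∈ J ∧ D i (((f i) ^ n) j₀) ≠ 0 := by
      intro n
      induction n with
      | zero => exact ⟨hj₀, hD₀⟩
      | succ n ih =>
        rw [pow_succ', Equiv.Perm.mul_apply]
        exact ⟨hJn _ ih.1 ih.2, (hmem i _).1 ((hf i).1.mapsTo ((hmem i _).2 ih.2))⟩
    obtain ⟨n, -, hn⟩ := (hf i).exists_pow_eq ((hmem i j₀).2 hD₀) ((hmem i j).2 hj)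
    rw [← hn]
    exact (hpow n).1

/-- A set of columns which is closed under `nx i` and chooses the row `i` exhausts the row `i`. -/
theorem exhausted {D : σ → κ → ℕ} {nx : σ → κ → κ} (H : IsCyc D nx) {i : σ} (hi : IsOnes D i)
    {z : κ → σ} (hz : (Finset.univ.filter fun j => z j = i).card < ∑ j, D i j) {J : Set κ}
    (hJ : ∃ j ∈ J, D i j ≠ 0) (hJn : ∀ j ∈ J, D i j ≠ 0 → nx i j ∈ J)
    (hJz : ∀ j ∈ J, z j = i) : False := by
  have h1 := H.trans i hi J hJ hJn
  have h2 : ∑ j, D i j ≤ (Finset.univ.filter fun j => z j = i).card := by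
    rw [Finset.card_filter]
    refine Finset.sum_le_sum fun j _ => ?_
    by_cases hj : D i j = 0
    · rw [hj]
      exact Nat.zero_le _
    · rw [if_pos (hJz j (h1 j hj))]
      exact hi j
  omega

/-- The combinatorial claim. -/
theorem exists_row {σ κ : Type} {D : σ → κ → ℕ} (H : IsForest D) (z : κ → σ) (S : Finset σ)
    (hS : S.Nonempty) :
    ∃ i ∈ S, ∀ j, z j = i → D i j ≠ 0 → ∀ i' ∈ S, i' ≠ i → D i' j = 0 := by
  obtain ⟨a, b, h0, hr, hc⟩ := H
  by_contra hcon
  push Not at hcon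
  by_cases hA : ∃ i ∈ S, ∃ j, z j = i ∧ D i j ≠ 0 ∧ (∃ i' ∈ S, i' ≠ i ∧ D i' j ≠ 0) ∧ a i < b j
  · obtain ⟨i₀, hi₀S, hi₀⟩ := hA
    classical
    obtain ⟨i, hi, hmax⟩ := Finset.exists_max_image
      (S.filter fun i => ∃ j, z j = i ∧ D i j ≠ 0 ∧ (∃ i' ∈ S, i' ≠ i ∧ D i' j ≠ 0) ∧ a i < b j) a
      ⟨i₀, Finset.mem_filter.mpr ⟨hi₀S, hi₀⟩⟩
    obtain ⟨hiS, j, hz, hD, ⟨i', hi'S, hne, hD'⟩, hlt⟩ := Finset.mem_filter.mp hi
    have h1 : b j < a i' := by
      rcases lt_trichotomy (a i') (b j) with h | h | h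
      · exact absurd (hc j i' i hD' hD h hlt) hne
      · exact absurd h (h0 i' j hD')
      · exact h
    obtain ⟨j₁, hz₁, hD₁, i'', hi''S, hne'', hD''⟩ := hcon i' hi'S
    have hj : j₁ ≠ j := by
      rintro rfl
      exact hne (hz₁.symm.trans hz)
    have h2 : a i' < b j₁ := by
      rcases lt_trichotomy (a i') (b j₁) with h | h | h
      · exact h
      · exact absurd h (h0 i' j₁ hD₁)
      · exact absurd (hr i' j₁ j hD₁ hD' h h1) hj
    have h3 := hmax i' (Finset.mem_filter.mpr ⟨hi'S, j₁, hz₁, hD₁, ⟨i'', hi''S, hne'', hD''⟩, h2⟩)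
    omega
  · push Not at hA
    obtain ⟨i, hiS, hmin⟩ := Finset.exists_min_image S a hS
    obtain ⟨j, hz, hD, i', hi'S, hne, hD'⟩ := hcon i hiS
    have h1 := hA i hiS j hz hD ⟨i', hi'S, hne, hD'⟩
    have h1' := h0 i j hD
    have h2 := hmin i' hi'S
    obtain ⟨j₁, hz₁, hD₁, i'', hi''S, hne'', hD''⟩ := hcon i' hi'S
    have h3 := hA i' hi'S j₁ hz₁ hD₁ ⟨i'', hi''S, hne'', hD''⟩
    have h3' := h0 i' j₁ hD₁
    have h4 : j₁ = j := hr i' j₁ j hD₁ hD' (by omega) (by omega)
    subst h4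
    exact hne (hz₁.symm.trans hz)

end Pool.Agent.H2.PK
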