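import Pool.Agent.H2.PK.Flow

/-!
# Weights of the columns

`wt_of_rank`: `μ j = (card κ + 2) ^ ρ j` (zpow or a shift of `ρ`).
-/

set_option linter.unusedSectionVars false

open Matrix

namespace Pool.Agent.H2.PK

open Pool.Agent.H99.PI

variable {σ κ : Type} [Fintype σ] [Fintype κ] [DecidableEq σ] [DecidableEq κ]

theorem wt_of_rank {D : σ → κ → ℕ} {jo : σ → κ} (ρ : κ → ℤ)
    (h1 : ∀ i, ¬ IsOnes D i → 2 ≤ D i (jo i) ∧ ∀ j, D i j = 1 → ρ j < ρ (jo i))
    (h2 : ∀ i, IsOnes D i → ∀ j j', D i j ≠ 0 → D i j' ≠ 0 → ρ j = ρ j') :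
    ∃ μ, IsWt D jo μ := by
  have hB : (0 : ℝ) < (Fintype.card κ : ℝ) + 2 := by positivity
  have hB1 : (1 : ℝ) ≤ (Fintype.card κ : ℝ) + 2 := by
    have : (0 : ℝ) ≤ (Fintype.card κ : ℝ) := Nat.cast_nonneg _
    linarith
  refine ⟨fun j => ((Fintype.card κ : ℝ) + 2) ^ ρ j, fun j => zpow_pos hB _, ?_,
    fun i hi => (h1 i hi).1, ?_⟩
  · intro i hi j j' hj hj'
    show ((Fintype.card κ : ℝ) + 2) ^ ρ j = ((Fintype.card κ : ℝ) + 2) ^ ρ j'
    rw [h2 i hi j j' hj hj']
  · intro i hi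
    obtain ⟨h3, h4⟩ := h1 i hi
    have hμ : (0 : ℝ) < ((Fintype.card κ : ℝ) + 2) ^ (ρ (jo i) - 1) := zpow_pos hB _
    have e : ((Fintype.card κ : ℝ) + 2) ^ (ρ (jo i)) =
        ((Fintype.card κ : ℝ) + 2) ^ (ρ (jo i) - 1) * ((Fintype.card κ : ℝ) + 2) := by
      rw [← zpow_add_one₀ hB.ne', sub_add_cancel]
    have h5 : ∑ j, (if D i j = 1 then ((Fintype.card κ : ℝ) + 2) ^ ρ j else 0) ≤
        ∑ _j : κ, ((Fintype.card κ : ℝ) + 2) ^ (ρ (jo i) - 1) := by
      refine Finset.sum_le_sum fun j _ => ?_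
      by_cases hj : D i j = 1
      · rw [if_pos hj]
        have h6 := h4 j hj
        exact zpow_le_zpow_right₀ hB1 (by omega)
      · rw [if_neg hj]
        exact hμ.le
    rw [Finset.sum_const, Finset.card_univ, nsmul_eq_mul] at h5
    have h6 : (2 : ℝ) ≤ (D i (jo i) : ℝ) := by exact_mod_cast h3
    show ∑ j, (if D i j = 1 then ((Fintype.card κ : ℝ) + 2) ^ ρ j else 0) <
      (D i (jo i) : ℝ) * ((Fintype.card κ : ℝ) + 2) ^ (ρ (jo i))
    have h7 : ((Fintype.card κ : ℝ) + 2) ^ (ρ (jo i)) ≤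
        (D i (jo i) : ℝ) * ((Fintype.card κ : ℝ) + 2) ^ (ρ (jo i)) := by
      have : (0 : ℝ) < ((Fintype.card κ : ℝ) + 2) ^ (ρ (jo i)) := zpow_pos hB _
      nlinarith
    refine lt_of_le_of_lt h5 (lt_of_lt_of_le ?_ h7)
    rw [e]
    nlinarith

theorem onesM_forest {D : σ → κ → ℕ} (H : IsForest D) : IsForest (onesM D) := by
  obtain ⟨a, b, h0, hr, hc⟩ := H
  have key : ∀ i j, onesM D i j ≠ 0 → D i j ≠ 0 := by
    intro i j h
    unfold onesM at h
    by_cases hi : IsOnes D i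
    · rwa [if_pos hi] at h
    · rw [if_neg hi] at h
      exact absurd rfl h
  exact ⟨a, b, fun i j h => h0 i j (key i j h),
    fun i j j' h h' => hr i j j' (key i j h) (key i j' h'),
    fun j i i' h h' => hc j i i' (key i j h) (key i' j h')⟩

/-- Two rows of ones with two common columns are impossible in `reg_two`. -/
theorem wt_two {D : σ → Fin 2 → ℕ} (h1 : ∀ a b, a ≠ b → D a 0 ≠ 0 → D b 1 ≠ 0 → D b 0 * D a 1 ≠ 1)
    (hr : ∀ i, 2 ≤ ∑ j, D i j) : IsForest (onesM D) ∧ ∃ jo μ, IsWt D jo μ := by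
  have hsum : ∀ i, 2 ≤ D i 0 + D i 1 := by
    intro i
    have := hr i
    rwa [Fin.sum_univ_two] at this
  have hones : ∀ i, IsOnes D i → D i 0 = 1 ∧ D i 1 = 1 := by
    intro i hi
    have a0 := hi 0
    have a1 := hi 1
    have := hsum i
    constructor <;> omega
  have key : ∀ i j, onesM D i j ≠ 0 → IsOnes D i := by
    intro i j h
    unfold onesM at h
    by_contra hi
    rw [if_neg hi] at h
    exact h rfl
  have huniq : ∀ i i', IsOnes D i → IsOnes D i' → i = i' := by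
    intro i i' hi hi'
    by_contra hne
    obtain ⟨a0, a1⟩ := hones i hi
    obtain ⟨b0, b1⟩ := hones i' hi'
    refine h1 i i' hne (by omega) (by omega) ?_
    rw [b0, a1]
  refine ⟨⟨fun _ => 1, fun j => if j = 0 then 0 else 2, ?_, ?_, ?_⟩, ?_⟩
  · intro i j _
    show 1 ≠ (if j = 0 then 0 else 2)
    split_ifs <;> decide
  · intro i j j' _ _ hj hj'
    have e : ∀ j : Fin 2, (if j = 0 then 0 else 2) < 1 → j = 0 := by decide
    rw [e j hj, e j' hj']
  · intro j i i' h h' _ _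
    exact huniq i i' (key i j h) (key i' j h')
  · refine ⟨fun i => if 2 ≤ D i 0 then 0 else 1, fun _ => 1, fun _ => one_pos,
      fun _ _ _ _ _ _ => rfl, ?_, ?_⟩
    · intro i hi
      show 2 ≤ D i (if 2 ≤ D i 0 then 0 else 1)
      by_cases h : 2 ≤ D i 0
      · rw [if_pos h]
        exact h
      · rw [if_neg h]
        by_contra h2
        refine hi ?_
        intro j
        fin_cases j
        · show D i 0 ≤ 1
          omega
        · show D i 1 ≤ 1
          omega
    · intro i hi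
      show ∑ j, (if D i j = 1 then (1 : ℝ) else 0) <
        (D i (if 2 ≤ D i 0 then 0 else 1) : ℝ) * 1
      rw [Fin.sum_univ_two, mul_one]
      by_cases h : 2 ≤ D i 0
      · rw [if_pos h, if_neg (by omega)]
        have h6 : (2 : ℝ) ≤ (D i 0 : ℝ) := by exact_mod_cast h
        split_ifs <;> linarith
      · have h2 : 2 ≤ D i 1 := by
          by_contra h2
          refine hi ?_
          intro j
          fin_cases j
          · show D i 0 ≤ 1
            omega
          · show D i 1 ≤ 1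
            omega
        have h3 : ¬ D i 1 = 1 := by omega
        rw [if_neg h, if_neg h3]
        have h6 : (2 : ℝ) ≤ (D i 1 : ℝ) := by exact_mod_cast h2
        split_ifs <;> linarith

end Pool.Agent.H2.PK
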