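import Pool.Agent.H2.PK.RecG
import Pool.Agent.H2.PK.Wt

/-!
# The certificate for the smallest relation

With `w j = D i j * μ j`, `a j = w j` for low entries and `a j = θ * w j` for the others (`θ > 0` small): the equation
`jo i` sends `a j'` to the block `j'`, the equation `j` sends `a j` to the block `jo i` and `w j - a j` to its own
block.
-/

set_option linter.unusedSectionVars false

open Matrix

namespace Pool.Agent.H2.PK

open Pool.Agent.H99.SYZ Pool.Agent.H55.CI Pool.Agent.H2.CI Pool.Agent.H99.ON Pool.Agent.H99.PI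

section

variable {κ : Type} [Fintype κ] [DecidableEq κ]

/-- One row. -/
private theorem exists_row_flow {w : κ → ℝ} (hw : ∀ j, 0 ≤ w j) {Lo : κ → Prop} {o : κ} (ho : 0 < w o)
    (hLo : ¬ Lo o) (h : ∑ j, (open Classical in if Lo j then w j else 0) < w o) :
    ∃ m : κ → κ → ℝ, (∀ j j', 0 ≤ m j j') ∧ (∀ j, ∑ j', m j j' = w j) ∧
      (∀ j', ∑ j, m j j' = w j') ∧ (∀ j', w j' ≠ 0 → 0 < m o j') ∧
      ∀ j j', m j j' ≠ 0 → w j' ≠ 0 ∧ (j = o ∨ j' = o ∨ (¬ Lo j ∧ j' = j)) := by
  classical
  set L : ℝ := ∑ j, (if Lo j then w j else 0) with hL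
  set R : ℝ := ∑ j, w j with hR
  have hR0 : 0 ≤ R := Finset.sum_nonneg fun j _ => hw j
  have hL' : L < w o := by
    rw [hL]
    exact h
  set s : ℝ := w o - L with hs
  have hs0 : 0 < s := sub_pos.2 hL'
  set θ : ℝ := s / (s + R + 1) with hθ
  have hden : 0 < s + R + 1 := by linarith
  have hθ0 : 0 < θ := div_pos hs0 hden
  have hθ1 : θ ≤ 1 := by
    rw [hθ, div_le_one hden]
    linarith
  have hθR : θ * R < s := by
    rw [hθ, div_mul_eq_mul_div, div_lt_iff₀ hden]
    nlinarith
  set a : κ → ℝ := fun j => if Lo j then w j else θ * w j with ha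
  have ha0 : ∀ j, 0 ≤ a j := by
    intro j
    simp only [ha]
    split_ifs
    · exact hw j
    · exact mul_nonneg hθ0.le (hw j)
  have haw : ∀ j, a j ≤ w j := by
    intro j
    simp only [ha]
    split_ifs
    · exact le_rfl
    · exact mul_le_of_le_one_left (hw j) hθ1
  have ha1 : ∀ j, w j ≠ 0 → 0 < a j := by
    intro j hj
    have h1 : 0 < w j := lt_of_le_of_ne (hw j) (Ne.symm hj)
    simp only [ha]
    split_ifs
    · exact h1
    · exact mul_pos hθ0 h1
  set A : ℝ := ∑ j, (if j = o then 0 else a j) with hA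
  have hAlt : A < w o := by
    have h1 : A ≤ L + θ * R := by
      rw [hA, hL, hR, Finset.mul_sum, ← Finset.sum_add_distrib]
      refine Finset.sum_le_sum fun j _ => ?_
      have := hw j
      have h2 := mul_nonneg hθ0.le (hw j)
      simp only [ha]
      split_ifs <;> linarith
    linarith
  set m : κ → κ → ℝ := fun j j' => if j = o then (if j' = o then w o - A else a j') else
    if j' = o then a j else if j' = j then w j - a j else 0 with hm
  have hsymm : ∀ j j', m j j' = m j' j := by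
    intro j j'
    simp only [hm]
    by_cases h1 : j = o
    · by_cases h2 : j' = o
      · rw [if_pos h1, if_pos h2, if_pos h2, if_pos h1]
      · rw [if_pos h1, if_neg h2, if_neg h2, if_pos h1]
    · by_cases h2 : j' = o
      · rw [if_neg h1, if_pos h2, if_pos h2, if_neg h1]
      · rw [if_neg h1, if_neg h2, if_neg h2, if_neg h1]
        by_cases h3 : j' = j
        · subst h3
          rfl
        · rw [if_neg h3, if_neg (Ne.symm h3)]
  have hrow : ∀ j, ∑ j', m j j' = w j := by
    intro j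
    by_cases h1 : j = o
    · subst h1
      have h2 : ∀ j', m j j' = (if j' = j then w j - A else 0) + (if j' = j then 0 else a j') := by
        intro j'
        simp only [hm, if_true]
        split_ifs <;> ring
      rw [Finset.sum_congr rfl fun j' _ => h2 j', Finset.sum_add_distrib, Finset.sum_ite_eq',
        if_pos (Finset.mem_univ _)]
      rw [hA]
      ring
    · have h2 : ∀ j', m j j' = (if j' = o then a j else 0) + (if j' = j then w j - a j else 0) := by
        intro j'
        simp only [hm, if_neg h1]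
        by_cases h3 : j' = o
        · have h4 : j' ≠ j := fun h => h1 (h.symm.trans h3)
          rw [if_pos h3, if_pos h3, if_neg h4, add_zero]
        · rw [if_neg h3, if_neg h3, zero_add]
      rw [Finset.sum_congr rfl fun j' _ => h2 j', Finset.sum_add_distrib, Finset.sum_ite_eq',
        if_pos (Finset.mem_univ _), Finset.sum_ite_eq', if_pos (Finset.mem_univ _)]
      ring
  refine ⟨m, ?_, hrow, fun j' => ?_, ?_, ?_⟩
  · intro j j'
    simp only [hm]
    have h1 := haw j
    have h2 := ha0 j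
    have h3 := ha0 j'
    split_ifs <;> linarith
  · rw [← hrow j']
    exact Finset.sum_congr rfl fun j _ => hsymm j j'
  · intro j' hj'
    simp only [hm, if_true]
    split_ifs
    · linarith
    · exact ha1 j' hj'
  · intro j j' hne
    simp only [hm] at hne
    by_cases h1 : j = o
    · refine ⟨?_, Or.inl h1⟩
      by_cases h2 : j' = o
      · rw [h2]
        exact ho.ne'
      · rw [if_pos h1, if_neg h2] at hne
        intro h3
        have := haw j'
        have := ha0 j'
        exact hne (by linarith)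
    · by_cases h2 : j' = o
      · refine ⟨?_, Or.inr (Or.inl h2)⟩
        rw [h2]
        exact ho.ne'
      · rw [if_neg h1, if_neg h2] at hne
        by_cases h3 : j' = j
        · rw [if_pos h3] at hne
          refine ⟨fun h4 => ?_, Or.inr (Or.inr ⟨fun h5 => ?_, h3⟩)⟩
          · rw [h3] at h4
            have := haw j
            have := ha0 j
            exact hne (by linarith)
          · apply hne
            simp only [ha, if_pos h5, sub_self]
        · rw [if_neg h3] at hne
          exact absurd rfl hne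

end

variable {σ κ : Type} [Fintype σ] [Fintype κ] [DecidableEq σ] [DecidableEq κ]

theorem exists_flow {D : σ → κ → ℕ} (nx : σ → κ → κ) {jo : σ → κ} {Lo : σ → κ → Prop} {μ : κ → ℝ}
    (H : IsWtL D jo Lo μ) : ∃ m, IsFlow D (S7 D nx jo Lo) nx jo μ m := by
  classical
  have h1 : ∀ i, ∃ m : κ → κ → ℝ, ¬ IsOnes D i → (∀ j j', 0 ≤ m j j') ∧
      (∀ j, ∑ j', m j j' = D i j * μ j) ∧ (∀ j', ∑ j, m j j' = D i j' * μ j') ∧
      (∀ j', D i j' * μ j' ≠ 0 → 0 < m (jo i) j') ∧
      ∀ j j', m j j' ≠ 0 → (D i j' : ℝ) * μ j' ≠ 0 ∧ (j = jo i ∨ j' = jo i ∨ (¬ Lo i j ∧ j' = j)) := by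
    intro i
    by_cases hi : IsOnes D i
    · exact ⟨0, fun h => absurd hi h⟩
    · obtain ⟨h2, h3⟩ := H.low i hi
      have h4 : (0 : ℝ) < (D i (jo i) : ℝ) := by exact_mod_cast Nat.pos_of_ne_zero h2
      obtain ⟨m, hm⟩ := exists_row_flow (w := fun j => (D i j : ℝ) * μ j)
        (fun j => mul_nonneg (Nat.cast_nonneg _) (H.pos j).le) (Lo := Lo i) (o := jo i)
        (mul_pos h4 (H.pos _)) h3 (H.lt i hi)
      exact ⟨m, fun _ => hm⟩
  choose m hm using h1
  refine ⟨m, H.pos, H.const, ?_, fun i hi => (hm i hi).1, ?_, fun i hi => (hm i hi).2.1,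
    fun i hi => (hm i hi).2.2.1, fun i hi j' hj' => (hm i hi).2.2.2.1 j'
      (mul_ne_zero (Nat.cast_ne_zero.2 hj') (H.pos j').ne')⟩
  · intro i hi j j' _ hj'
    constructor
    · rintro ⟨-, h2 | h2⟩
      · exact h2.2
      · exact absurd hi h2.1
    · intro h
      exact ⟨hj', Or.inl ⟨hi, h⟩⟩
  · intro i hi j j' hne
    obtain ⟨h2, h3⟩ := (hm i hi).2.2.2.2 j j' hne
    refine ⟨fun h4 => h2 ?_, Or.inr ⟨hi, h3⟩⟩
    rw [h4, Nat.cast_zero, zero_mul]

/-- The weights for low entries `1`. -/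
theorem IsWt.toL {D : σ → κ → ℕ} {jo : σ → κ} {μ : κ → ℝ} (H : IsWt D jo μ) :
    IsWtL D jo (fun i j => D i j = 1) μ where
  pos := H.pos
  const := H.const
  low := fun i hi => by
    have := H.two i hi
    exact ⟨by omega, by omega⟩
  lt := fun i hi => by
    refine lt_of_eq_of_lt ?_ (H.lt i hi)
    refine Finset.sum_congr rfl fun j _ => ?_
    by_cases h : D i j = 1
    · rw [if_pos h, if_pos h, h, Nat.cast_one, one_mul]
    · rw [if_neg h, if_neg h]

/-- Weights from ranks. -/
theorem wtL_of_rank {D : σ → κ → ℕ} {jo : σ → κ} {Lo : σ → κ → Prop} {ρ : κ → ℕ}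
    (h1 : ∀ i, IsOnes D i → ∀ j j', D i j ≠ 0 → D i j' ≠ 0 → ρ j = ρ j')
    (h2 : ∀ i, ¬ IsOnes D i → D i (jo i) ≠ 0 ∧ ¬ Lo i (jo i))
    (h3 : ∀ i, ¬ IsOnes D i → ∀ j, D i j ≠ 0 → Lo i j → ρ j < ρ (jo i)) :
    ∃ μ, IsWtL D jo Lo μ := by
  classical
  set B : ℝ := 2 + ∑ i, ∑ j, (D i j : ℝ) with hB
  have hB0 : ∀ i, ∑ j, (D i j : ℝ) ≤ B - 2 := by
    intro i
    have h4 := Finset.single_le_sum (f := fun i => ∑ j, (D i j : ℝ))
      (fun i _ => Finset.sum_nonneg fun j _ => Nat.cast_nonneg _) (Finset.mem_univ i)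
    linarith
  have hB2 : 2 ≤ B := by
    have h4 : 0 ≤ ∑ i, ∑ j, (D i j : ℝ) :=
      Finset.sum_nonneg fun i _ => Finset.sum_nonneg fun j _ => Nat.cast_nonneg _
    linarith
  have hBp : 0 < B := by linarith
  refine ⟨fun j => B ^ ρ j, fun j => pow_pos hBp _, fun i hi j j' hj hj' =>
    congrArg (fun r => B ^ r) (h1 i hi j j' hj hj'), h2, fun i hi => ?_⟩
  obtain ⟨h4, h5⟩ := h2 i hi
  have h6 : (1 : ℝ) ≤ (D i (jo i) : ℝ) := by exact_mod_cast Nat.one_le_iff_ne_zero.2 h4
  by_cases h0 : ∃ j, D i j ≠ 0 ∧ Lo i j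
  · obtain ⟨j₀, hj₀, hj₀'⟩ := h0
    have h7 := h3 i hi j₀ hj₀ hj₀'
    obtain ⟨r, hr⟩ : ∃ r, ρ (jo i) = r + 1 := ⟨ρ (jo i) - 1, by omega⟩
    have h8 : ∑ j, (if Lo i j then (D i j : ℝ) * B ^ ρ j else 0) ≤ ∑ j, (D i j : ℝ) * B ^ r := by
      refine Finset.sum_le_sum fun j _ => ?_
      have h9 : 0 ≤ (D i j : ℝ) * B ^ r := mul_nonneg (Nat.cast_nonneg _) (pow_pos hBp _).le
      by_cases hL : Lo i j
      · rw [if_pos hL]
        by_cases hD : D i j = 0
        · rw [hD]
          simp
        · have h10 := h3 i hi j hD hL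
          refine mul_le_mul_of_nonneg_left ?_ (Nat.cast_nonneg _)
          exact pow_le_pow_right₀ (by linarith) (by omega)
      · rw [if_neg hL]
        exact h9
    rw [← Finset.sum_mul] at h8
    have h9 : (∑ j, (D i j : ℝ)) * B ^ r < B ^ (r + 1) := by
      rw [pow_succ, mul_comm (B ^ r) B]
      exact mul_lt_mul_of_pos_right (by have := hB0 i; linarith) (pow_pos hBp _)
    refine lt_of_le_of_lt h8 (h9.trans_le ?_)
    rw [hr]
    exact le_mul_of_one_le_left (pow_pos hBp _).le h6
  · push Not at h0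
    rw [Finset.sum_eq_zero]
    · exact mul_pos (by linarith) (pow_pos hBp _)
    · intro j _
      by_cases hL : Lo i j
      · by_cases hD : D i j = 0
        · rw [hD]
          simp
        · exact absurd hL (h0 j hD)
      · rw [if_neg hL]

section

variable {ι : Type} [Fintype ι] [DecidableEq ι] {f : ι → σ} {part : ι ⊕ σ → κ}

/-- **Boundedness**: the recession cone is zero for every relation which contains `S7`. -/
theorem rec_wtL (hF : IsForest (onesM (cdeg f part))) {nx : σ → κ → κ}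
    (hc : IsCyc (cdeg f part) nx) {S : σ → κ → κ → Prop} {jo : σ → κ} {Lo : σ → κ → Prop}
    {μ : κ → ℝ} (hμ : IsWtL (cdeg f part) jo Lo μ)
    (hS : ∀ i j j', cdeg f part i j ≠ 0 → cdeg f part i j' ≠ 0 → S7 (cdeg f part) nx jo Lo i j j' →
      S i j j') {n : ι → ℝ} (hn : ∀ p ∈ un (sP f part S), n ⬝ᵥ p ≤ 0) : n = 0 := by
  obtain ⟨m, hm⟩ := exists_flow nx hμ
  refine rec_flow hF hc hm fun p hp => ?_
  obtain ⟨j, hj⟩ := hp
  exact hn p ⟨j, sP_mono hS j hj⟩

end

end Pool.Agent.H2.PK
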