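import Pool.Agent.H2.PK.Nef
import Pool.Agent.H2.CI.UPlan
import Pool.Agent.H2.CI.UAll
import Pool.Agent.H55.CI.Main2
import Pool.Agent.H55.CI.TrAll

/-!
# The main theorems

`main_reg` (no symmetric blocks): as `goodAt` in `Pool.Agent.H99.PI.DFine`; there are no bad points by `s_det` (`sR` is
empty for `Sy = fun _ _ => False`). `main_sym`: as `full_solution_all` in `Pool.Agent.H55.CI.TrFull`: after a
translation (`exists_translation`, `exists_gsum`, `gsum_of` in `Pool.Agent.H99.PI.DFine`) the heights of the rays are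
constant on the factors, `exists_solution'` applies with `R = sR f part Sy` (`s_sym`, `s_det`: a point in the open
faces gives a tight point), and `Solves.trans` gives the solution for `g`. Then `criterion_all` for `g` gives the
plans, and `IsAbove` the further monomials, as in `goodAt`. (Heights which agree on `un Q` have the same polytopes,
skeletons and solutions: choose `g₀ := fun q => g q - τ ⬝ᵥ q` as in `full_solution_all`.)
-/

set_option linter.unusedSectionVars false

open MeasureTheory Matrix
open scoped ENNReal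

namespace Pool.Agent.H2.PK

open Pool.Agent.H99.SYZ Pool.Agent.H55.CI Pool.Agent.H2.CI Pool.Agent.H99.ON Pool.Agent.H99.PI
open Pool.Agent.H61.OT (IsPlan IsOptimal refl)

variable {ι σ κ : Type} [Fintype ι] [Fintype σ] [Fintype κ] [DecidableEq ι] [DecidableEq σ]
  [DecidableEq κ] {f : ι → σ} {part : ι ⊕ σ → κ} {S S' : σ → κ → κ → Prop} {Sy : σ → κ → Prop}
  {P : κ → Set (ι → ℝ)} {g h : (ι → ℝ) → ℝ}

/-- The consequences of the existence of a solution for the allowed powers. -/
private theorem Main_good (hf : Function.Surjective f) (hs : HasChoice (cdeg f part))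
    (hg : ∀ k, 0 < g (pray f k)) (hh : IsStrong (sP f part S) h)
    (hP : ∀ j, P j ⊆ cfull f part j) (H : IsHigh (sP f part S) P h)
    (hsol : IsSolvable (sP f part S) (cQ f part) g h) : IsGoodS f part P g h := by
  classical
  have hpair : IsNefPair (sP f part S) (cQ f part) := c_pair fun j => sP_subset j
  have hnef : IsNef (sP f part S) (cQ f part) g h := isNef_of_strong hpair (c_strongQ hf hg) hh
  have hne := s_ne (s_sec hs) hh
  have hA : IsAbove (sP f part S) P h := s_above hP H
  have hcr := criterion_all hnef hne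
  have hns := hcr.1.1 hsol
  have hsk : skProb P h = skProb (sP f part S) h := by
    unfold skProb
    rw [hA.sk_eq]
  refine ⟨hA.isSolvable hsol, hA.isUniq (isUniq hnef), ?_, ?_, ?_⟩
  · intro γ hγ
    rw [hsk] at hγ
    have h1 := hns γ hγ
    unfold IsNonsing at h1 ⊢
    filter_upwards [h1] with x hx p hp q hq hxq hxp
    by_cases hp0 : p ∈ tup (sP f part S)
    · rw [hA.oface_eq hp0] at hxp
      exact hx p hp0 q hq hxq hxp
    · rw [hA.oface_empty hp hp0] at hxp
      exact absurd hxp (Set.notMem_empty _)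
  · rw [hsk]
    exact hcr.2.2 hsol
  · rw [hA.poly_eq]
    exact hh.bdd

theorem main_reg (hf : Function.Surjective f) (hD : IsRegS (cdeg f part) S fun _ _ => False)
    (hs : HasChoice (cdeg f part)) (hg : ∀ k, 0 < g (pray f k)) (hh : IsStrong (sP f part S) h)
    (hP : ∀ j, P j ⊆ cfull f part j) (H : IsHigh (sP f part S) P h) :
    IsGoodS f part P g h ∧ IsStrict (sP f part S) (cQ f part) g h := by
  classical
  have hpair : IsNefPair (sP f part S) (cQ f part) := c_pair fun j => sP_subset j
  have hnef : IsNef (sP f part S) (cQ f part) g h := isNef_of_strong hpair (c_strongQ hf hg) hh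
  have hne := s_ne (s_sec hs) hh
  have hdet : ∀ p ∈ tup (sP f part S), ∀ q ∈ tup (cQ f part), ∀ m ∈ poly (un (cQ f part)) g,
      (∀ j, m ⬝ᵥ q j = g (q j)) → (Amat p q).det ≠ 0 := by
    intro p hp q hq m hm ht
    rcases s_det hD hg hp hq hm ht with h1 | ⟨r, hr, _⟩
    · exact h1
    · obtain ⟨k, l, _, _, _, h2, _⟩ := hr
      exact absurd h2 id
  have hns : ∀ γ, IsOptimal (skProb (cQ f part) g) (skProb (sP f part S) h) γ →
      IsNonsing (sP f part S) (cQ f part) g h γ := by
    intro γ _
    exact Filter.Eventually.of_forall fun x p hp q hq h1 _ =>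
      hdet p hp q hq x.1 (oface_subset h1) h1.1
  refine ⟨Main_good hf hs hg hh hP H ((criterion_all hnef hne).1.2 hns), ?_⟩
  intro u v _ _ m n hmn p hp q hq _ ht
  exact hdet p hp q hq m hmn.1 ht

theorem main_sym (hf : Function.Surjective f) (hD : IsRegS (cdeg f part) S Sy)
    (hs : HasChoice (cdeg f part)) (hg : ∀ k, 0 < g (pray f k)) (hh : IsStrong (sP f part S) h)
    (hhs : IsBlk f part S Sy h) (hP : ∀ j, P j ⊆ cfull f part j) (H : IsHigh (sP f part S) P h) :
    IsGoodS f part P g h := by
  classical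
  have hpair : IsNefPair (sP f part S) (cQ f part) := c_pair fun j => sP_subset j
  have hnef : IsNef (sP f part S) (cQ f part) g h := isNef_of_strong hpair (c_strongQ hf hg) hh
  have hne := s_ne (s_sec hs) hh
  -- translate such that the heights of the rays are constant on the factors
  obtain ⟨g', hg'⟩ := exists_gsum (f := f) (G := fun i => gsum f g i) hf
  obtain ⟨τ, hτ⟩ := exists_translation (f := f) (g := g) (g' := g') fun i =>
    (gsum_of (f := f) hg' i).symm
  set g₀ : (ι → ℝ) → ℝ := fun q => g q - τ ⬝ᵥ q with hg₀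
  have hg₀r : ∀ k, g₀ (pray f k) = g' (pray f k) := fun k => by
    show g _ - _ = _
    rw [hτ k]
    ring
  have hpos : ∀ k, 0 < g₀ (pray f k) := by
    intro k
    rw [hg₀r, hg' k]
    refine div_pos ?_ ?_
    · show 0 < gsum f g (fac f k)
      unfold gsum
      refine Finset.sum_pos' (fun l _ => ?_) ⟨k, Finset.mem_univ _, ?_⟩
      · split_ifs
        · exact (hg l).le
        · exact le_rfl
      · rw [if_pos rfl]
        exact hg k
    · have h1 : 0 < pdeg f (fac f k) := by
        rw [pdeg, Finset.card_pos]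
        exact ⟨k, Finset.mem_filter.2 ⟨Finset.mem_univ _, rfl⟩⟩
      exact_mod_cast h1
  have hconst : ∀ k l, fac f k = fac f l → g₀ (pray f k) = g₀ (pray f l) := by
    intro k l hkl
    rw [hg₀r, hg₀r, hg' k, hg' l, hkl]
  have H₀ : IsNef (sP f part S) (cQ f part) g₀ h :=
    isNef_of_strong hpair (c_strongQ hf hpos) hh
  have hnd : IsNondeg (sP f part S) (cQ f part) g₀ h (sR f part Sy) := by
    intro p hp q hq _ hqn
    obtain ⟨m, hm⟩ := hqn
    exact s_det hD hpos hp hq (oface_subset hm) hm.1
  obtain ⟨-, u, v, Hc, hu, hv, γ, hγ, hst⟩ := exists_solution' H₀ (s_sym hhs hconst) hnd hne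
  have hs1 : Solves (sP f part S) (cQ f part) g₀ h u v γ := ⟨Hc, hu, hv, hγ.1, hst⟩
  have hs2 := hs1.trans hpair.finQ τ
  have e : (fun q => g₀ q + τ ⬝ᵥ q) = g := by
    funext q
    show g q - τ ⬝ᵥ q + τ ⬝ᵥ q = g q
    ring
  rw [e] at hs2
  exact Main_good hf hs hg hh hP H
    ⟨⟨sk_univ_ne_zero hnef hne, sk_univ_ne_top hnef,
      sk_univ_ne_zero hnef.swap (skel_other hnef hne), sk_univ_ne_top hnef.swap⟩,
      _, _, hs2.conj, hs2.eqn, hs2.eqn'⟩

end Pool.Agent.H2.PK
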