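import Pool.Agent.H2.PK.Det
import Pool.Agent.H99.PI.BStrong

/-!
# Strongly regular heights for the allowed powers

`s_strong`: a tight tuple is linearly independent (`indep_auto`, with `c_pair sP_subset`, and the bounded polytope of
the rays `bounded_polyQ`), so a further tight element in its span contradicts `IsGen.avoid`. `s_above`: as
`isAbove_of_higher` in `Pool.Agent.H99.PI.DFine`. `s_ne`: as `c_ne` in `Pool.Agent.H99.PI.BStrong`. `s_sec`: choose
coordinates `z j` of the factor `z j` in the part `j`; no factor is exhausted, as the `z j` are different coordinates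
and the factor `i` has `∑ j, cdeg f part i j` coordinates.
-/

set_option linter.unusedSectionVars false

open MeasureTheory Matrix
open scoped ENNReal

namespace Pool.Agent.H2.PK

open Pool.Agent.H99.SYZ Pool.Agent.H55.CI Pool.Agent.H2.CI Pool.Agent.H99.ON Pool.Agent.H99.PI
open Pool.Agent.H61.OT (IsPlan IsOptimal refl)

variable {ι σ κ : Type} [Fintype ι] [Fintype σ] [Fintype κ] [DecidableEq ι] [DecidableEq σ]
  [DecidableEq κ] {f : ι → σ} {part : ι ⊕ σ → κ} {S S' : σ → κ → κ → Prop} {Sy : σ → κ → Prop}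
  {P : κ → Set (ι → ℝ)} {g h : (ι → ℝ) → ℝ}

theorem s_strong (hf : Function.Surjective f) (hh : IsGen (sP f part S) h)
    (hb : Bornology.IsBounded (poly (un (sP f part S)) h)) : IsStrong (sP f part S) h := by
  refine ⟨hh.pos, hb, ?_⟩
  intro q hq m hm ht q' hq' hne ht' hsp
  obtain ⟨b, hb'⟩ := (Submodule.mem_span_range_iff_exists_fun ℝ).1 hsp
  have hind : LinearIndependent ℝ q := by
    refine indep_auto (c_pair (f := f) (part := part) fun j => sP_subset j) (g := fun _ => 1)
      (fun _ _ => one_pos) (bounded_polyQ _) hq (n := m) fun i => ?_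
    rw [ht i]
    exact hh.pos _ ⟨i, hq i⟩
  refine hh.avoid q hq hind q' hq' hne b hb'.symm ?_
  rw [← ht', ← hb', dotProduct_sum]
  refine Finset.sum_congr rfl fun j _ => ?_
  rw [dotProduct_smul, smul_eq_mul, ht j]

theorem s_above (hP : ∀ j, P j ⊆ cfull f part j) (H : IsHigh (sP f part S) P h) :
    IsAbove (sP f part S) P h := by
  classical
  have hdot : ∀ (T : Finset (ι → ℝ)) (b : (ι → ℝ) → ℝ) (p n : ι → ℝ), ∑ x ∈ T, b x • x = p →
      n ⬝ᵥ p = ∑ x ∈ T, b x * (n ⬝ᵥ x) := by
    intro T b p n h2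
    rw [← h2, dotProduct_sum]
    exact Finset.sum_congr rfl fun x _ => by rw [dotProduct_smul, smul_eq_mul]
  refine ⟨fun j => (finite_cfull j).subset (hP j), H.sub,
    fun i j hij => (cfull_disjoint hij).mono (hP i) (hP j), ?_, ?_⟩
  · intro j p hp n hn
    by_cases hpV : p ∈ sP f part S j
    · exact hn p ⟨j, hpV⟩
    rcases H.high j p hp hpV with h0 | ⟨T, b, hT, hb, h1, h2, h3⟩
    · exact (h0 n hn).le
    · rw [hdot T b p n h2]
      exact (Finset.sum_le_sum fun x hx =>
        mul_le_mul_of_nonneg_left (hn x ⟨j, hT hx⟩) (hb x hx).le).trans h3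
  · intro j p hp hp0 n hn ht
    rcases H.high j p hp hp0 with h0 | ⟨T, b, hT, hb, h1, h2, h3⟩
    · exact absurd ht (h0 n hn).ne
    have h4 := hdot T b p n h2
    have h5 : ∀ x ∈ T, b x * (n ⬝ᵥ x) ≤ b x * h x := fun x hx =>
      mul_le_mul_of_nonneg_left (hn x ⟨j, hT hx⟩) (hb x hx).le
    have h6 : ∑ x ∈ T, b x * (n ⬝ᵥ x) = ∑ x ∈ T, b x * h x :=
      le_antisymm (Finset.sum_le_sum h5) (by rw [← h4, ht]; exact h3)
    have h7 : ∀ x ∈ T, n ⬝ᵥ x = h x := fun x hx =>
      mul_left_cancel₀ (hb x hx).ne' ((Finset.sum_eq_sum_iff_of_le h5).1 h6 x hx)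
    have h8 : 1 < T.card := by
      by_contra hc
      have hc1 : T.card ≤ 1 := not_lt.1 hc
      have hne : T.Nonempty := by
        rw [Finset.nonempty_iff_ne_empty]
        rintro rfl
        simp at h1
      obtain ⟨x, hx⟩ := Finset.card_eq_one.1 (le_antisymm hc1 (Finset.card_pos.2 hne))
      rw [hx, Finset.sum_singleton] at h1 h2
      rw [h1, one_smul] at h2
      refine hp0 (h2 ▸ hT ?_)
      rw [hx]
      simp
    obtain ⟨a, ha, b', hb', hab⟩ := Finset.one_lt_card.1 h8
    exact ⟨a, hT ha, b', hT hb', hab, h7 a ha, h7 b' hb'⟩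

/-- the number of the coordinates of a factor -/
private theorem nef_card (i : σ) :
    (Finset.univ.filter fun k : ι ⊕ σ => fac f k = i).card = ∑ j, cdeg f part i j := by
  rw [Finset.card_eq_sum_card_fiberwise (f := part) (t := Finset.univ) (fun _ _ => Finset.mem_univ _)]
  refine Finset.sum_congr rfl fun j _ => ?_
  rw [cdeg, Finset.filter_filter]

theorem s_sec (H : HasChoice (cdeg f part)) : HasSec f part := by
  classical
  obtain ⟨z, hz, hc⟩ := H
  have h1 : ∀ j, ∃ k : ι ⊕ σ, fac f k = z j ∧ part k = j := by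
    intro j
    obtain ⟨k, hk⟩ := Finset.card_ne_zero.1 (hz j)
    exact ⟨k, (Finset.mem_filter.1 hk).2⟩
  choose w hw1 hw2 using h1
  have h2 : ∀ i, ∃ e : ι ⊕ σ, fac f e = i ∧ ∀ j, e ≠ w j := by
    intro i
    have h3 : ((Finset.univ.filter fun j => z j = i).image w).card <
        (Finset.univ.filter fun k : ι ⊕ σ => fac f k = i).card := by
      rw [nef_card (part := part) i]
      exact Finset.card_image_le.trans_lt (hc i)
    obtain ⟨e, he, he'⟩ := Finset.exists_mem_notMem_of_card_lt_card h3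
    refine ⟨e, (Finset.mem_filter.1 he).2, fun j hj => he' ?_⟩
    refine Finset.mem_image.2 ⟨j, Finset.mem_filter.2 ⟨Finset.mem_univ _, ?_⟩, hj.symm⟩
    rw [← hw1 j, ← hj]
    exact (Finset.mem_filter.1 he).2
  choose e he1 he2 using h2
  exact ⟨w, e, hw2, he1, he2⟩

theorem s_ne (hs : HasSec f part) (hh : IsStrong (sP f part S) h) :
    ∃ p ∈ tup (sP f part S), ∃ n ∈ poly (un (sP f part S)) h, ∀ i, n ⬝ᵥ p i = h (p i) := by
  classical
  obtain ⟨z, e, hz, he⟩ := hs
  set N : σ → ℝ := fun i => ∑ k, if fac f k = i then (if ∃ j, k = z j then (1 : ℝ) else 0) else 0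
    with hN
  obtain ⟨m, hm⟩ := exists_dot_pray (f := f) (b := fun k => (if ∃ j, k = z j then (1 : ℝ) else 0) -
    (if k = e (fac f k) then N (fac f k) else 0)) (by
      intro i
      have h1 : ∀ k, (if fac f k = i then ((if ∃ j, k = z j then (1 : ℝ) else 0) -
          (if k = e (fac f k) then N (fac f k) else 0)) else 0) =
          (if fac f k = i then (if ∃ j, k = z j then (1 : ℝ) else 0) else 0) -
            (if k = e i then N i else 0) := by
        intro k
        by_cases hk : fac f k = i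
        · rw [if_pos hk, if_pos hk, hk]
        · rw [if_neg hk, if_neg hk, if_neg, sub_zero]
          intro h2
          exact hk (by rw [h2, he.1])
      rw [Finset.sum_congr rfl fun k _ => h1 k, Finset.sum_sub_distrib,
        Finset.sum_ite_eq' Finset.univ (e i), if_pos (Finset.mem_univ _), sub_self])
  refine exists_tight (c_pair (f := f) (part := part) fun j => sP_subset j) hh.pos hh.bdd
    (q := fun j => pray f (z j)) (fun j => ⟨z j, hz j, rfl⟩) (m := m) fun j => ?_
  show 0 < m ⬝ᵥ pray f (z j)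
  rw [hm, if_pos ⟨j, rfl⟩, if_neg (fun h1 => he.2 _ _ h1.symm), sub_zero]
  exact one_pos

end Pool.Agent.H2.PK
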