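import Pool.Agent.H2.PK.Fam

/-!
# Threefolds in products of two projective spaces: the list of the degree matrices

`mat t` is the degree matrix with two rows and the columns `t`. The 68 matrices (up to the order of rows and
columns) with row sums and column sums at least `2` and total `r + 5` are divided into the lists `tF`
(forests), `tR` (ranks), `tT` (two equations), `tN` (three further ones) and `tE` (seven exceptions); five of
the exceptions have weights (`tS`).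
-/

set_option linter.unusedSectionVars false

namespace Pool.Agent.H2.PK

/-- The matrix with two rows and the columns `t`. -/
def mat (t : List (ℕ × ℕ)) : Fin 2 → Fin t.length → ℕ := fun i j =>
  if i = 0 then (t.get j).1 else (t.get j).2

/-- Up to the order of the rows and of the columns, the columns of `D` are the pairs of the list `t`. -/
def HasCols {r : ℕ} (D : Fin 2 → Fin r → ℕ) (t : List (ℕ × ℕ)) : Prop :=
  ∃ (e : Fin 2 ≃ Fin 2) (a : Fin r ≃ Fin t.length), ∀ i j, D i j = mat t (e i) (a j)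

/-- Forests. -/
def tF : List (List (ℕ × ℕ)) := [
  [(2, 0), (2, 0), (2, 0), (2, 0), (0, 2)], [(2, 0), (2, 0), (2, 0), (1, 1), (0, 2)],
  [(2, 0), (2, 0), (2, 0), (0, 2), (0, 2)], [(2, 0), (2, 0), (1, 1), (0, 2), (0, 2)],
  [(3, 0), (2, 0), (2, 0), (0, 2)], [(3, 0), (2, 0), (1, 1), (0, 2)],
  [(3, 0), (2, 0), (0, 2), (0, 2)], [(3, 0), (1, 1), (0, 2), (0, 2)],
  [(3, 0), (0, 2), (0, 2), (0, 2)], [(2, 1), (2, 0), (2, 0), (0, 2)],
  [(2, 1), (2, 0), (0, 2), (0, 2)], [(2, 1), (0, 2), (0, 2), (0, 2)], [(4, 0), (2, 0), (0, 2)],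
  [(4, 0), (1, 1), (0, 2)], [(4, 0), (0, 2), (0, 2)], [(3, 1), (2, 0), (0, 2)],
  [(3, 1), (0, 2), (0, 2)], [(3, 0), (3, 0), (0, 2)], [(3, 0), (2, 1), (0, 2)],
  [(3, 0), (2, 0), (1, 2)], [(3, 0), (2, 0), (0, 3)], [(3, 0), (1, 2), (0, 2)],
  [(3, 0), (1, 1), (0, 3)], [(2, 2), (2, 0), (2, 0)], [(2, 2), (2, 0), (0, 2)], [(5, 0), (0, 2)],
  [(4, 1), (0, 2)], [(4, 0), (1, 2)], [(4, 0), (0, 3)], [(3, 2), (2, 0)], [(3, 2), (0, 2)],
  [(3, 1), (0, 3)], [(3, 0), (2, 2)], [(4, 2)], [(3, 3)]]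

/-- Matrices with ranks: the number `l` and the ranks of the columns. -/
def tR : List (List (ℕ × ℕ) × ℕ × List ℕ) := [
  ([(2, 0), (2, 0), (2, 0), (1, 1), (1, 1)], 2, [0, 0, 1, 0, 0]),
  ([(2, 0), (2, 0), (1, 1), (1, 1), (1, 1)], 2, [0, 1, 0, 0, 0]),
  ([(2, 0), (2, 0), (1, 1), (1, 1), (0, 2)], 2, [0, 1, 0, 0, 1]),
  ([(2, 0), (1, 1), (1, 1), (1, 1), (1, 1)], 2, [1, 0, 0, 0, 0]),
  ([(2, 0), (1, 1), (1, 1), (1, 1), (0, 2)], 2, [1, 0, 0, 0, 1]),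
  ([(3, 0), (2, 0), (1, 1), (1, 1)], 2, [0, 1, 0, 0]),
  ([(3, 0), (1, 1), (1, 1), (1, 1)], 3, [1, 0, 0, 0]),
  ([(2, 1), (2, 0), (2, 0), (1, 1)], 2, [0, 0, 1, 0]),
  ([(2, 1), (2, 0), (1, 1), (1, 1)], 2, [0, 1, 0, 0]),
  ([(2, 1), (2, 0), (1, 1), (0, 2)], 2, [0, 1, 0, 1]),
  ([(2, 1), (1, 1), (1, 1), (0, 2)], 2, [1, 0, 0, 2]),
  ([(2, 1), (1, 1), (0, 2), (0, 2)], 2, [1, 0, 0, 2]), ([(4, 0), (1, 1), (1, 1)], 2, [1, 0, 0]),
  ([(3, 1), (2, 0), (1, 1)], 2, [0, 1, 0]), ([(3, 0), (2, 1), (1, 1)], 3, [1, 0, 0]),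
  ([(2, 2), (2, 0), (1, 1)], 2, [1, 0, 0]), ([(2, 2), (1, 1), (1, 1)], 2, [1, 0, 0]),
  ([(2, 1), (2, 1), (2, 0)], 2, [0, 0, 0]), ([(2, 1), (2, 1), (0, 2)], 2, [0, 0, 1]),
  ([(2, 1), (2, 0), (1, 2)], 2, [0, 2, 1]), ([(2, 2), (2, 1)], 2, [1, 0])]

/-- Two equations with the numerical conditions. -/
def tT : List (List (ℕ × ℕ)) := [
  [(3, 2), (1, 1)], [(3, 1), (2, 1)]]

/-- Three further regular matrices. -/
def tN : List (List (ℕ × ℕ)) := [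
  [(3, 0), (1, 1), (1, 1), (0, 2)], [(3, 1), (1, 1), (0, 2)], [(3, 0), (1, 2), (1, 1)]]

/-- The exceptions. -/
def tE : List (List (ℕ × ℕ)) := [
  [(1, 1), (1, 1), (1, 1), (1, 1), (1, 1)], [(2, 1), (1, 1), (1, 1), (1, 1)],
  [(3, 1), (1, 1), (1, 1)], [(2, 1), (2, 1), (1, 1)], [(2, 1), (1, 2), (1, 1)], [(4, 1), (1, 1)],
  [(3, 1), (1, 2)]]

/-- Exceptions with weights: the weights and the columns `o`. -/
def tS : List (List (ℕ × ℕ) × List ℕ × List ℕ) := [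
  ([(3, 1), (1, 1), (1, 1)], [1, 1, 1], [0, 0]), ([(2, 1), (2, 1), (1, 1)], [1, 1, 1], [0, 0]),
  ([(2, 1), (1, 2), (1, 1)], [2, 2, 1], [0, 1]), ([(4, 1), (1, 1)], [1, 1], [0, 0]),
  ([(3, 1), (1, 2)], [1, 1], [0, 1])]

/-- The whole table. -/
def table : List (List (ℕ × ℕ)) := tF ++ tR.map Prod.fst ++ tT ++ tN ++ tE

end Pool.Agent.H2.PK
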