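import Pool.Agent.H2.PK.RecA
import Pool.Agent.H2.PK.Two
import Pool.Agent.H2.PK.Ex

/-!
# Three further matrices

For a concrete matrix and relation `IsRegS` is a finite computation: `Num_reg3` and `Num_reg4` reduce it to a
decidable statement on integer determinants. The polytopes are bounded by `rec_wtL` and `rec_wtA`.
-/

set_option linter.unusedSectionVars false

open Matrix

namespace Pool.Agent.H2.PK

open Pool.Agent.H99.PI

/-- an entry -/
private def Num_ent (D : ℕ) (d b : Bool) : ℤ := (if d then 1 else 0) - (if b then (D : ℤ) else 0)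

private def Num_ok {r : ℕ} (D : Fin 2 → Fin r → ℕ) (S : Fin 2 → Fin r → Fin r → Bool) (z : Fin 2)
    (j j' : Fin r) (b : Bool) : Prop :=
  b = true → S z j j' = true ∧ D z j ≠ 0

private instance {r : ℕ} (D : Fin 2 → Fin r → ℕ) (S : Fin 2 → Fin r → Fin r → Bool) (z : Fin 2)
    (j j' : Fin r) (b : Bool) : Decidable (Num_ok D S z j j' b) := by
  unfold Num_ok
  infer_instance

private def Num_un (b b' : Bool) (z z' : Fin 2) : Prop := b = true → b' = true → z ≠ z'

private instance (b b' : Bool) (z z' : Fin 2) : Decidable (Num_un b b' z z') := by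
  unfold Num_un
  infer_instance

private def Num_det3 (a b c d e f g h i : ℤ) : ℤ :=
  a * e * i - a * f * h - b * d * i + b * f * g + c * d * h - c * e * g

private def Num_chk3 (D : Fin 2 → Fin 3 → ℕ) (S : Fin 2 → Fin 3 → Fin 3 → Bool) : Prop :=
  ∀ x, D x 0 ≠ 0 → ∀ y, D y 1 ≠ 0 → ∀ z, D z 2 ≠ 0 →
    ∀ a, Num_ok D S x 0 0 a → ∀ b, Num_ok D S y 0 1 b → Num_un a b x y →
    ∀ c, Num_ok D S z 0 2 c → Num_un a c x z → Num_un b c y z →
    ∀ d, Num_ok D S x 1 0 d → ∀ e, Num_ok D S y 1 1 e → Num_un d e x y →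
    ∀ f, Num_ok D S z 1 2 f → Num_un d f x z → Num_un e f y z →
    ∀ g, Num_ok D S x 2 0 g → ∀ h, Num_ok D S y 2 1 h → Num_un g h x y →
    ∀ i, Num_ok D S z 2 2 i → Num_un g i x z → Num_un h i y z →
    Num_det3 (Num_ent (D x 0) true a) (Num_ent (D y 0) false b) (Num_ent (D z 0) false c)
      (Num_ent (D x 1) false d) (Num_ent (D y 1) true e) (Num_ent (D z 1) false f)
      (Num_ent (D x 2) false g) (Num_ent (D y 2) false h) (Num_ent (D z 2) true i) ≠ 0

private instance (D : Fin 2 → Fin 3 → ℕ) (S : Fin 2 → Fin 3 → Fin 3 → Bool) :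
    Decidable (Num_chk3 D S) := by
  unfold Num_chk3
  infer_instance

private theorem Num_reg3 {D : Fin 2 → Fin 3 → ℕ} {S : Fin 2 → Fin 3 → Fin 3 → Bool}
    (H : Num_chk3 D S) : IsRegS D (fun i j j' => S i j j' = true) fun _ _ => False := by
  intro z e hz _ he hu h0
  have hok : ∀ j j', Num_ok D S (z j') j j' (e j j') := fun j j' h => ⟨(he j j' h).1, (he j j' h).2.1⟩
  have hun : ∀ j j' j'', j' ≠ j'' → Num_un (e j j') (e j j'') (z j') (z j'') :=
    fun j j' j'' hne h h' hzz => hne (hu j j' j'' h h' hzz)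
  have h01 : (0 : Fin 3) ≠ 1 := by decide
  have h02 : (0 : Fin 3) ≠ 2 := by decide
  have h12 : (1 : Fin 3) ≠ 2 := by decide
  refine H (z 0) (hz 0) (z 1) (hz 1) (z 2) (hz 2)
    (e 0 0) (hok 0 0) (e 0 1) (hok 0 1) (hun 0 0 1 h01) (e 0 2) (hok 0 2) (hun 0 0 2 h02)
    (hun 0 1 2 h12) (e 1 0) (hok 1 0) (e 1 1) (hok 1 1) (hun 1 0 1 h01) (e 1 2) (hok 1 2)
    (hun 1 0 2 h02) (hun 1 1 2 h12) (e 2 0) (hok 2 0) (e 2 1) (hok 2 1) (hun 2 0 1 h01) (e 2 2)
    (hok 2 2) (hun 2 0 2 h02) (hun 2 1 2 h12) ?_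
  have h1 : ∀ j j', (Matrix.of fun j j' : Fin 3 => (if j = j' then (1 : ℝ) else 0) -
      (if e j j' = true then (D (z j') j : ℝ) else 0)) j j' =
      ((Num_ent (D (z j') j) (decide (j = j')) (e j j') : ℤ) : ℝ) := by
    intro j j'
    unfold Num_ent
    rw [Matrix.of_apply]
    push_cast
    congr 1
    · by_cases h : j = j' <;> simp [h]
  rw [Matrix.det_fin_three] at h0
  simp only [h1] at h0
  unfold Num_det3
  have h2 : ((0 : ℤ) : ℝ) = 0 := Int.cast_zero
  apply Int.cast_injective (α := ℝ)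
  rw [h2, ← h0]
  push_cast
  rfl

private def Num_det4 (a b c d e f g h i j k l m n o p : ℤ) : ℤ :=
  a * Num_det3 f g h j k l n o p - b * Num_det3 e g h i k l m o p +
    c * Num_det3 e f h i j l m n p - d * Num_det3 e f g i j k m n o

/-- the row `j` -/
private def Num_row {r : ℕ} (D : Fin 2 → Fin r → ℕ) (S : Fin 2 → Fin r → Fin r → Bool)
    (i₀ i₁ i₂ i₃ : Fin r) (j : Fin r) (x y z w : Fin 2) (a b c d : Bool) : Prop :=
  (Num_ok D S x j i₀ a ∧ Num_ok D S y j i₁ b ∧ Num_ok D S z j i₂ c ∧ Num_ok D S w j i₃ d) ∧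
    (Num_un a b x y ∧ Num_un a c x z ∧ Num_un a d x w) ∧ Num_un b c y z ∧ Num_un b d y w ∧
      Num_un c d z w

private instance {r : ℕ} (D : Fin 2 → Fin r → ℕ) (S : Fin 2 → Fin r → Fin r → Bool)
    (i₀ i₁ i₂ i₃ : Fin r) (j : Fin r) (x y z w : Fin 2) (a b c d : Bool) :
    Decidable (Num_row D S i₀ i₁ i₂ i₃ j x y z w a b c d) := by
  unfold Num_row
  infer_instance

private def Num_chk4 (D : Fin 2 → Fin 4 → ℕ) (S : Fin 2 → Fin 4 → Fin 4 → Bool) : Prop :=
  ∀ x, D x 0 ≠ 0 → ∀ y, D y 1 ≠ 0 → ∀ z, D z 2 ≠ 0 → ∀ w, D w 3 ≠ 0 →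
    ∀ a b c d, Num_row D S 0 1 2 3 0 x y z w a b c d →
    ∀ a' b' c' d', Num_row D S 0 1 2 3 1 x y z w a' b' c' d' →
    ∀ e f g h, Num_row D S 0 1 2 3 2 x y z w e f g h →
    ∀ e' f' g' h', Num_row D S 0 1 2 3 3 x y z w e' f' g' h' →
    Num_det4
      (Num_ent (D x 0) true a) (Num_ent (D y 0) false b) (Num_ent (D z 0) false c)
      (Num_ent (D w 0) false d)
      (Num_ent (D x 1) false a') (Num_ent (D y 1) true b') (Num_ent (D z 1) false c')
      (Num_ent (D w 1) false d')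
      (Num_ent (D x 2) false e) (Num_ent (D y 2) false f) (Num_ent (D z 2) true g)
      (Num_ent (D w 2) false h)
      (Num_ent (D x 3) false e') (Num_ent (D y 3) false f') (Num_ent (D z 3) false g')
      (Num_ent (D w 3) true h') ≠ 0

private instance (D : Fin 2 → Fin 4 → ℕ) (S : Fin 2 → Fin 4 → Fin 4 → Bool) :
    Decidable (Num_chk4 D S) := by
  unfold Num_chk4
  infer_instance

private theorem Num_reg4 {D : Fin 2 → Fin 4 → ℕ} {S : Fin 2 → Fin 4 → Fin 4 → Bool}
    (H : Num_chk4 D S) : IsRegS D (fun i j j' => S i j j' = true) fun _ _ => False := by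
  intro z e hz _ he hu h0
  have hok : ∀ j j', Num_ok D S (z j') j j' (e j j') := fun j j' h => ⟨(he j j' h).1, (he j j' h).2.1⟩
  have hun : ∀ j j' j'', j' ≠ j'' → Num_un (e j j') (e j j'') (z j') (z j'') :=
    fun j j' j'' hne h h' hzz => hne (hu j j' j'' h h' hzz)
  have hrow : ∀ j, Num_row D S 0 1 2 3 j (z 0) (z 1) (z 2) (z 3) (e j 0) (e j 1) (e j 2) (e j 3) :=
    fun j => ⟨⟨hok j 0, hok j 1, hok j 2, hok j 3⟩, ⟨hun j 0 1 (by decide), hun j 0 2 (by decide),
      hun j 0 3 (by decide)⟩, hun j 1 2 (by decide), hun j 1 3 (by decide), hun j 2 3 (by decide)⟩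
  refine H (z 0) (hz 0) (z 1) (hz 1) (z 2) (hz 2) (z 3) (hz 3) _ _ _ _ (hrow 0) _ _ _ _ (hrow 1)
    _ _ _ _ (hrow 2) _ _ _ _ (hrow 3) ?_
  have h1 : ∀ j j', (Matrix.of fun j j' : Fin 4 => (if j = j' then (1 : ℝ) else 0) -
      (if e j j' = true then (D (z j') j : ℝ) else 0)) j j' =
      ((Num_ent (D (z j') j) (decide (j = j')) (e j j') : ℤ) : ℝ) := by
    intro j j'
    unfold Num_ent
    rw [Matrix.of_apply]
    push_cast
    congr 1
    · by_cases h : j = j' <;> simp [h]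
  have h3 : ∀ M : Matrix (Fin 4) (Fin 4) ℝ, M.det =
      M 0 0 * (M.submatrix Fin.succ (Fin.succAbove 0)).det -
      M 0 1 * (M.submatrix Fin.succ (Fin.succAbove 1)).det +
      M 0 2 * (M.submatrix Fin.succ (Fin.succAbove 2)).det -
      M 0 3 * (M.submatrix Fin.succ (Fin.succAbove 3)).det := by
    intro M
    rw [Matrix.det_succ_row_zero, Fin.sum_univ_four]
    norm_num
    ring
  rw [h3] at h0
  simp only [Matrix.det_fin_three, Matrix.submatrix_apply, h1] at h0
  unfold Num_det4 Num_det3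
  have h2 : ((0 : ℤ) : ℝ) = 0 := Int.cast_zero
  apply Int.cast_injective (α := ℝ)
  rw [h2, ← h0]
  push_cast
  rfl

theorem num_a_reg : IsRegS (![![3, 1, 1], ![0, 2, 1]] : Fin 2 → Fin 3 → ℕ)
    (fun i j j' => (![![![true, true, true], ![true, false, false], ![true, false, false]],
      ![![false, true, false], ![false, true, true], ![false, true, false]]] :
        Fin 2 → Fin 3 → Fin 3 → Bool) i j j' = true) (fun _ _ => False) :=
  Num_reg3 (by decide)

theorem num_c_reg : IsRegS (![![3, 1, 0], ![1, 1, 2]] : Fin 2 → Fin 3 → ℕ)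
    (fun i j j' => (![![![false, true, false], ![true, false, false], ![false, false, false]],
      ![![false, false, true], ![false, false, true], ![true, true, true]]] :
        Fin 2 → Fin 3 → Fin 3 → Bool) i j j' = true) (fun _ _ => False) :=
  Num_reg3 (by decide)

theorem num_b_reg : IsRegS (![![3, 1, 1, 0], ![0, 1, 1, 2]] : Fin 2 → Fin 4 → ℕ)
    (fun i j j' => (![![![true, true, true, false], ![true, false, false, false],
      ![true, false, false, false], ![true, false, false, false]],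
      ![![false, false, false, true], ![false, false, false, true], ![false, false, false, true],
      ![false, true, true, true]]] : Fin 2 → Fin 4 → Fin 4 → Bool) i j j' = true)
    (fun _ _ => False) :=
  Num_reg4 (by decide)

/-- Relations given by tables: `IsRec` from weights. -/
private theorem Num_rec {r : ℕ} {D : Fin 2 → Fin r → ℕ} (h0 : ∀ i, ∃ j, 2 ≤ D i j)
    {S : Fin 2 → Fin r → Fin r → Bool} {jo : Fin 2 → Fin r} (h1 : ∀ i, D i (jo i) ≠ 0)
    (hS : ∀ i j j', D i j ≠ 0 → D i j' ≠ 0 → j = jo i ∨ j' = jo i → S i j j' = true)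
    {μ : Fin r → ℕ} (hμ : ∀ j, 0 < μ j)
    (hlt : ∀ i, ∑ j, (if j ≠ jo i then D i j * μ j else 0) < D i (jo i) * μ (jo i)) :
    IsRec D fun i j j' => S i j j' = true := by
  classical
  intro ι _ _ f part hD n hn
  subst hD
  have h2 : ∀ i, ¬ IsOnes (cdeg f part) i := by
    intro i h
    obtain ⟨j, hj⟩ := h0 i
    exact absurd (h j) (by omega)
  obtain ⟨nx, hc⟩ := exists_cyc (cdeg f part)
  have hF : IsForest (onesM (cdeg f part)) := forest_ones_of_two h0
  refine rec_wtL hF hc (jo := jo) (Lo := fun i j => j ≠ jo i) (μ := fun j => (μ j : ℝ))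
    ⟨fun j => by exact_mod_cast hμ j, fun i hi => absurd hi (h2 i), fun i _ => ⟨h1 i, by simp⟩,
      fun i _ => ?_⟩ (fun i j j' hj hj' h => ?_) hn
  · have h3 : ((∑ j, (if j ≠ jo i then cdeg f part i j * μ j else 0) : ℕ) : ℝ) <
        ((cdeg f part i (jo i) * μ (jo i) : ℕ) : ℝ) := by exact_mod_cast hlt i
    push_cast at h3
    refine lt_of_eq_of_lt (Finset.sum_congr rfl fun j _ => ?_) h3
    congr 1
  · refine hS i j j' hj hj' ?_
    rcases h.2 with h3 | h3
    · exact absurd h3.1 (h2 i)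
    · rcases h3.2 with h4 | h4 | h4
      · exact Or.inl h4
      · exact Or.inr h4
      · exact Or.inl (not_not.1 h4.1)

/-- Degrees `(3,0), (1,2), (1,1)` in `P^4 × P^2`. -/
theorem num_a : ∃ S, IsRegS (![![3, 1, 1], ![0, 2, 1]] : Fin 2 → Fin 3 → ℕ) S
    (fun _ _ => False) ∧ IsRec (![![3, 1, 1], ![0, 2, 1]] : Fin 2 → Fin 3 → ℕ) S :=
  ⟨_, num_a_reg, Num_rec (by decide) (jo := ![0, 1]) (by decide) (by decide)
    (μ := fun _ => 1) (by decide) (by decide)⟩

/-- Degrees `(3,0), (1,1), (1,1), (0,2)` in `P^4 × P^3`. -/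
theorem num_b : ∃ S, IsRegS (![![3, 1, 1, 0], ![0, 1, 1, 2]] : Fin 2 → Fin 4 → ℕ) S
    (fun _ _ => False) ∧ IsRec (![![3, 1, 1, 0], ![0, 1, 1, 2]] : Fin 2 → Fin 4 → ℕ) S :=
  ⟨_, num_b_reg, Num_rec (by decide) (jo := ![0, 3]) (by decide) (by decide)
    (μ := ![1, 1, 1, 2]) (by decide) (by decide)⟩

/-- Degrees `(3,1), (1,1), (0,2)` in `P^3 × P^3`. -/
theorem num_c : ∃ S, IsRegS (![![3, 1, 0], ![1, 1, 2]] : Fin 2 → Fin 3 → ℕ) S
    (fun _ _ => False) ∧ IsRec (![![3, 1, 0], ![1, 1, 2]] : Fin 2 → Fin 3 → ℕ) S := by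
  classical
  refine ⟨_, num_c_reg, ?_⟩
  intro ι _ _ f part hD n hn
  have hF : IsForest fun i j => @ite ℕ (i = (0 : Fin 2)) (Classical.propDecidable _)
      (cdeg f part i j) 0 := by
    rw [hD]
    refine ⟨fun _ => 0, fun _ => 1, ?_, ?_, ?_⟩
    · intro i j _
      exact Nat.zero_ne_one
    · intro i j j' _ _ h
      exact absurd h (Nat.not_lt_zero _)
    · intro j i i' hi hi' _ _
      have h1 : ∀ i : Fin 2, (@ite ℕ (i = 0) (Classical.propDecidable _)
          ((![![3, 1, 0], ![1, 1, 2]] : Fin 2 → Fin 3 → ℕ) i j) 0) ≠ 0 → i = 0 := by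
        intro i hi
        by_contra h
        exact hi (if_neg h)
      rw [h1 i hi, h1 i' hi']
  refine rec_wtA (A := fun i => i = (0 : Fin 2)) hF (nx := fun _ => ![1, 0, 2]) ?_
    (jo := ![0, 2]) (Lo := fun _ j => j ≠ 2) (μ := ![1, 3, 3]) ?_ ?_ hn
  · rw [hD]
    refine ⟨?_, ?_, ?_⟩
    · rintro i rfl
      decide
    · rintro i rfl
      decide
    · rintro i rfl J ⟨j, hj, hj0⟩ hJ
      have h0 : ∀ j : Fin 3, (![![3, 1, 0], ![1, 1, 2]] : Fin 2 → Fin 3 → ℕ) 0 j ≠ 0 →
          j = 0 ∨ j = 1 := by decide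
      have h1 : (0 : Fin 3) ∈ J → (1 : Fin 3) ∈ J := fun h => hJ 0 h (by decide)
      have h2 : (1 : Fin 3) ∈ J → (0 : Fin 3) ∈ J := fun h => hJ 1 h (by decide)
      have h3 : (0 : Fin 3) ∈ J ∧ (1 : Fin 3) ∈ J := by
        rcases h0 j hj0 with rfl | rfl
        · exact ⟨hj, h1 hj⟩
        · exact ⟨h2 hj, hj⟩
      intro j' hj'
      rcases h0 j' hj' with rfl | rfl
      · exact h3.1
      · exact h3.2
  · rw [hD]
    refine ⟨?_, ?_, ?_, ?_⟩
    · intro j
      fin_cases j <;> norm_num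
    · rintro i rfl j j' hj hj'
      have h0 : ∀ j : Fin 3, (![![3, 1, 0], ![1, 1, 2]] : Fin 2 → Fin 3 → ℕ) 0 j ≠ 0 →
          j = 0 ∨ j = 1 := by decide
      rcases h0 j hj with rfl | rfl <;> rcases h0 j' hj' with rfl | rfl <;> simp
    · intro i hi
      have h1 : i = 1 := by
        fin_cases i
        · exact absurd rfl hi
        · rfl
      subst h1
      exact ⟨by decide, by simp⟩
    · intro i hi
      have h1 : i = 1 := by
        fin_cases i
        · exact absurd rfl hi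
        · rfl
      subst h1
      rw [Fin.sum_univ_three]
      simp
      norm_num
  · rw [hD]
    intro i j j' hj hj'
    unfold S8
    revert i j j'
    decide

end Pool.Agent.H2.PK
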