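import Pool.Agent.H2.PK.Nef
import Pool.Agent.H55.CI.FullDense
import Pool.Agent.H99.PI.CFace
import Pool.Agent.H99.ON.Strong

/-!
# Open sets of valuations

`bdd_of_rec`: the function `max over V of n ⬝ p` is positive on the unit sphere (compact), so it is at least `c ‖n‖`
with `c > 0`. `isBlk_of_const`: if `cver f part j y = 0` then for all `i` with `cdeg f part i j ≠ 0` the block `(i, j)` has
one element, which is `y i`, and `y' i = y i` too (same factor and same part), so `cver f part j y' = 0`; conversely the same. If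
both are not zero then both are in `sP f part S j`. `exists_strong_shift`: as `exists_regular` in `Pool.Agent.H55.CI.FullDense`, but with `IsStrong` in the conclusion (a
further normal `q'` in the span of an independent tuple, `q' = ∑ c j • q j`, gives a proper affine hyperplane for `t`:
the vector `c - (unit vector of the part of q')` is not zero, as `q' ≠ q j`). `exists_open`: take `h₁ = 1`, shift by
`t` constants on the parts to get a strong `h₁`; let `ε` be as in `isStrong_open`, `ε ≤ 1`; the polytopes of all `h` within `ε` of `h₁` on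
`V` are in the polytope of `h₁ + 1`, which is bounded, so `n ⬝ p ≤ C` for all `p` in the finite set of all
monomials; put `h₀ p = C + 2` for `p ∉ V j`. The heights `h₁` are constant on the parts, so `h₀` is constant on every `sP j` and
on every rest.
-/

set_option linter.unusedSectionVars false

open MeasureTheory Matrix
open scoped ENNReal

namespace Pool.Agent.H2.PK

open Pool.Agent.H99.SYZ Pool.Agent.H55.CI Pool.Agent.H2.CI Pool.Agent.H99.ON Pool.Agent.H99.PI

variable {ι σ κ : Type} [Fintype ι] [Fintype σ] [Fintype κ] [DecidableEq ι] [DecidableEq σ]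
  [DecidableEq κ] {f : ι → σ} {part : ι ⊕ σ → κ} {S S' : σ → κ → κ → Prop} {Sy : σ → κ → Prop}
  {P : κ → Set (ι → ℝ)} {g h : (ι → ℝ) → ℝ}

theorem bdd_of_rec {V : Set (ι → ℝ)} (hV : V.Finite)
    (H : ∀ n : ι → ℝ, (∀ p ∈ V, n ⬝ᵥ p ≤ 0) → n = 0) (h : (ι → ℝ) → ℝ) :
    Bornology.IsBounded (poly V h) := by
  classical
  set W : Finset (ι → ℝ) := hV.toFinset with hW
  have hmem : ∀ p, p ∈ W ↔ p ∈ V := fun p => hV.mem_toFinset
  let F : (ι → ℝ) → ℝ := fun n => ∑ p ∈ W, max 0 (n ⬝ᵥ p)
  have hF : Continuous F := by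
    refine continuous_finsetSum W fun p _ => continuous_const.max ?_
    exact continuous_finsetSum _ fun i _ => (continuous_apply i).mul continuous_const
  have hFpos : ∀ n : ι → ℝ, n ≠ 0 → 0 < F n := by
    intro n hn
    by_contra hle
    have h0 : F n = 0 := le_antisymm (not_lt.1 hle)
      (Finset.sum_nonneg fun p _ => le_max_left _ _)
    have h1 := (Finset.sum_eq_zero_iff_of_nonneg fun p _ => le_max_left _ _).1 h0
    exact hn (H n fun p hp => (le_max_right _ _).trans (h1 p ((hmem p).2 hp)).le)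
  have hc : ∃ c : ℝ, 0 < c ∧ ∀ n ∈ Metric.sphere (0 : ι → ℝ) 1, c ≤ F n := by
    rcases (Metric.sphere (0 : ι → ℝ) 1).eq_empty_or_nonempty with he | hne
    · exact ⟨1, one_pos, fun n hn => absurd hn (by rw [he]; exact Set.notMem_empty n)⟩
    · obtain ⟨n₀, hn₀, hmin⟩ := (isCompact_sphere (0 : ι → ℝ) 1).exists_isMinOn hne
        hF.continuousOn
      refine ⟨F n₀, hFpos n₀ ?_, fun n hn => hmin hn⟩
      rintro rfl
      simp at hn₀
  obtain ⟨c, hc0, hc⟩ := hc
  refine (Metric.isBounded_closedBall (x := (0 : ι → ℝ))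
    (r := (∑ p ∈ W, max 0 (h p)) / c)).subset fun m hm => ?_
  rw [mem_closedBall_zero_iff]
  rcases eq_or_ne m 0 with rfl | hm0
  · rw [norm_zero]
    exact div_nonneg (Finset.sum_nonneg fun p _ => le_max_left _ _) hc0.le
  · have hn : 0 < ‖m‖ := norm_pos_iff.2 hm0
    have h1 : (‖m‖⁻¹ • m) ∈ Metric.sphere (0 : ι → ℝ) 1 := by
      rw [mem_sphere_zero_iff_norm, norm_smul, norm_inv, norm_norm, inv_mul_cancel₀ hn.ne']
    have h2 := hc _ h1
    have h3 : F (‖m‖⁻¹ • m) = ‖m‖⁻¹ * F m := by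
      show ∑ p ∈ W, max 0 ((‖m‖⁻¹ • m) ⬝ᵥ p) = ‖m‖⁻¹ * ∑ p ∈ W, max 0 (m ⬝ᵥ p)
      rw [Finset.mul_sum]
      refine Finset.sum_congr rfl fun p _ => ?_
      rw [smul_dotProduct, smul_eq_mul, mul_max_of_nonneg _ _ (inv_nonneg.2 hn.le), mul_zero]
    rw [h3, le_inv_mul_iff₀ hn] at h2
    have h4 : F m ≤ ∑ p ∈ W, max 0 (h p) :=
      Finset.sum_le_sum fun p hp => max_le_max le_rfl (hm p ((hmem p).1 hp))
    rw [le_div_iff₀ hc0]
    linarith

private theorem Open_zero {j : κ} {y y' : σ → ι ⊕ σ} (hy : ∀ i, fac f (y i) = i)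
    (hy' : ∀ i, fac f (y' i) = i) (hpart : ∀ i, cdeg f part i j ≠ 0 → part (y i) = part (y' i))
    (h0 : cver f part j y = 0) : cver f part j y = cver f part j y' := by
  refine cver_congr fun i hi => ?_
  have key : ∀ k, fac f k = i → part k = j → k = y i := by
    intro k hk hkj
    have h1 := cver_dot (part := part) hy j k
    rw [h0, zero_dotProduct, if_pos hkj, hk] at h1
    by_contra hne
    rw [if_neg hne, mul_zero, sub_zero] at h1
    exact zero_ne_one h1
  have h1 : part (y i) = j := by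
    obtain ⟨k, hk⟩ := Finset.card_ne_zero.1 (show (Finset.univ.filter fun k =>
      fac f k = i ∧ part k = j).card ≠ 0 from hi)
    obtain ⟨-, hk1, hk2⟩ := Finset.mem_filter.1 hk
    rw [← key k hk1 hk2]
    exact hk2
  exact (key (y' i) (hy' i) (by rw [← hpart i hi]; exact h1)).symm

/-- Heights which are constant on every `sP f part S j` are symmetric. -/
theorem isBlk_of_const {c : κ → ℝ} (hc : ∀ j, ∀ p ∈ sP f part S j, h p = c j) :
    IsBlk f part S Sy h := by
  intro j y y' hy hy' hS hyy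
  have hpart : ∀ i, cdeg f part i j ≠ 0 → part (y i) = part (y' i) := by
    intro i hi
    rcases hyy i hi with h1 | h1
    · rw [h1]
    · exact h1.2
  by_cases h0 : cver f part j y = 0
  · rw [Open_zero hy hy' hpart h0]
  · by_cases h0' : cver f part j y' = 0
    · rw [Open_zero hy' hy (fun i hi => (hpart i hi).symm) h0']
    · rw [hc j _ ⟨h0, y, hy, hS, rfl⟩, hc j _ ⟨h0', y', hy', fun i hi => ?_, rfl⟩]
      rw [← hpart i hi]
      exact hS i hi

omit [DecidableEq κ] in
private theorem Open_null {e : κ → ℝ} (he : e ≠ 0) (f : ℝ) :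
    volume {t : κ → ℝ | ∑ i, e i * t i = f} = 0 := by
  set L : (κ → ℝ) →ₗ[ℝ] ℝ :=
    { toFun := fun m => ∑ i, e i * m i
      map_add' := fun x y => by
        rw [← Finset.sum_add_distrib]
        exact Finset.sum_congr rfl fun i _ => by rw [Pi.add_apply]; ring
      map_smul' := fun c x => by
        rw [RingHom.id_apply, smul_eq_mul, Finset.mul_sum]
        exact Finset.sum_congr rfl fun i _ => by rw [Pi.smul_apply, smul_eq_mul]; ring } with hL
  have hLne : LinearMap.ker L ≠ ⊤ := by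
    intro h
    have h1 : e ∈ LinearMap.ker L := by rw [h]; exact Submodule.mem_top
    have h2 : ∑ i, e i * e i = 0 := LinearMap.mem_ker.1 h1
    have h3 := (Finset.sum_eq_zero_iff_of_nonneg fun i _ => mul_self_nonneg (e i)).1 h2
    exact he (funext fun i => mul_self_eq_zero.1 (h3 i (Finset.mem_univ i)))
  rcases Set.eq_empty_or_nonempty {t : κ → ℝ | ∑ i, e i * t i = f} with h | ⟨m₀, hm₀⟩
  · rw [h]
    exact measure_empty
  · have h1 : {t : κ → ℝ | ∑ i, e i * t i = f} =
        (fun m => m + (-m₀)) ⁻¹' (LinearMap.ker L : Set (κ → ℝ)) := by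
      ext m
      rw [Set.mem_preimage, SetLike.mem_coe, LinearMap.mem_ker, map_add, map_neg]
      have hm₀' : L m₀ = f := hm₀
      rw [hm₀', ← sub_eq_add_neg, sub_eq_zero]
      exact Iff.rfl
    rw [h1, measure_preimage_add_right]
    exact Measure.addHaar_submodule volume _ hLne

/-- The values of the shifts. -/
private theorem Open_val {V : κ → Set (ι → ℝ)}
    (hd : ∀ i j, i ≠ j → Disjoint (V i) (V j)) (t : κ → ℝ) {p : ι → ℝ} {i : κ} (hp : p ∈ V i)
    [∀ j, Decidable (p ∈ V j)] : ∑ j, (if p ∈ V j then t j else 0) = t i := by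
  rw [Finset.sum_eq_single i]
  · rw [if_pos hp]
  · intro j _ hj
    rw [if_neg]
    intro h
    exact Set.disjoint_left.1 (hd i j (Ne.symm hj)) hp h
  · intro h
    exact absurd (Finset.mem_univ i) h

open Classical in
theorem exists_strong_shift {V : κ → Set (ι → ℝ)} (hf : ∀ i, (V i).Finite)
    (hd : ∀ i j, i ≠ j → Disjoint (V i) (V j)) {h : (ι → ℝ) → ℝ} (hh : ∀ p ∈ un V, 0 < h p)
    (hb : ∀ h' : (ι → ℝ) → ℝ, Bornology.IsBounded (poly (un V) h')) {ε : ℝ} (hε : 0 < ε) :
    ∃ t : κ → ℝ, (∀ i, 0 < t i ∧ t i < ε) ∧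
      IsStrong V fun p => h p + ∑ i, if p ∈ V i then t i else 0 := by
  have h2 : ∀ (p : κ → ι → ℝ) (p' : ι → ℝ), ∃ N : Set (κ → ℝ), volume N = 0 ∧ ∀ t ∉ N,
      p' ∈ un V → (∀ j, p' ≠ p j) → p' ∈ Submodule.span ℝ (Set.range p) →
        ∃ (c : κ → ℝ) (i₀ : κ), p' ∈ V i₀ ∧ comb p c = p' ∧
          ∑ i, c i * (h (p i) + t i) ≠ h p' + t i₀ := by
    intro p p'
    by_cases hc : p' ∈ un V ∧ (∀ j, p' ≠ p j) ∧ p' ∈ Submodule.span ℝ (Set.range p)
    · obtain ⟨⟨i₀, hi₀⟩, hne, hsp⟩ := hc
      obtain ⟨c, hc⟩ := (mem_span_iff p p').1 hsp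
      have he : (fun i => c i - if i = i₀ then 1 else 0) ≠ (0 : κ → ℝ) := by
        intro h0
        have h3 : c = Pi.single i₀ 1 := by
          funext i
          have h4 := congrFun h0 i
          simp only [Pi.zero_apply] at h4
          rw [Pi.single_apply]
          linarith
        rw [h3, comb_single, one_smul] at hc
        exact hne i₀ hc.symm
      refine ⟨_, Open_null he (h p' - ∑ i, c i * h (p i)), fun t ht _ _ _ =>
        ⟨c, i₀, hi₀, hc, fun h0 => ?_⟩⟩
      apply ht
      show ∑ i, (c i - if i = i₀ then 1 else 0) * t i = h p' - ∑ i, c i * h (p i)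
      have h5 : ∑ i, (if i = i₀ then (1 : ℝ) else 0) * t i = t i₀ := by
        rw [Finset.sum_eq_single i₀]
        · rw [if_pos rfl, one_mul]
        · intro j _ hj
          rw [if_neg hj, zero_mul]
        · intro h
          exact absurd (Finset.mem_univ _) h
      simp only [mul_add, Finset.sum_add_distrib] at h0
      simp only [sub_mul, Finset.sum_sub_distrib]
      rw [h5]
      linarith
    · exact ⟨∅, measure_empty, fun t _ k1 k2 k3 => absurd ⟨k1, k2, k3⟩ hc⟩
  choose N2 hN2 hN2' using h2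
  set N : Set (κ → ℝ) := ⋃ p ∈ tup V, ⋃ p' ∈ un V, N2 p p' with hN
  have hftup : (tup V).Finite := finite_tup hf
  have hfun : (un V).Finite := finite_un hf
  have hN0 : volume N = 0 :=
    (measure_biUnion_null_iff hftup.countable).2 fun p _ =>
      (measure_biUnion_null_iff hfun.countable).2 fun p' _ => hN2 p p'
  have hbox : IsOpen {t : κ → ℝ | ∀ i, 0 < t i ∧ t i < ε} := by
    have e : {t : κ → ℝ | ∀ i, 0 < t i ∧ t i < ε} = Set.univ.pi fun _ => Set.Ioo 0 ε := by
      ext t
      simp [Set.mem_pi]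
    rw [e]
    exact isOpen_set_pi Set.finite_univ fun _ _ => isOpen_Ioo
  have hpos : 0 < volume {t : κ → ℝ | ∀ i, 0 < t i ∧ t i < ε} :=
    hbox.measure_pos volume ⟨fun _ => ε / 2, fun _ => ⟨half_pos hε, half_lt_self hε⟩⟩
  obtain ⟨t, ht, htN⟩ : ∃ t : κ → ℝ, (∀ i, 0 < t i ∧ t i < ε) ∧ t ∉ N := by
    by_contra hcon
    push Not at hcon
    have : volume {t : κ → ℝ | ∀ i, 0 < t i ∧ t i < ε} ≤ volume N :=
      measure_mono fun t ht => hcon t ht
    rw [hN0] at this
    exact absurd hpos (not_lt.2 this)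
  have hval : ∀ (p : ι → ℝ) (i : κ), p ∈ V i →
      (h p + ∑ j, if p ∈ V j then t j else 0) = h p + t i := fun p i hp => by
    rw [Open_val hd t hp]
  refine ⟨t, ht, fun p hp => ?_, hb _, fun q hq m _ hm q' hq' hne hm' hsp => ?_⟩
  · refine add_pos_of_pos_of_nonneg (hh p hp) (Finset.sum_nonneg fun i _ => ?_)
    split_ifs
    · exact (ht i).1.le
    · exact le_rfl
  · have htq : t ∉ N2 q q' := fun h0 =>
      htN (Set.mem_biUnion hq (Set.mem_biUnion hq' h0))
    obtain ⟨c, i₀, hi₀, hc, hne'⟩ := hN2' q q' t htq hq' hne hsp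
    apply hne'
    have h3 : m ⬝ᵥ comb q c = h q' + t i₀ := by
      rw [hc, hm']
      exact hval q' i₀ hi₀
    rw [dot_comb] at h3
    rw [← h3]
    refine Finset.sum_congr rfl fun i _ => ?_
    rw [hm i]
    exact congrArg _ (hval (q i) i (hq i)).symm

/-- An open set of valuations of all monomials; its centre is constant on every `sP f part S j`. -/
theorem exists_open (hb : ∀ h' : (ι → ℝ) → ℝ, Bornology.IsBounded (poly (un (sP f part S)) h')) :
    ∃ (h₀ : (ι → ℝ) → ℝ) (c : κ → ℝ) (ε : ℝ), 0 < ε ∧ (∀ j, ∀ p ∈ sP f part S j, h₀ p = c j) ∧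
      (∀ j, ∀ p ∈ cfull f part j, 0 < h₀ p) ∧
      ∀ h : (ι → ℝ) → ℝ, (∀ j, ∀ p ∈ cfull f part j, |h p - h₀ p| < ε) →
        IsStrong (sP f part S) h ∧ IsHigh (sP f part S) (cfull f part) h := by
  classical
  have hfin : ∀ j, (sP f part S j).Finite := fun j => (finite_cfull j).subset (sP_subset j)
  have hdis : ∀ i j, i ≠ j → Disjoint (sP f part S i) (sP f part S j) := fun i j hij =>
    (cfull_disjoint hij).mono (sP_subset i) (sP_subset j)
  obtain ⟨t, ht, hstr⟩ := exists_strong_shift (V := sP f part S) hfin hdis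
    (h := fun _ => (1 : ℝ)) (fun _ _ => one_pos) hb (one_pos (α := ℝ))
  obtain ⟨ε₁, hε₁, hopen⟩ := isStrong_open hfin hstr
  set h₁ : (ι → ℝ) → ℝ := fun p => 1 + ∑ i, if p ∈ sP f part S i then t i else 0 with hh₁
  have hval : ∀ j, ∀ p ∈ sP f part S j, h₁ p = 1 + t j := fun j p hp => by
    rw [hh₁]
    show 1 + _ = _
    rw [Open_val hdis t hp]
  -- a bound for all monomials
  have hbd := hb fun p => h₁ p + 1
  obtain ⟨R, hR⟩ := hbd.exists_norm_le
  have hfull : (⋃ j, cfull f part j).Finite := Set.finite_iUnion fun j => finite_cfull j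
  obtain ⟨C, hC0, hC⟩ : ∃ C : ℝ, 0 ≤ C ∧ ∀ j, ∀ p ∈ cfull f part j,
      ∀ n ∈ poly (un (sP f part S)) (fun p => h₁ p + 1), n ⬝ᵥ p ≤ C := by
    refine ⟨∑ p ∈ hfull.toFinset, ∑ i, |R| * |p i|, Finset.sum_nonneg fun p _ =>
      Finset.sum_nonneg fun i _ => by positivity, fun j p hp n hn => ?_⟩
    have h1 : n ⬝ᵥ p ≤ ∑ i, |R| * |p i| := by
      refine Finset.sum_le_sum fun i _ => ?_
      calc n i * p i ≤ |n i * p i| := le_abs_self _
        _ = |n i| * |p i| := abs_mul _ _
        _ ≤ |R| * |p i| := by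
          refine mul_le_mul_of_nonneg_right ?_ (abs_nonneg _)
          have h2 := norm_le_pi_norm n i
          rw [Real.norm_eq_abs] at h2
          exact h2.trans ((hR n hn).trans (le_abs_self R))
    refine h1.trans (Finset.single_le_sum (f := fun p : ι → ℝ => ∑ i, |R| * |p i|)
      (fun p _ => Finset.sum_nonneg fun i _ => by positivity) ?_)
    rw [Set.Finite.mem_toFinset]
    exact Set.mem_iUnion.2 ⟨j, hp⟩
  refine ⟨fun p => if p ∈ un (sP f part S) then h₁ p else C + 2, fun j => 1 + t j,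
    min ε₁ 1, lt_min hε₁ one_pos, fun j p hp => ?_, fun j p hp => ?_, fun h hh => ?_⟩
  · show (if p ∈ un (sP f part S) then h₁ p else C + 2) = 1 + t j
    rw [if_pos ⟨j, hp⟩]
    exact hval j p hp
  · show 0 < (if p ∈ un (sP f part S) then h₁ p else C + 2)
    split_ifs with hpu
    · exact hstr.pos p hpu
    · linarith
  · have hh' : ∀ j, ∀ p ∈ cfull f part j,
        |h p - (if p ∈ un (sP f part S) then h₁ p else C + 2)| < min ε₁ 1 := hh
    have hnear : ∀ p ∈ un (sP f part S), |h p - h₁ p| < min ε₁ 1 := by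
      rintro p ⟨j, hp⟩
      have h1 := hh' j p (sP_subset j hp)
      rw [if_pos (show p ∈ un (sP f part S) from ⟨j, hp⟩)] at h1
      exact h1
    refine ⟨hopen h fun q hq => (hnear q hq).trans_le (min_le_left _ _),
      sP_subset, fun j p hp hpV => Or.inl fun n hn => ?_⟩
    have hpu : p ∉ un (sP f part S) := by
      rintro ⟨j', hp'⟩
      by_cases hjj : j = j'
      · exact hpV (hjj ▸ hp')
      · exact Set.disjoint_left.1 (cfull_disjoint hjj) hp (sP_subset j' hp')
    have h1 := hh' j p hp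
    rw [if_neg hpu] at h1
    have h2 := (abs_lt.1 (h1.trans_le (min_le_right ε₁ 1))).1
    have h3 := hC j p hp n fun q hq => by
      have h4 := hn q hq
      have h5 := (abs_lt.1 ((hnear q hq).trans_le (min_le_right ε₁ 1))).2
      show n ⬝ᵥ q ≤ h₁ q + 1
      linarith
    linarith

end Pool.Agent.H2.PK
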