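import Pool.Agent.H2.PK.FlowEx

/-!
# Bounded polytopes: permuted rows

This generalises `rec_flow` (`Pool.Agent.H2.PK.RecG`) and `rec_wtL` (`Pool.Agent.H2.PK.FlowEx`): the rows of ones are
replaced by the rows `i` with `A i`, where the entries may be `≥ 2`, but `D i j * μ j` is constant on the support. The
proof is the same: let `t` be the homogeneous coordinates of `n`, `y i j` an allowed coordinate with minimal `t` and
`T i j` the sum of `t` over the block `(i, j)`. For `A i` the equation `j` uses the block `(i, nx i j)` only, so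
`D i j * t (y i j) ≤ D i j * T i (nx i j) / D i (nx i j)`, hence `∑ j, μ j * (T i j - D i j * t (y i j)) ≥ 0` (a
permutation of the same sum, as `μ j * D i j` is constant). For the other rows the flow of `exists_row_flow`. So all
inequalities are equalities: for `A i` all `t` of the block `(i, nx i j)` are equal to `t (y i j)`; with `τ i j` for
this common value, `x i j = D i j * (τ i j - τ i (nx i j))` has sum `0` over `i` (other rows contribute `0`), and
`∑ j, μ j * x i j = 0`; apply `flow_zero` to `μ j * x i j`.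
-/

set_option linter.unusedSectionVars false

open Matrix

namespace Pool.Agent.H2.PK

open Pool.Agent.H99.SYZ Pool.Agent.H55.CI Pool.Agent.H2.CI Pool.Agent.H99.ON Pool.Agent.H99.PI

/-- `nx i` permutes the support of the row `i` cyclically, for the rows with `A i`. -/
structure IsCycA {σ κ : Type} (D : σ → κ → ℕ) (A : σ → Prop) (nx : σ → κ → κ) : Prop where
  maps : ∀ i, A i → ∀ j, D i j ≠ 0 → D i (nx i j) ≠ 0
  inj : ∀ i, A i → ∀ j j', D i j ≠ 0 → D i j' ≠ 0 → nx i j = nx i j' → j = j'
  trans : ∀ i, A i → ∀ J : Set κ, (∃ j ∈ J, D i j ≠ 0) →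
    (∀ j ∈ J, D i j ≠ 0 → nx i j ∈ J) → ∀ j, D i j ≠ 0 → j ∈ J

/-- The relation `S7` with permuted rows `A`. -/
def S8 {σ κ : Type} (D : σ → κ → ℕ) (A : σ → Prop) (nx : σ → κ → κ) (jo : σ → κ)
    (Lo : σ → κ → Prop) (i : σ) (j j' : κ) : Prop :=
  D i j' ≠ 0 ∧ ((A i ∧ j' = nx i j) ∨
    (¬ A i ∧ (j = jo i ∨ j' = jo i ∨ (¬ Lo i j ∧ j' = j))))

open Classical in
/-- Weights of the columns: `D i j * μ j` is constant on the rows with `A i`, and in every other row the
weighted sum of the low entries is less than the weighted entry in the column `jo i`. -/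
structure IsWtA {σ κ : Type} [Fintype κ] (D : σ → κ → ℕ) (A : σ → Prop) (jo : σ → κ)
    (Lo : σ → κ → Prop) (μ : κ → ℝ) : Prop where
  pos : ∀ j, 0 < μ j
  const : ∀ i, A i → ∀ j j', D i j ≠ 0 → D i j' ≠ 0 → (D i j : ℝ) * μ j = D i j' * μ j'
  low : ∀ i, ¬ A i → D i (jo i) ≠ 0 ∧ ¬ Lo i (jo i)
  lt : ∀ i, ¬ A i → ∑ j, (if Lo i j then (D i j : ℝ) * μ j else 0) < D i (jo i) * μ (jo i)

section

variable {κ : Type} [Fintype κ] [DecidableEq κ]

/-- One row. -/
private theorem exists_row_flow {w : κ → ℝ} (hw : ∀ j, 0 ≤ w j) {Lo : κ → Prop} {o : κ} (ho : 0 < w o)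
    (hLo : ¬ Lo o) (h : ∑ j, (open Classical in if Lo j then w j else 0) < w o) :
    ∃ m : κ → κ → ℝ, (∀ j j', 0 ≤ m j j') ∧ (∀ j, ∑ j', m j j' = w j) ∧
      (∀ j', ∑ j, m j j' = w j') ∧ (∀ j', w j' ≠ 0 → 0 < m o j') ∧
      ∀ j j', m j j' ≠ 0 → w j' ≠ 0 ∧ (j = o ∨ j' = o ∨ (¬ Lo j ∧ j' = j)) := by
  classical
  set L : ℝ := ∑ j, (if Lo j then w j else 0) with hL
  set R : ℝ := ∑ j, w j with hR
  have hR0 : 0 ≤ R := Finset.sum_nonneg fun j _ => hw j
  have hL' : L < w o := by
    rw [hL]
    exact h
  set s : ℝ := w o - L with hs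
  have hs0 : 0 < s := sub_pos.2 hL'
  set θ : ℝ := s / (s + R + 1) with hθ
  have hden : 0 < s + R + 1 := by linarith
  have hθ0 : 0 < θ := div_pos hs0 hden
  have hθ1 : θ ≤ 1 := by
    rw [hθ, div_le_one hden]
    linarith
  have hθR : θ * R < s := by
    rw [hθ, div_mul_eq_mul_div, div_lt_iff₀ hden]
    nlinarith
  set a : κ → ℝ := fun j => if Lo j then w j else θ * w j with ha
  have ha0 : ∀ j, 0 ≤ a j := by
    intro j
    simp only [ha]
    split_ifs
    · exact hw j
    · exact mul_nonneg hθ0.le (hw j)
  have haw : ∀ j, a j ≤ w j := by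
    intro j
    simp only [ha]
    split_ifs
    · exact le_rfl
    · exact mul_le_of_le_one_left (hw j) hθ1
  have ha1 : ∀ j, w j ≠ 0 → 0 < a j := by
    intro j hj
    have h1 : 0 < w j := lt_of_le_of_ne (hw j) (Ne.symm hj)
    simp only [ha]
    split_ifs
    · exact h1
    · exact mul_pos hθ0 h1
  set A : ℝ := ∑ j, (if j = o then 0 else a j) with hA
  have hAlt : A < w o := by
    have h1 : A ≤ L + θ * R := by
      rw [hA, hL, hR, Finset.mul_sum, ← Finset.sum_add_distrib]
      refine Finset.sum_le_sum fun j _ => ?_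
      have := hw j
      have h2 := mul_nonneg hθ0.le (hw j)
      simp only [ha]
      split_ifs <;> linarith
    linarith
  set m : κ → κ → ℝ := fun j j' => if j = o then (if j' = o then w o - A else a j') else
    if j' = o then a j else if j' = j then w j - a j else 0 with hm
  have hsymm : ∀ j j', m j j' = m j' j := by
    intro j j'
    simp only [hm]
    by_cases h1 : j = o
    · by_cases h2 : j' = o
      · rw [if_pos h1, if_pos h2, if_pos h2, if_pos h1]
      · rw [if_pos h1, if_neg h2, if_neg h2, if_pos h1]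
    · by_cases h2 : j' = o
      · rw [if_neg h1, if_pos h2, if_pos h2, if_neg h1]
      · rw [if_neg h1, if_neg h2, if_neg h2, if_neg h1]
        by_cases h3 : j' = j
        · subst h3
          rfl
        · rw [if_neg h3, if_neg (Ne.symm h3)]
  have hrow : ∀ j, ∑ j', m j j' = w j := by
    intro j
    by_cases h1 : j = o
    · subst h1
      have h2 : ∀ j', m j j' = (if j' = j then w j - A else 0) + (if j' = j then 0 else a j') := by
        intro j'
        simp only [hm, if_true]
        split_ifs <;> ring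
      rw [Finset.sum_congr rfl fun j' _ => h2 j', Finset.sum_add_distrib, Finset.sum_ite_eq',
        if_pos (Finset.mem_univ _)]
      rw [hA]
      ring
    · have h2 : ∀ j', m j j' = (if j' = o then a j else 0) + (if j' = j then w j - a j else 0) := by
        intro j'
        simp only [hm, if_neg h1]
        by_cases h3 : j' = o
        · have h4 : j' ≠ j := fun h => h1 (h.symm.trans h3)
          rw [if_pos h3, if_pos h3, if_neg h4, add_zero]
        · rw [if_neg h3, if_neg h3, zero_add]
      rw [Finset.sum_congr rfl fun j' _ => h2 j', Finset.sum_add_distrib, Finset.sum_ite_eq',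
        if_pos (Finset.mem_univ _), Finset.sum_ite_eq', if_pos (Finset.mem_univ _)]
      ring
  refine ⟨m, ?_, hrow, fun j' => ?_, ?_, ?_⟩
  · intro j j'
    simp only [hm]
    have h1 := haw j
    have h2 := ha0 j
    have h3 := ha0 j'
    split_ifs <;> linarith
  · rw [← hrow j']
    exact Finset.sum_congr rfl fun j _ => hsymm j j'
  · intro j' hj'
    simp only [hm, if_true]
    split_ifs
    · linarith
    · exact ha1 j' hj'
  · intro j j' hne
    simp only [hm] at hne
    by_cases h1 : j = o
    · refine ⟨?_, Or.inl h1⟩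
      by_cases h2 : j' = o
      · rw [h2]
        exact ho.ne'
      · rw [if_pos h1, if_neg h2] at hne
        intro h3
        have := haw j'
        have := ha0 j'
        exact hne (by linarith)
    · by_cases h2 : j' = o
      · refine ⟨?_, Or.inr (Or.inl h2)⟩
        rw [h2]
        exact ho.ne'
      · rw [if_neg h1, if_neg h2] at hne
        by_cases h3 : j' = j
        · rw [if_pos h3] at hne
          refine ⟨fun h4 => ?_, Or.inr (Or.inr ⟨fun h5 => ?_, h3⟩)⟩
          · rw [h3] at h4
            have := haw j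
            have := ha0 j
            exact hne (by linarith)
          · apply hne
            simp only [ha, if_pos h5, sub_self]
        · rw [if_neg h3] at hne
          exact absurd rfl hne

end

variable {ι σ κ : Type} [Fintype ι] [Fintype σ] [Fintype κ] [DecidableEq ι] [DecidableEq σ]
  [DecidableEq κ] {f : ι → σ} {part : ι ⊕ σ → κ}

/-- The pairing with a product of powers in homogeneous coordinates. -/
private theorem dot_cver (n : ι → ℝ) (j : κ) {y : σ → ι ⊕ σ} (hy : ∀ i, fac f (y i) = i) :
    n ⬝ᵥ cver f part j y = (∑ k, if part k = j then (Sum.elim n 0 : ι ⊕ σ → ℝ) k else 0) -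
      ∑ i, (cdeg f part i j : ℝ) * (Sum.elim n 0 : ι ⊕ σ → ℝ) (y i) := by
  have h1 : ∑ i, (cdeg f part i j : ℝ) * (Sum.elim n 0 : ι ⊕ σ → ℝ) (y i) =
      ∑ x : ι, n x * ((cdeg f part (f x) j : ℝ) * (if Sum.inl x = y (f x) then 1 else 0)) := by
    have h2 : ∀ i, (cdeg f part i j : ℝ) * (Sum.elim n 0 : ι ⊕ σ → ℝ) (y i) =
        ∑ x : ι, if f x = i then n x * ((cdeg f part (f x) j : ℝ) *
          (if Sum.inl x = y (f x) then 1 else 0)) else 0 := by
      intro i
      have h3 := hy i
      cases hyi : y i with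
      | inl x₀ =>
        rw [hyi] at h3
        have h4 : f x₀ = i := h3
        rw [Finset.sum_eq_single x₀]
        · rw [if_pos h4, h4, hyi, if_pos rfl]
          show _ * n x₀ = _
          ring
        · intro x _ hx
          by_cases hfx : f x = i
          · rw [if_pos hfx, hfx, hyi, if_neg, mul_zero, mul_zero]
            intro h5
            exact hx (Sum.inl_injective h5)
          · rw [if_neg hfx]
        · intro h
          exact absurd (Finset.mem_univ _) h
      | inr i₀ =>
        rw [Finset.sum_eq_zero]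
        · show _ * (0 : ℝ) = 0
          rw [mul_zero]
        · intro x _
          by_cases hfx : f x = i
          · rw [if_pos hfx, hfx, hyi, if_neg (by simp), mul_zero, mul_zero]
          · rw [if_neg hfx]
    rw [Finset.sum_congr rfl fun i _ => h2 i, Finset.sum_comm]
    refine Finset.sum_congr rfl fun x _ => ?_
    rw [Finset.sum_ite_eq Finset.univ (f x)]
    simp
  rw [h1, Fintype.sum_sum_type]
  have h2 : (∑ i : σ, if part (Sum.inr i) = j then (Sum.elim n 0 : ι ⊕ σ → ℝ) (Sum.inr i) else 0) = 0 := by
    refine Finset.sum_eq_zero fun i _ => ?_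
    simp
  rw [h2, add_zero, ← Finset.sum_sub_distrib]
  unfold dotProduct
  refine Finset.sum_congr rfl fun x _ => ?_
  show n x * cver f part j y x = (if part (Sum.inl x) = j then n x else 0) - _
  unfold cver
  rw [mul_sub]
  congr 1
  split_ifs <;> simp

/-- A block is not empty if its degree is not zero. -/
private theorem exists_coord {i : σ} {j : κ} (h : cdeg f part i j ≠ 0) :
    ∃ k, fac f k = i ∧ part k = j := by
  unfold cdeg at h
  rw [Finset.card_ne_zero] at h
  obtain ⟨k, hk⟩ := h
  exact ⟨k, (Finset.mem_filter.1 hk).2⟩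

private theorem cdeg_ne {k : ι ⊕ σ} : cdeg f part (fac f k) (part k) ≠ 0 := by
  unfold cdeg
  rw [Finset.card_ne_zero]
  exact ⟨k, Finset.mem_filter.2 ⟨Finset.mem_univ _, rfl, rfl⟩⟩

/-- The sum over a block. -/
private noncomputable def bs (f : ι → σ) (part : ι ⊕ σ → κ) (t : ι ⊕ σ → ℝ) (i : σ) (j : κ) : ℝ :=
  ∑ k, if fac f k = i ∧ part k = j then t k else 0

private theorem bs_ge {t : ι ⊕ σ → ℝ} {i : σ} {j : κ} {c : ℝ}
    (h : ∀ k, fac f k = i → part k = j → c ≤ t k) : (cdeg f part i j : ℝ) * c ≤ bs f part t i j := by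
  unfold bs cdeg
  rw [← Finset.sum_filter, ← nsmul_eq_mul]
  refine Finset.card_nsmul_le_sum _ _ _ fun k hk => ?_
  rw [Finset.mem_filter] at hk
  exact h k hk.2.1 hk.2.2

private theorem bs_eq {t : ι ⊕ σ → ℝ} {i : σ} {j : κ} {c : ℝ}
    (h : ∀ k, fac f k = i → part k = j → c ≤ t k) (he : bs f part t i j ≤ (cdeg f part i j : ℝ) * c)
    {k : ι ⊕ σ} (hk1 : fac f k = i) (hk2 : part k = j) : t k = c := by
  unfold bs cdeg at he
  rw [← Finset.sum_filter, ← nsmul_eq_mul] at he
  by_contra hne
  have h1 : c < t k := lt_of_le_of_ne (h k hk1 hk2) (Ne.symm hne)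
  have h2 : ∑ k ∈ Finset.univ.filter fun k => fac f k = i ∧ part k = j, c <
      ∑ k ∈ Finset.univ.filter fun k => fac f k = i ∧ part k = j, t k := by
    refine Finset.sum_lt_sum (fun l hl => ?_) ⟨k, Finset.mem_filter.2 ⟨Finset.mem_univ _, hk1, hk2⟩, h1⟩
    rw [Finset.mem_filter] at hl
    exact h l hl.2.1 hl.2.2
  rw [Finset.sum_const] at h2
  linarith

private theorem bs_const {t : ι ⊕ σ → ℝ} {i : σ} {j : κ} {c : ℝ}
    (h : ∀ k, fac f k = i → part k = j → t k = c) : bs f part t i j = (cdeg f part i j : ℝ) * c := by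
  unfold bs cdeg
  rw [← Finset.sum_filter, ← nsmul_eq_mul, Finset.sum_congr rfl (g := fun _ => c), Finset.sum_const]
  intro k hk
  rw [Finset.mem_filter] at hk
  exact h k hk.2.1 hk.2.2

private theorem sum_part (t : ι ⊕ σ → ℝ) (j : κ) :
    (∑ k, if part k = j then t k else 0) = ∑ i, bs f part t i j := by
  unfold bs
  rw [Finset.sum_comm]
  refine Finset.sum_congr rfl fun k _ => ?_
  by_cases hk : part k = j
  · rw [if_pos hk, Finset.sum_eq_single (fac f k)]
    · rw [if_pos ⟨rfl, hk⟩]
    · intro i _ hi
      rw [if_neg]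
      rintro ⟨h1, -⟩
      exact hi h1.symm
    · intro h
      exact absurd (Finset.mem_univ _) h
  · rw [if_neg hk, Finset.sum_eq_zero]
    intro i _
    rw [if_neg]
    rintro ⟨-, h2⟩
    exact hk h2

open Classical in
theorem rec_wtA {A : σ → Prop}
    (hF : IsForest fun i j => if A i then cdeg f part i j else 0) {nx : σ → κ → κ}
    (hc : IsCycA (cdeg f part) A nx) {S : σ → κ → κ → Prop} {jo : σ → κ} {Lo : σ → κ → Prop}
    {μ : κ → ℝ} (hμ : IsWtA (cdeg f part) A jo Lo μ)
    (hS : ∀ i j j', cdeg f part i j ≠ 0 → cdeg f part i j' ≠ 0 →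
      (S i j j' ↔ S8 (cdeg f part) A nx jo Lo i j j')) {n : ι → ℝ}
    (hn : ∀ p ∈ un (sP f part S), n ⬝ᵥ p ≤ 0) : n = 0 := by
  set D := cdeg f part with hD
  set t : ι ⊕ σ → ℝ := Sum.elim n 0 with ht
  set T : σ → κ → ℝ := bs f part t with hT
  have hDk : ∀ k : ι ⊕ σ, D (fac f k) (part k) ≠ 0 := fun k => cdeg_ne
  have hμp := hμ.pos
  -- the flows
  have hflow : ∀ i, ∃ m : κ → κ → ℝ, (∀ j j', 0 ≤ m j j') ∧ (∀ j, ∑ j', m j j' = D i j * μ j) ∧
      (∀ j', ∑ j, m j j' = D i j' * μ j') ∧ (∀ j j', m j j' ≠ 0 → S8 D A nx jo Lo i j j') ∧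
      (A i → ∀ j, D i j ≠ 0 → 0 < m j (nx i j)) ∧
      (¬ A i → ∀ j', D i j' ≠ 0 → 0 < m (jo i) j') := by
    intro i
    by_cases hi : A i
    · refine ⟨fun j j' => if D i j ≠ 0 ∧ j' = nx i j then D i j * μ j else 0, ?_, ?_, ?_, ?_, ?_,
        fun h => absurd hi h⟩
      · intro j j'
        dsimp only
        split_ifs
        · exact mul_nonneg (Nat.cast_nonneg _) (hμp j).le
        · exact le_rfl
      · intro j
        by_cases h : D i j = 0
        · refine (Finset.sum_eq_zero fun j' _ => ?_).trans (by rw [h, Nat.cast_zero, zero_mul])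
          dsimp only
          rw [if_neg fun h1 => h1.1 h]
        · have h1 : ∀ j', (if D i j ≠ 0 ∧ j' = nx i j then (D i j : ℝ) * μ j else 0) =
              if j' = nx i j then (D i j : ℝ) * μ j else 0 := by
            intro j'
            by_cases h2 : j' = nx i j
            · rw [if_pos ⟨h, h2⟩, if_pos h2]
            · rw [if_neg fun h3 => h2 h3.2, if_neg h2]
          rw [Finset.sum_congr rfl fun j' _ => h1 j', Finset.sum_ite_eq' Finset.univ (nx i j),
            if_pos (Finset.mem_univ _)]
      · intro j'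
        by_cases h : D i j' = 0
        · rw [h, Nat.cast_zero, zero_mul]
          refine Finset.sum_eq_zero fun j _ => ?_
          dsimp only
          rw [if_neg]
          rintro ⟨h1, h2⟩
          exact hc.maps i hi j h1 (h2 ▸ h)
        · -- `nx i` is onto the support
          have hsur : ∃ j, D i j ≠ 0 ∧ nx i j = j' := by
            have h2 : (Finset.univ.filter fun j => D i j ≠ 0).image (nx i) =
                Finset.univ.filter fun j => D i j ≠ 0 := by
              refine Finset.eq_of_subset_of_card_le ?_ ?_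
              · intro j hj
                obtain ⟨j₀, hj₀, rfl⟩ := Finset.mem_image.1 hj
                rw [Finset.mem_filter] at hj₀ ⊢
                exact ⟨Finset.mem_univ _, hc.maps i hi j₀ hj₀.2⟩
              · rw [Finset.card_image_of_injOn]
                intro a ha b hb hab
                rw [Finset.mem_coe, Finset.mem_filter] at ha hb
                exact hc.inj i hi a b ha.2 hb.2 hab
            have h3 : j' ∈ (Finset.univ.filter fun j => D i j ≠ 0).image (nx i) := by
              rw [h2]
              exact Finset.mem_filter.2 ⟨Finset.mem_univ _, h⟩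
            obtain ⟨j, hj, hjj⟩ := Finset.mem_image.1 h3
            exact ⟨j, (Finset.mem_filter.1 hj).2, hjj⟩
          obtain ⟨j, hj, rfl⟩ := hsur
          rw [Finset.sum_eq_single j]
          · dsimp only
            rw [if_pos (And.intro hj rfl)]
            exact hμ.const i hi j _ hj h
          · intro l _ hl
            dsimp only
            rw [if_neg]
            rintro ⟨h1, h2⟩
            exact hl (hc.inj i hi l j h1 hj h2.symm)
          · intro h1
            exact absurd (Finset.mem_univ _) h1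
      · intro j j' h
        dsimp only at h
        have h1 : D i j ≠ 0 ∧ j' = nx i j := by
          by_contra h2
          exact h (if_neg h2)
        refine ⟨?_, Or.inl ⟨hi, h1.2⟩⟩
        rw [h1.2]
        exact hc.maps i hi j h1.1
      · intro _ j hj
        dsimp only
        rw [if_pos ⟨hj, rfl⟩]
        exact mul_pos (by exact_mod_cast Nat.pos_of_ne_zero hj) (hμp j)
    · obtain ⟨h2, h3⟩ := hμ.low i hi
      have h4 : (0 : ℝ) < (D i (jo i) : ℝ) := by exact_mod_cast Nat.pos_of_ne_zero h2
      obtain ⟨m, h5, h6, h7, h8, h9⟩ := exists_row_flow (w := fun j => (D i j : ℝ) * μ j)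
        (fun j => mul_nonneg (Nat.cast_nonneg _) (hμp j).le) (Lo := Lo i) (o := jo i)
        (mul_pos h4 (hμp _)) h3 (hμ.lt i hi)
      refine ⟨m, h5, h6, h7, fun j j' hne => ?_, fun h => absurd h hi, fun _ j' hj' =>
        h8 j' (mul_ne_zero (Nat.cast_ne_zero.2 hj') (hμp j').ne')⟩
      obtain ⟨h10, h11⟩ := h9 j j' hne
      refine ⟨fun h12 => h10 ?_, Or.inr ⟨hi, h11⟩⟩
      rw [h12, Nat.cast_zero, zero_mul]
  choose m hm0 hmrow hmcol hmsupp hmA hmfull using hflow
  -- allowed coordinates
  have hex : ∀ i j, D i j ≠ 0 → ∃ k, (fac f k = i ∧ S8 D A nx jo Lo i j (part k)) ∧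
      ∀ l, fac f l = i → S8 D A nx jo Lo i j (part l) → t k ≤ t l := by
    intro i j hij
    have h1 : (Finset.univ.filter fun k => fac f k = i ∧ S8 D A nx jo Lo i j (part k)).Nonempty := by
      have h2 : ∑ j', m i j j' ≠ 0 := by
        rw [hmrow i j]
        exact mul_ne_zero (Nat.cast_ne_zero.2 hij) (hμp j).ne'
      obtain ⟨j', -, hj'⟩ := Finset.exists_ne_zero_of_sum_ne_zero h2
      have h3 := hmsupp i j j' hj'
      obtain ⟨k, hk1, hk2⟩ := exists_coord h3.1
      refine ⟨k, Finset.mem_filter.2 ⟨Finset.mem_univ _, hk1, ?_⟩⟩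
      rw [hk2]
      exact h3
    obtain ⟨k, hk, hmin⟩ := Finset.exists_min_image _ t h1
    rw [Finset.mem_filter] at hk
    exact ⟨k, hk.2, fun l hl1 hl2 => hmin l (Finset.mem_filter.2 ⟨Finset.mem_univ _, hl1, hl2⟩)⟩
  choose! y hy hymin using hex
  -- the inequality of the equation `j`
  have hR : ∀ j, ∑ i, T i j ≤ ∑ i, (D i j : ℝ) * t (y i j) := by
    intro j
    set y' : σ → ι ⊕ σ := fun i => if D i j ≠ 0 then y i j else Sum.inr i with hy'
    have hfac : ∀ i, fac f (y' i) = i := by
      intro i
      rw [hy']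
      by_cases h : D i j ≠ 0
      · simp only [if_pos h]
        exact (hy i j h).1
      · simp only [if_neg h]
        rfl
    have h1 : n ⬝ᵥ cver f part j y' ≤ 0 := by
      by_cases h0 : cver f part j y' = 0
      · rw [h0, dotProduct_zero]
      · refine hn _ ⟨j, h0, y', hfac, fun i hi => ?_, rfl⟩
        have h2 : y' i = y i j := if_pos hi
        rw [h2]
        have h3 := (hy i j hi).2
        exact (hS i j _ hi h3.1).2 h3
    rw [dot_cver n j hfac, sum_part (f := f)] at h1
    have h2 : ∑ i, (cdeg f part i j : ℝ) * (Sum.elim n 0 : ι ⊕ σ → ℝ) (y' i) =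
        ∑ i, (D i j : ℝ) * t (y i j) := by
      refine Finset.sum_congr rfl fun i _ => ?_
      by_cases h : D i j = 0
      · rw [← hD, h, Nat.cast_zero, zero_mul, zero_mul]
      · have h3 : y' i = y i j := by
          rw [hy']
          simp only [if_pos h]
        rw [h3]
    rw [h2] at h1
    linarith
  have hTz : ∀ i j, D i j = 0 → T i j = 0 := by
    intro i j h
    have h1 := bs_const (f := f) (part := part) (t := t) (i := i) (j := j) (c := 0) (fun k h2 h3 => by
      exfalso
      have := cdeg_ne (f := f) (part := part) (k := k)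
      rw [h2, h3] at this
      exact this h)
    rw [mul_zero] at h1
    exact h1
  have hsplit : ∀ i, ∑ j, μ j * (T i j - (D i j : ℝ) * t (y i j)) =
      ∑ j, ∑ j', m i j j' * (T i j' / D i j' - t (y i j)) := by
    intro i
    simp only [mul_sub, Finset.sum_sub_distrib]
    congr 1
    · rw [Finset.sum_comm]
      refine Finset.sum_congr rfl fun j' _ => ?_
      rw [← Finset.sum_mul, hmcol i j']
      by_cases h : D i j' = 0
      · rw [hTz i j' h, h]
        simp
      · have h1 : (D i j' : ℝ) ≠ 0 := Nat.cast_ne_zero.2 h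
        field_simp
    · refine Finset.sum_congr rfl fun j _ => ?_
      rw [← Finset.sum_mul, hmrow i j]
      ring
  have hterm : ∀ i, ∀ j j', 0 ≤ m i j j' * (T i j' / D i j' - t (y i j)) := by
    intro i j j'
    by_cases h0 : m i j j' = 0
    · rw [h0, zero_mul]
    · refine mul_nonneg (hm0 i j j') ?_
      have hS' := hmsupp i j j' h0
      have hij : D i j ≠ 0 := by
        intro h
        have h4 := hmrow i j
        rw [h, Nat.cast_zero, zero_mul] at h4
        exact h0 ((Finset.sum_eq_zero_iff_of_nonneg fun j' _ => hm0 i j j').1 h4 j'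
          (Finset.mem_univ j'))
      have hij' : D i j' ≠ 0 := hS'.1
      have h5 : (0 : ℝ) < (D i j' : ℝ) := by exact_mod_cast Nat.pos_of_ne_zero hij'
      have h6 := bs_ge (f := f) (part := part) (t := t) (i := i) (j := j') (c := t (y i j))
        fun k hk1 hk2 => hymin i j hij k hk1 (by rw [hk2]; exact hS')
      rw [sub_nonneg, le_div_iff₀ h5]
      rw [mul_comm] at h6
      exact h6
  have hE : ∀ i, 0 ≤ ∑ j, μ j * (T i j - (D i j : ℝ) * t (y i j)) := by
    intro i
    rw [hsplit i]
    exact Finset.sum_nonneg fun j _ => Finset.sum_nonneg fun j' _ => hterm i j j'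
  have hsum : ∑ i, ∑ j, μ j * (T i j - (D i j : ℝ) * t (y i j)) =
      ∑ j, μ j * (∑ i, T i j - ∑ i, (D i j : ℝ) * t (y i j)) := by
    rw [Finset.sum_comm]
    refine Finset.sum_congr rfl fun j _ => ?_
    rw [← Finset.sum_sub_distrib, Finset.mul_sum]
  have hneg : ∀ j, μ j * (∑ i, T i j - ∑ i, (D i j : ℝ) * t (y i j)) ≤ 0 := fun j =>
    mul_nonpos_of_nonneg_of_nonpos (hμp j).le (sub_nonpos.2 (hR j))
  have htot : ∑ i, ∑ j, μ j * (T i j - (D i j : ℝ) * t (y i j)) = 0 :=
    le_antisymm (by rw [hsum]; exact Finset.sum_nonpos fun j _ => hneg j)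
      (Finset.sum_nonneg fun i _ => hE i)
  have hE0 : ∀ i, ∑ j, μ j * (T i j - (D i j : ℝ) * t (y i j)) = 0 := fun i =>
    (Finset.sum_eq_zero_iff_of_nonneg fun i _ => hE i).1 htot i (Finset.mem_univ i)
  have hR0 : ∀ j, ∑ i, (T i j - (D i j : ℝ) * t (y i j)) = 0 := by
    intro j
    rw [hsum] at htot
    have h1 := (Finset.sum_eq_zero_iff_of_nonpos fun j _ => hneg j).1 htot j (Finset.mem_univ j)
    rw [Finset.sum_sub_distrib]
    exact (mul_eq_zero.1 h1).resolve_left (hμp j).ne'
  -- equality in the blocks which carry flow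
  have heq : ∀ i j j', 0 < m i j j' → D i j ≠ 0 → ∀ k, fac f k = i → part k = j' →
      t k = t (y i j) := by
    intro i j j' hpos hij k hk1 hk2
    have h1 := hE0 i
    rw [hsplit i] at h1
    have h3 := (Finset.sum_eq_zero_iff_of_nonneg fun j _ =>
      Finset.sum_nonneg fun j' _ => hterm i j j').1 h1 j (Finset.mem_univ _)
    have h4 := (Finset.sum_eq_zero_iff_of_nonneg fun j' _ => hterm i j j').1 h3 j'
      (Finset.mem_univ _)
    have h5 := (mul_eq_zero.1 h4).resolve_left hpos.ne'
    have hS' := hmsupp i j j' hpos.ne'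
    have h6 : (0 : ℝ) < (D i j' : ℝ) := by exact_mod_cast Nat.pos_of_ne_zero hS'.1
    have h7 : T i j' = t (y i j) * D i j' := by
      rw [sub_eq_zero, div_eq_iff h6.ne'] at h5
      exact h5
    refine bs_eq (f := f) (part := part) (i := i) (j := j') (fun l hl1 hl2 => ?_) ?_ hk1 hk2
    · refine hymin i j hij l hl1 ?_
      rw [hl2]
      exact hS'
    · rw [← hT, h7, mul_comm]
  -- the rows without `A`
  have hconst : ∀ i, ¬ A i → ∀ k l, fac f k = i → fac f l = i → t k = t l := by
    intro i hi
    have hjo : D i (jo i) ≠ 0 := (hμ.low i hi).1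
    have h3 : ∀ k, fac f k = i → t k = t (y i (jo i)) := by
      intro k hk
      have hkj : D i (part k) ≠ 0 := by
        have := hDk k
        rw [hk] at this
        exact this
      exact heq i (jo i) (part k) (hmfull i hi (part k) hkj) hjo k hk rfl
    intro k l hk hl
    rw [h3 k hk, h3 l hl]
  -- the rows with `A`
  have hblk : ∀ i, A i → ∀ j, D i j ≠ 0 → ∀ k, fac f k = i → part k = nx i j → t k = t (y i j) :=
    fun i hi j hij k hk1 hk2 => heq i j (nx i j) (hmA i hi j hij) hij k hk1 hk2
  have hTn : ∀ i, A i → ∀ j, D i j ≠ 0 → T i (nx i j) = (D i (nx i j) : ℝ) * t (y i j) :=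
    fun i hi j hij => bs_const (f := f) (part := part) (t := t) (i := i) (j := nx i j)
      (c := t (y i j)) (hblk i hi j hij)
  have hx : ∀ i j, μ j * (T i j - (D i j : ℝ) * t (y i j)) = 0 := by
    refine flow_zero hF ?_ hE0 ?_
    · intro i j hij
      by_cases hi : A i
      · have h1 : D i j = 0 := by
          have h2 : (if A i then D i j else 0) = D i j := if_pos hi
          rw [← h2]
          exact hij
        rw [hTz i j h1, h1]
        simp
      · by_cases h1 : D i j = 0
        · rw [hTz i j h1, h1]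
          simp
        · have h2 := bs_const (f := f) (part := part) (t := t) (i := i) (j := j) (c := t (y i j))
            fun k hk1 _ => hconst i hi k (y i j) hk1 (hy i j h1).1
          have h3 : T i j = (D i j : ℝ) * t (y i j) := h2
          rw [h3, sub_self, mul_zero]
    · intro j
      rw [← Finset.mul_sum, hR0 j, mul_zero]
  have hx' : ∀ i j, T i j = (D i j : ℝ) * t (y i j) := by
    intro i j
    have h1 := (mul_eq_zero.1 (hx i j)).resolve_left (hμp j).ne'
    linarith
  have hall : ∀ k l, fac f k = fac f l → t k = t l := by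
    intro k l hkl
    by_cases hi : A (fac f k)
    · obtain ⟨i, hik⟩ : ∃ i, fac f k = i := ⟨_, rfl⟩
      have hil : fac f l = i := hkl ▸ hik
      rw [hik] at hi
      have hDi : ∀ k, fac f k = i → D i (part k) ≠ 0 := by
        intro k hk
        have := hDk k
        rw [hk] at this
        exact this
      -- the value of a block
      have hval : ∀ j, D i j ≠ 0 → t (y i (nx i j)) = t (y i j) := by
        intro j hj
        have h1 := hTn i hi j hj
        rw [hx' i (nx i j)] at h1
        exact mul_left_cancel₀ (Nat.cast_ne_zero.2 (hc.maps i hi j hj)) h1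
      have htr : ∀ j, D i j ≠ 0 → t (y i j) = t (y i (part k)) := by
        refine hc.trans i hi {j | t (y i j) = t (y i (part k))} ⟨part k, rfl, hDi k hik⟩ ?_
        intro j hj hDj
        show t (y i (nx i j)) = _
        rw [hval j hDj]
        exact hj
      -- every coordinate
      have hcoord : ∀ k', fac f k' = i → t k' = t (y i (part k)) := by
        intro k' hk'
        have h1 : ∃ j, D i j ≠ 0 ∧ 0 < m i j (part k') := by
          by_contra h2
          push Not at h2
          have h3 : ∑ j, m i j (part k') ≤ 0 := by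
            refine Finset.sum_nonpos fun j _ => ?_
            by_cases hj : D i j = 0
            · have h4 := hmrow i j
              rw [hj, Nat.cast_zero, zero_mul] at h4
              exact ((Finset.sum_eq_zero_iff_of_nonneg fun j' _ => hm0 i j j').1 h4 (part k')
                (Finset.mem_univ _)).le
            · exact h2 j hj
          rw [hmcol i (part k')] at h3
          have h5 : (0 : ℝ) < D i (part k') := by exact_mod_cast Nat.pos_of_ne_zero (hDi k' hk')
          have h6 := mul_pos h5 (hμp (part k'))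
          linarith
        obtain ⟨j, hj, hmj⟩ := h1
        rw [heq i j (part k') hmj hj k' hk' rfl, htr j hj]
      rw [hcoord k hik, hcoord l hil]
    · exact hconst _ hi k l rfl hkl.symm
  funext x
  exact hall (Sum.inl x) (Sum.inr (f x)) rfl

end Pool.Agent.H2.PK
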