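import Pool.Agent.H2.PK.Defs
import Pool.Agent.H99.PI.BVec

/-!
# Allowed powers and transpositions

`sP_subset` follows from `cP_subset` (`Pool.Agent.H99.PI.BVec`). `sP_mono`: clear. `refl_cver`: as `PBase_refl_ver` in
`Pool.Agent.H99.ON.PBase` (there for `pver`); use `ext_pray`, `cver_dot`, `pcor_dot`. `s_sym`: as `p_sym` in
`Pool.Agent.H99.ON.PBase`: the reflection `refl (pcor k l) (pray f k - pray f l)` exchanges `k` and `l` in the
exponents, `refl (pray f k - pray f l) (pcor k l)` exchanges the rays `k` and `l`. `s_sep`: if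
`y j (fac f (z j')) = z j'` is in a symmetric block with another element `k'` then the transposition of `z j'` and
`k'` separates: `cver f part j y ⬝ (pray (z j') - pray k') = -cdeg < 0` and `pray (z j') ⬝ pcor (z j') k' = 1`.
-/

set_option linter.unusedSectionVars false

open MeasureTheory Matrix
open scoped ENNReal

namespace Pool.Agent.H2.PK

open Pool.Agent.H99.SYZ Pool.Agent.H55.CI Pool.Agent.H2.CI Pool.Agent.H99.ON Pool.Agent.H99.PI
open Pool.Agent.H61.OT (IsPlan IsOptimal refl)

variable {ι σ κ : Type} [Fintype ι] [Fintype σ] [Fintype κ] [DecidableEq ι] [DecidableEq σ]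
  [DecidableEq κ] {f : ι → σ} {part : ι ⊕ σ → κ} {S S' : σ → κ → κ → Prop} {Sy : σ → κ → Prop}
  {P : κ → Set (ι → ℝ)} {g h : (ι → ℝ) → ℝ}

theorem sP_subset (j : κ) : sP f part S j ⊆ cfull f part j := by
  rintro p ⟨h0, y, hy, -, hp⟩
  exact cP_subset j ⟨h0, y, hy, hp⟩

/-- `sP` is monotone in `S` (only the blocks which exist matter). -/
theorem sP_mono (H : ∀ i j j', cdeg f part i j ≠ 0 → cdeg f part i j' ≠ 0 → S i j j' → S' i j j')
    (j : κ) : sP f part S j ⊆ sP f part S' j := by
  rintro p ⟨h0, y, hy, hS, hp⟩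
  refine ⟨h0, y, hy, fun i hi => H i j _ hi ?_ (hS i hi), hp⟩
  intro h1
  unfold cdeg at h1
  rw [Finset.card_eq_zero, Finset.filter_eq_empty_iff] at h1
  exact h1 (Finset.mem_univ (y i)) ⟨hy i, rfl⟩

private theorem fac_swap {k l : ι ⊕ σ} (hfac : fac f k = fac f l) (m : ι ⊕ σ) :
    fac f (Equiv.swap k l m) = fac f m := by
  by_cases hm : m = k
  · subst hm
    rw [Equiv.swap_apply_left, hfac]
  · by_cases hm' : m = l
    · subst hm'
      rw [Equiv.swap_apply_right, hfac]
    · rw [Equiv.swap_apply_of_ne_of_ne hm hm']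

private theorem part_swap {k l : ι ⊕ σ} (hpart : part k = part l) (m : ι ⊕ σ) :
    part (Equiv.swap k l m) = part m := by
  by_cases hm : m = k
  · subst hm
    rw [Equiv.swap_apply_left, hpart]
  · by_cases hm' : m = l
    · subst hm'
      rw [Equiv.swap_apply_right, hpart]
    · rw [Equiv.swap_apply_of_ne_of_ne hm hm']

theorem refl_cver {k l : ι ⊕ σ} (hkl : k ≠ l) (hfac : fac f k = fac f l)
    (hpart : part k = part l) {y : σ → ι ⊕ σ} (hy : ∀ i, fac f (y i) = i) (j : κ) :
    refl (pcor k l) (pray f k - pray f l) (cver f part j y) =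
      cver f part j (fun i => Equiv.swap k l (y i)) := by
  have hv' : ∀ i, fac f (Equiv.swap k l (y i)) = i := fun i => by
    rw [fac_swap hfac, hy i]
  refine ext_pray (f := f) fun m => ?_
  unfold Pool.Agent.H61.OT.refl
  rw [sub_dotProduct, smul_dotProduct, smul_eq_mul, dotProduct_sub, cver_dot hy j m,
    cver_dot hy j k, cver_dot hy j l, pcor_dot hfac m, cver_dot hv' j m]
  have e : (m = Equiv.swap k l (y (fac f m))) ↔ (Equiv.swap k l m = y (fac f m)) :=
    Equiv.swap_apply_eq_iff.symm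
  by_cases hm : m = k
  · subst hm
    have e2 : (m = Equiv.swap m l (y (fac f m))) ↔ l = y (fac f l) := by
      rw [e, Equiv.swap_apply_left, hfac]
    rw [if_pos (rfl : m = m), if_neg hkl, hpart]
    by_cases h1 : l = y (fac f l)
    · rw [if_pos h1, if_pos (e2.2 h1), hfac]
      ring
    · rw [if_neg h1, if_neg (fun h => h1 (e2.1 h))]
      ring
  · by_cases hm' : m = l
    · subst hm'
      have e2 : (m = Equiv.swap k m (y (fac f m))) ↔ k = y (fac f k) := by
        rw [e, Equiv.swap_apply_right, hfac]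
      rw [if_neg hm, if_pos (rfl : m = m), hpart]
      by_cases h1 : k = y (fac f k)
      · rw [if_pos h1, if_pos (e2.2 h1), hfac]
        ring
      · rw [if_neg h1, if_neg (fun h => h1 (e2.1 h))]
        ring
    · have e2 : (m = Equiv.swap k l (y (fac f m))) ↔ m = y (fac f m) := by
        rw [e, Equiv.swap_apply_of_ne_of_ne hm hm']
      rw [if_neg hm, if_neg hm']
      by_cases h1 : m = y (fac f m)
      · rw [if_pos h1, if_pos (e2.2 h1)]
        ring
      · rw [if_neg h1, if_neg (fun h => h1 (e2.1 h))]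
        ring

private theorem refl_pray {k l : ι ⊕ σ} (hkl : k ≠ l) (hfac : fac f k = fac f l)
    (m : ι ⊕ σ) :
    refl (pray f k - pray f l) (pcor k l) (pray f m) = pray f (Equiv.swap k l m) := by
  have h1 := pcor_dot hfac m
  unfold Pool.Agent.H61.OT.refl
  rw [dotProduct_comm, h1]
  by_cases hm : m = k
  · subst hm
    rw [if_pos rfl, if_neg hkl, Equiv.swap_apply_left]
    simp
  · by_cases hm' : m = l
    · subst hm'
      rw [if_neg hm, if_pos rfl, Equiv.swap_apply_right]
      simp
    · rw [if_neg hm, if_neg hm', Equiv.swap_apply_of_ne_of_ne hm hm']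
      simp

private theorem root_two {k l : ι ⊕ σ} (hkl : k ≠ l) (hfac : fac f k = fac f l) :
    pcor k l ⬝ᵥ (pray f k - pray f l) = 2 := by
  rw [dotProduct_sub, pcor_dot hfac, pcor_dot hfac, if_pos rfl, if_neg hkl,
    if_neg hkl.symm, if_pos rfl]
  norm_num

/-- The transpositions are symmetries. -/
theorem s_sym (hh : IsBlk f part S Sy h)
    (hg : ∀ k l, fac f k = fac f l → g (pray f k) = g (pray f l)) :
    IsSym (sP f part S) (cQ f part) (sR f part Sy) g h := by
  refine ⟨?_, ?_, ?_, ?_⟩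
  · refine (Set.finite_range fun x : (ι ⊕ σ) × (ι ⊕ σ) =>
      ((pcor x.1 x.2 : ι → ℝ), pray f x.1 - pray f x.2)).subset ?_
    rintro r ⟨k, l, -, -, -, -, rfl⟩
    exact ⟨(k, l), rfl⟩
  · rintro r ⟨k, l, hkl, hfac, -, -, rfl⟩
    exact root_two hkl hfac
  · rintro r ⟨k, l, hkl, hfac, hpart, hSy, rfl⟩ j p ⟨hp0, y, hy, hyS, rfl⟩
    show refl (pcor k l) (pray f k - pray f l) (cver f part j y) ∈ sP f part S j ∧
      h (refl (pcor k l) (pray f k - pray f l) (cver f part j y)) = h (cver f part j y)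
    have hne : refl (pcor k l) (pray f k - pray f l) (cver f part j y) ≠ 0 := by
      intro h0
      apply hp0
      unfold Pool.Agent.H61.OT.refl at h0
      rw [sub_eq_zero] at h0
      have h1 := congrArg (fun m => m ⬝ᵥ (pray f k - pray f l)) h0
      simp only [smul_dotProduct, root_two hkl hfac, smul_eq_mul] at h1
      have h2 : cver f part j y ⬝ᵥ (pray f k - pray f l) = 0 := by linarith
      rw [h0, h2, zero_smul]
    rw [refl_cver hkl hfac hpart hy j] at hne ⊢
    have hfy : ∀ i, fac f (Equiv.swap k l (y i)) = i := fun i => by rw [fac_swap hfac, hy i]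
    refine ⟨⟨hne, _, hfy, fun i hi => ?_, rfl⟩, ?_⟩
    · rw [part_swap hpart]
      exact hyS i hi
    · refine (hh j y _ hy hfy hyS fun i _ => ?_).symm
      by_cases h1 : y i = k
      · right
        rw [part_swap hpart, h1]
        refine ⟨?_, rfl⟩
        rw [← hy i, h1]
        exact hSy
      · by_cases h2 : y i = l
        · right
          rw [part_swap hpart, h2]
          refine ⟨?_, rfl⟩
          rw [← hy i, h2, ← hfac, ← hpart]
          exact hSy
        · left
          rw [Equiv.swap_apply_of_ne_of_ne h1 h2]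
  · rintro r ⟨k, l, hkl, hfac, hpart, hSy, rfl⟩ j q ⟨m, hm, rfl⟩
    show refl (pray f k - pray f l) (pcor k l) (pray f m) ∈ cQ f part j ∧
      g (refl (pray f k - pray f l) (pcor k l) (pray f m)) = g (pray f m)
    rw [refl_pray hkl hfac m]
    exact ⟨⟨_, by rw [part_swap hpart, hm], rfl⟩, hg _ _ (fac_swap hfac m)⟩

/-- Transpositions separate. -/
theorem s_sep {y : κ → σ → ι ⊕ σ} (hy : ∀ j i, fac f (y j i) = i) {z : κ → ι ⊕ σ}
    (hz : ∀ j, part (z j) = j) {j j' : κ} (he : z j' = y j (fac f (z j')))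
    (h0 : cdeg f part (fac f (z j')) j ≠ 0) (hS : Sy (fac f (z j')) j')
    (h1 : cdeg f part (fac f (z j')) j' ≠ 1) :
    ∃ r ∈ sR f part Sy, (cver f part j (y j) ⬝ᵥ r.2) * (pray f (z j') ⬝ᵥ r.1) < 0 := by
  have hmem : z j' ∈ Finset.univ.filter fun k => fac f k = fac f (z j') ∧ part k = j' :=
    Finset.mem_filter.2 ⟨Finset.mem_univ _, rfl, hz j'⟩
  have hcard : 1 < (Finset.univ.filter fun k => fac f k = fac f (z j') ∧ part k = j').card := by
    have h2 : 0 < (Finset.univ.filter fun k => fac f k = fac f (z j') ∧ part k = j').card :=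
      Finset.card_pos.2 ⟨_, hmem⟩
    unfold cdeg at h1
    omega
  obtain ⟨k, hk, hne⟩ := Finset.exists_mem_ne hcard (z j')
  obtain ⟨-, hk1, hk2⟩ := Finset.mem_filter.1 hk
  refine ⟨(pcor (z j') k, pray f (z j') - pray f k), ⟨z j', k, Ne.symm hne, hk1.symm, ?_, ?_, rfl⟩, ?_⟩
  · rw [hz j', hk2]
  · rw [hz j']
    exact hS
  · show (cver f part j (y j) ⬝ᵥ (pray f (z j') - pray f k)) * (pray f (z j') ⬝ᵥ pcor (z j') k) < 0
    rw [dotProduct_sub, cver_dot (hy j), cver_dot (hy j), dotProduct_comm (pray f (z j')),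
      pcor_dot hk1.symm, if_pos rfl, if_neg (Ne.symm hne), if_pos he, hk1, ← he, if_neg hne, hz j', hk2]
    have h3 : (0 : ℝ) < (cdeg f part (fac f (z j')) j : ℝ) := by
      exact_mod_cast Nat.pos_of_ne_zero h0
    simp only [mul_one, mul_zero, sub_zero]
    linarith

end Pool.Agent.H2.PK
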