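import Pool.Agent.H2.PK.Flow
import Pool.Agent.H2.PK.Vec

/-!
# Bounded polytopes: flows

A certificate for the boundedness of the polytope of the allowed powers: weights `μ` of the columns and,
for every row which is not a row of ones, a balanced flow `m i j j'` from the equation `j` to the block
`(i, j')`.
-/

set_option linter.unusedSectionVars false

open Matrix

namespace Pool.Agent.H2.PK

open Pool.Agent.H99.SYZ Pool.Agent.H55.CI Pool.Agent.H2.CI Pool.Agent.H99.ON Pool.Agent.H99.PI

/-- Balanced flows supported on `S`, positive from the equation `jo i` to all blocks. -/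
structure IsFlow {σ κ : Type} [Fintype κ] (D : σ → κ → ℕ) (S : σ → κ → κ → Prop) (nx : σ → κ → κ)
    (jo : σ → κ) (μ : κ → ℝ) (m : σ → κ → κ → ℝ) : Prop where
  pos : ∀ j, 0 < μ j
  const : ∀ i, IsOnes D i → ∀ j j', D i j ≠ 0 → D i j' ≠ 0 → μ j = μ j'
  ones : ∀ i, IsOnes D i → ∀ j j', D i j ≠ 0 → D i j' ≠ 0 → (S i j j' ↔ j' = nx i j)
  nonneg : ∀ i, ¬ IsOnes D i → ∀ j j', 0 ≤ m i j j'
  supp : ∀ i, ¬ IsOnes D i → ∀ j j', m i j j' ≠ 0 → S i j j'
  row : ∀ i, ¬ IsOnes D i → ∀ j, ∑ j', m i j j' = D i j * μ j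
  col : ∀ i, ¬ IsOnes D i → ∀ j', ∑ j, m i j j' = D i j' * μ j'
  full : ∀ i, ¬ IsOnes D i → ∀ j', D i j' ≠ 0 → 0 < m i (jo i) j'

variable {ι σ κ : Type} [Fintype ι] [Fintype σ] [Fintype κ] [DecidableEq ι] [DecidableEq σ]
  [DecidableEq κ] {f : ι → σ} {part : ι ⊕ σ → κ}

/-- The pairing with a product of powers in homogeneous coordinates. -/
private theorem dot_cver (n : ι → ℝ) (j : κ) {y : σ → ι ⊕ σ} (hy : ∀ i, fac f (y i) = i) :
    n ⬝ᵥ cver f part j y = (∑ k, if part k = j then (Sum.elim n 0 : ι ⊕ σ → ℝ) k else 0) -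
      ∑ i, (cdeg f part i j : ℝ) * (Sum.elim n 0 : ι ⊕ σ → ℝ) (y i) := by
  have h1 : ∑ i, (cdeg f part i j : ℝ) * (Sum.elim n 0 : ι ⊕ σ → ℝ) (y i) =
      ∑ x : ι, n x * ((cdeg f part (f x) j : ℝ) * (if Sum.inl x = y (f x) then 1 else 0)) := by
    have h2 : ∀ i, (cdeg f part i j : ℝ) * (Sum.elim n 0 : ι ⊕ σ → ℝ) (y i) =
        ∑ x : ι, if f x = i then n x * ((cdeg f part (f x) j : ℝ) *
          (if Sum.inl x = y (f x) then 1 else 0)) else 0 := by
      intro i
      have h3 := hy i
      cases hyi : y i with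
      | inl x₀ =>
        rw [hyi] at h3
        have h4 : f x₀ = i := h3
        rw [Finset.sum_eq_single x₀]
        · rw [if_pos h4, h4, hyi, if_pos rfl]
          show _ * n x₀ = _
          ring
        · intro x _ hx
          by_cases hfx : f x = i
          · rw [if_pos hfx, hfx, hyi, if_neg, mul_zero, mul_zero]
            intro h5
            exact hx (Sum.inl_injective h5)
          · rw [if_neg hfx]
        · intro h
          exact absurd (Finset.mem_univ _) h
      | inr i₀ =>
        rw [Finset.sum_eq_zero]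
        · show _ * (0 : ℝ) = 0
          rw [mul_zero]
        · intro x _
          by_cases hfx : f x = i
          · rw [if_pos hfx, hfx, hyi, if_neg (by simp), mul_zero, mul_zero]
          · rw [if_neg hfx]
    rw [Finset.sum_congr rfl fun i _ => h2 i, Finset.sum_comm]
    refine Finset.sum_congr rfl fun x _ => ?_
    rw [Finset.sum_ite_eq Finset.univ (f x)]
    simp
  rw [h1, Fintype.sum_sum_type]
  have h2 : (∑ i : σ, if part (Sum.inr i) = j then (Sum.elim n 0 : ι ⊕ σ → ℝ) (Sum.inr i) else 0) = 0 := by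
    refine Finset.sum_eq_zero fun i _ => ?_
    simp
  rw [h2, add_zero, ← Finset.sum_sub_distrib]
  unfold dotProduct
  refine Finset.sum_congr rfl fun x _ => ?_
  show n x * cver f part j y x = (if part (Sum.inl x) = j then n x else 0) - _
  unfold cver
  rw [mul_sub]
  congr 1
  split_ifs <;> simp

/-- A block is not empty if its degree is not zero. -/
private theorem exists_coord {i : σ} {j : κ} (h : cdeg f part i j ≠ 0) :
    ∃ k, fac f k = i ∧ part k = j := by
  unfold cdeg at h
  rw [Finset.card_ne_zero] at h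
  obtain ⟨k, hk⟩ := h
  exact ⟨k, (Finset.mem_filter.1 hk).2⟩

private theorem cdeg_ne {k : ι ⊕ σ} : cdeg f part (fac f k) (part k) ≠ 0 := by
  unfold cdeg
  rw [Finset.card_ne_zero]
  exact ⟨k, Finset.mem_filter.2 ⟨Finset.mem_univ _, rfl, rfl⟩⟩

/-- The sum over a block. -/
private noncomputable def bs (f : ι → σ) (part : ι ⊕ σ → κ) (t : ι ⊕ σ → ℝ) (i : σ) (j : κ) : ℝ :=
  ∑ k, if fac f k = i ∧ part k = j then t k else 0

private theorem bs_ge {t : ι ⊕ σ → ℝ} {i : σ} {j : κ} {c : ℝ}
    (h : ∀ k, fac f k = i → part k = j → c ≤ t k) : (cdeg f part i j : ℝ) * c ≤ bs f part t i j := by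
  unfold bs cdeg
  rw [← Finset.sum_filter, ← nsmul_eq_mul]
  refine Finset.card_nsmul_le_sum _ _ _ fun k hk => ?_
  rw [Finset.mem_filter] at hk
  exact h k hk.2.1 hk.2.2

private theorem bs_eq {t : ι ⊕ σ → ℝ} {i : σ} {j : κ} {c : ℝ}
    (h : ∀ k, fac f k = i → part k = j → c ≤ t k) (he : bs f part t i j ≤ (cdeg f part i j : ℝ) * c)
    {k : ι ⊕ σ} (hk1 : fac f k = i) (hk2 : part k = j) : t k = c := by
  unfold bs cdeg at he
  rw [← Finset.sum_filter, ← nsmul_eq_mul] at he
  by_contra hne
  have h1 : c < t k := lt_of_le_of_ne (h k hk1 hk2) (Ne.symm hne)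
  have h2 : ∑ k ∈ Finset.univ.filter fun k => fac f k = i ∧ part k = j, c <
      ∑ k ∈ Finset.univ.filter fun k => fac f k = i ∧ part k = j, t k := by
    refine Finset.sum_lt_sum (fun l hl => ?_) ⟨k, Finset.mem_filter.2 ⟨Finset.mem_univ _, hk1, hk2⟩, h1⟩
    rw [Finset.mem_filter] at hl
    exact h l hl.2.1 hl.2.2
  rw [Finset.sum_const] at h2
  linarith

private theorem bs_const {t : ι ⊕ σ → ℝ} {i : σ} {j : κ} {c : ℝ}
    (h : ∀ k, fac f k = i → part k = j → t k = c) : bs f part t i j = (cdeg f part i j : ℝ) * c := by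
  unfold bs cdeg
  rw [← Finset.sum_filter, ← nsmul_eq_mul, Finset.sum_congr rfl (g := fun _ => c), Finset.sum_const]
  intro k hk
  rw [Finset.mem_filter] at hk
  exact h k hk.2.1 hk.2.2

/-- A block with one element. -/
private theorem bs_one {t : ι ⊕ σ → ℝ} {k : ι ⊕ σ} (h : cdeg f part (fac f k) (part k) ≤ 1) :
    bs f part t (fac f k) (part k) = t k := by
  unfold bs
  rw [Finset.sum_eq_single k]
  · rw [if_pos ⟨rfl, rfl⟩]
  · intro l _ hl
    rw [if_neg]
    rintro ⟨h1, h2⟩
    unfold cdeg at h
    exact hl (Finset.card_le_one.1 h l (Finset.mem_filter.2 ⟨Finset.mem_univ _, h1, h2⟩) k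
      (Finset.mem_filter.2 ⟨Finset.mem_univ _, rfl, rfl⟩))
  · intro h
    exact absurd (Finset.mem_univ _) h

private theorem sum_part (t : ι ⊕ σ → ℝ) (j : κ) :
    (∑ k, if part k = j then t k else 0) = ∑ i, bs f part t i j := by
  unfold bs
  rw [Finset.sum_comm]
  refine Finset.sum_congr rfl fun k _ => ?_
  by_cases hk : part k = j
  · rw [if_pos hk, Finset.sum_eq_single (fac f k)]
    · rw [if_pos ⟨rfl, hk⟩]
    · intro i _ hi
      rw [if_neg]
      rintro ⟨h1, -⟩
      exact hi h1.symm
    · intro h
      exact absurd (Finset.mem_univ _) h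
  · rw [if_neg hk, Finset.sum_eq_zero]
    intro i _
    rw [if_neg]
    rintro ⟨-, h2⟩
    exact hk h2

theorem rec_flow (hF : IsForest (onesM (cdeg f part))) {nx : σ → κ → κ}
    (hc : IsCyc (cdeg f part) nx) {S : σ → κ → κ → Prop} {jo : σ → κ} {μ : κ → ℝ}
    {m : σ → κ → κ → ℝ} (hm : IsFlow (cdeg f part) S nx jo μ m) {n : ι → ℝ}
    (hn : ∀ p ∈ un (sP f part S), n ⬝ᵥ p ≤ 0) : n = 0 := by
  classical
  set D := cdeg f part with hD
  set t : ι ⊕ σ → ℝ := Sum.elim n 0 with ht
  set T : σ → κ → ℝ := bs f part t with hT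
  -- allowed coordinates
  have hex : ∀ i j, D i j ≠ 0 → ∃ k, (fac f k = i ∧ S i j (part k)) ∧
      ∀ l, fac f l = i → S i j (part l) → t k ≤ t l := by
    intro i j hij
    have h1 : (Finset.univ.filter fun k => fac f k = i ∧ S i j (part k)).Nonempty := by
      by_cases hi : IsOnes D i
      · have h2 := hc.maps i hi j hij
        obtain ⟨k, hk1, hk2⟩ := exists_coord h2
        refine ⟨k, Finset.mem_filter.2 ⟨Finset.mem_univ _, hk1, ?_⟩⟩
        rw [hk2]
        exact (hm.ones i hi j _ hij h2).2 rfl
      · have h2 : ∑ j', m i j j' ≠ 0 := by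
          rw [hm.row i hi j]
          exact mul_ne_zero (Nat.cast_ne_zero.2 hij) (hm.pos j).ne'
        obtain ⟨j', -, hj'⟩ := Finset.exists_ne_zero_of_sum_ne_zero h2
        have h3 : D i j' ≠ 0 := by
          intro h0
          have h4 := hm.col i hi j'
          rw [h0, Nat.cast_zero, zero_mul] at h4
          exact hj' ((Finset.sum_eq_zero_iff_of_nonneg fun j _ => hm.nonneg i hi j j').1 h4 j
            (Finset.mem_univ j))
        obtain ⟨k, hk1, hk2⟩ := exists_coord h3
        refine ⟨k, Finset.mem_filter.2 ⟨Finset.mem_univ _, hk1, ?_⟩⟩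
        rw [hk2]
        exact hm.supp i hi j j' hj'
    obtain ⟨k, hk, hmin⟩ := Finset.exists_min_image _ t h1
    rw [Finset.mem_filter] at hk
    exact ⟨k, hk.2, fun l hl1 hl2 => hmin l (Finset.mem_filter.2 ⟨Finset.mem_univ _, hl1, hl2⟩)⟩
  choose! y hy hymin using hex
  -- the inequality of the equation `j`
  have hR : ∀ j, ∑ i, T i j ≤ ∑ i, (D i j : ℝ) * t (y i j) := by
    intro j
    set y' : σ → ι ⊕ σ := fun i => if D i j ≠ 0 then y i j else Sum.inr i with hy'
    have hfac : ∀ i, fac f (y' i) = i := by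
      intro i
      rw [hy']
      by_cases h : D i j ≠ 0
      · simp only [if_pos h]
        exact (hy i j h).1
      · simp only [if_neg h]
        rfl
    have h1 : n ⬝ᵥ cver f part j y' ≤ 0 := by
      by_cases h0 : cver f part j y' = 0
      · rw [h0, dotProduct_zero]
      · refine hn _ ⟨j, h0, y', hfac, fun i hi => ?_, rfl⟩
        have h2 : y' i = y i j := if_pos hi
        rw [h2]
        exact (hy i j hi).2
    rw [dot_cver n j hfac, sum_part (f := f)] at h1
    have h2 : ∑ i, (cdeg f part i j : ℝ) * (Sum.elim n 0 : ι ⊕ σ → ℝ) (y' i) =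
        ∑ i, (D i j : ℝ) * t (y i j) := by
      refine Finset.sum_congr rfl fun i _ => ?_
      by_cases h : D i j = 0
      · rw [← hD, h, Nat.cast_zero, zero_mul, zero_mul]
      · have h3 : y' i = y i j := by
          rw [hy']
          simp only [if_pos h]
        rw [h3]
    rw [h2] at h1
    linarith
  -- the rows
  have hones : ∀ i, IsOnes D i → ∀ j, D i j ≠ 0 → (D i j : ℝ) * t (y i j) = T i (nx i j) := by
    intro i hi j hij
    obtain ⟨h1, h2⟩ := hy i j hij
    have h3 : D i (part (y i j)) ≠ 0 := by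
      have := cdeg_ne (f := f) (part := part) (k := y i j)
      rw [h1] at this
      exact this
    have h4 : part (y i j) = nx i j := (hm.ones i hi j _ hij h3).1 h2
    have h5 : D i j = 1 := by
      have := hi j
      omega
    rw [h5, Nat.cast_one, one_mul, ← h4]
    have h6 : cdeg f part (fac f (y i j)) (part (y i j)) ≤ 1 := by
      rw [h1]
      exact hi _
    have h7 := bs_one (t := t) h6
    rw [h1] at h7
    exact h7.symm
  have hTz : ∀ i j, D i j = 0 → T i j = 0 := by
    intro i j h
    have h1 := bs_const (f := f) (part := part) (t := t) (i := i) (j := j) (c := 0) (fun k h2 h3 => by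
      exfalso
      have := cdeg_ne (f := f) (part := part) (k := k)
      rw [h2, h3] at this
      exact this h)
    rw [mul_zero] at h1
    exact h1
  have hnx : ∀ i, IsOnes D i → ∀ w : κ → ℝ, (∀ j, D i j = 0 → w j = 0) →
      ∑ j, (if D i j ≠ 0 then w (nx i j) else 0) = ∑ j, w j := by
    intro i hi w hw
    have h1 : ∑ j, w j = ∑ j ∈ Finset.univ.filter (fun j => D i j ≠ 0), w j := by
      rw [Finset.sum_filter]
      refine Finset.sum_congr rfl fun j _ => ?_
      by_cases h : D i j = 0
      · rw [if_neg (not_not.2 h), hw j h]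
      · rw [if_pos h]
    rw [h1, ← Finset.sum_filter]
    have h2 : (Finset.univ.filter fun j => D i j ≠ 0).image (nx i) =
        Finset.univ.filter fun j => D i j ≠ 0 := by
      refine Finset.eq_of_subset_of_card_le ?_ ?_
      · intro j hj
        obtain ⟨j₀, hj₀, rfl⟩ := Finset.mem_image.1 hj
        rw [Finset.mem_filter] at hj₀ ⊢
        exact ⟨Finset.mem_univ _, hc.maps i hi j₀ hj₀.2⟩
      · rw [Finset.card_image_of_injOn]
        intro a ha b hb hab
        rw [Finset.mem_coe, Finset.mem_filter] at ha hb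
        exact hc.inj i hi a b ha.2 hb.2 hab
    conv_rhs => rw [← h2]
    rw [Finset.sum_image]
    intro a ha b hb hab
    rw [Finset.mem_coe, Finset.mem_filter] at ha hb
    exact hc.inj i hi a b ha.2 hb.2 hab
  have hsplit : ∀ i, ¬ IsOnes D i → ∑ j, μ j * (T i j - (D i j : ℝ) * t (y i j)) =
      ∑ j, ∑ j', m i j j' * (T i j' / D i j' - t (y i j)) := by
    intro i hi
    simp only [mul_sub, Finset.sum_sub_distrib]
    congr 1
    · rw [Finset.sum_comm]
      refine Finset.sum_congr rfl fun j' _ => ?_
      rw [← Finset.sum_mul, hm.col i hi j']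
      by_cases h : D i j' = 0
      · rw [hTz i j' h, h]
        simp
      · have h1 : (D i j' : ℝ) ≠ 0 := Nat.cast_ne_zero.2 h
        field_simp
    · refine Finset.sum_congr rfl fun j _ => ?_
      rw [← Finset.sum_mul, hm.row i hi j]
      ring
  have hterm : ∀ i, ¬ IsOnes D i → ∀ j j', 0 ≤ m i j j' * (T i j' / D i j' - t (y i j)) := by
    intro i hi j j'
    by_cases h0 : m i j j' = 0
    · rw [h0, zero_mul]
    · refine mul_nonneg (hm.nonneg i hi j j') ?_
      have hS := hm.supp i hi j j' h0
      have hij : D i j ≠ 0 := by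
        intro h
        have h4 := hm.row i hi j
        rw [h, Nat.cast_zero, zero_mul] at h4
        exact h0 ((Finset.sum_eq_zero_iff_of_nonneg fun j' _ => hm.nonneg i hi j j').1 h4 j'
          (Finset.mem_univ j'))
      have hij' : D i j' ≠ 0 := by
        intro h
        have h4 := hm.col i hi j'
        rw [h, Nat.cast_zero, zero_mul] at h4
        exact h0 ((Finset.sum_eq_zero_iff_of_nonneg fun j _ => hm.nonneg i hi j j').1 h4 j
          (Finset.mem_univ j))
      have h5 : (0 : ℝ) < (D i j' : ℝ) := by exact_mod_cast Nat.pos_of_ne_zero hij'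
      have h6 := bs_ge (f := f) (part := part) (t := t) (i := i) (j := j') (c := t (y i j))
        fun k hk1 hk2 => hymin i j hij k hk1 (by rw [hk2]; exact hS)
      rw [sub_nonneg, le_div_iff₀ h5]
      rw [mul_comm] at h6
      exact h6
  have hE : ∀ i, 0 ≤ ∑ j, μ j * (T i j - (D i j : ℝ) * t (y i j)) := by
    intro i
    by_cases hi : IsOnes D i
    · by_cases hne : ∃ j₀, D i j₀ ≠ 0
      · obtain ⟨j₀, hj₀⟩ := hne
        have h1 : ∀ j, μ j * (T i j - (D i j : ℝ) * t (y i j)) =
            μ j₀ * T i j - μ j₀ * (if D i j ≠ 0 then T i (nx i j) else 0) := by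
          intro j
          by_cases h : D i j = 0
          · rw [if_neg (not_not.2 h), hTz i j h, h]
            simp
          · rw [if_pos h, hones i hi j h, hm.const i hi j j₀ h hj₀]
            ring
        rw [Finset.sum_congr rfl fun j _ => h1 j, Finset.sum_sub_distrib, ← Finset.mul_sum,
          ← Finset.mul_sum, hnx i hi (T i) fun j hj => hTz i j hj, sub_self]
      · push Not at hne
        refine Finset.sum_nonneg fun j _ => ?_
        rw [hTz i j (hne j), hne j]
        simp
    · rw [hsplit i hi]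
      exact Finset.sum_nonneg fun j _ => Finset.sum_nonneg fun j' _ => hterm i hi j j'
  have hsum : ∑ i, ∑ j, μ j * (T i j - (D i j : ℝ) * t (y i j)) =
      ∑ j, μ j * (∑ i, T i j - ∑ i, (D i j : ℝ) * t (y i j)) := by
    rw [Finset.sum_comm]
    refine Finset.sum_congr rfl fun j _ => ?_
    rw [← Finset.sum_sub_distrib, Finset.mul_sum]
  have hneg : ∀ j, μ j * (∑ i, T i j - ∑ i, (D i j : ℝ) * t (y i j)) ≤ 0 := fun j =>
    mul_nonpos_of_nonneg_of_nonpos (hm.pos j).le (sub_nonpos.2 (hR j))
  have htot : ∑ i, ∑ j, μ j * (T i j - (D i j : ℝ) * t (y i j)) = 0 :=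
    le_antisymm (by rw [hsum]; exact Finset.sum_nonpos fun j _ => hneg j)
      (Finset.sum_nonneg fun i _ => hE i)
  have hE0 : ∀ i, ∑ j, μ j * (T i j - (D i j : ℝ) * t (y i j)) = 0 := fun i =>
    (Finset.sum_eq_zero_iff_of_nonneg fun i _ => hE i).1 htot i (Finset.mem_univ i)
  have hR0 : ∀ j, ∑ i, (T i j - (D i j : ℝ) * t (y i j)) = 0 := by
    intro j
    rw [hsum] at htot
    have h1 := (Finset.sum_eq_zero_iff_of_nonpos fun j _ => hneg j).1 htot j (Finset.mem_univ j)
    rw [Finset.sum_sub_distrib]
    exact (mul_eq_zero.1 h1).resolve_left (hm.pos j).ne'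
  -- the rows which are not rows of ones
  have hconst : ∀ i, ¬ IsOnes D i → ∀ k l, fac f k = i → fac f l = i → t k = t l := by
    intro i hi
    have h1 := hE0 i
    rw [hsplit i hi] at h1
    have h2 : ∀ j', D i j' ≠ 0 → T i j' / D i j' = t (y i (jo i)) := by
      intro j' hj'
      have h3 := (Finset.sum_eq_zero_iff_of_nonneg fun j _ =>
        Finset.sum_nonneg fun j' _ => hterm i hi j j').1 h1 (jo i) (Finset.mem_univ _)
      have h4 := (Finset.sum_eq_zero_iff_of_nonneg fun j' _ => hterm i hi (jo i) j').1 h3 j'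
        (Finset.mem_univ _)
      have h5 := (mul_eq_zero.1 h4).resolve_left (hm.full i hi j' hj').ne'
      linarith
    have h3 : ∀ k, fac f k = i → t k = t (y i (jo i)) := by
      intro k hk
      have hkj : D i (part k) ≠ 0 := by
        have := cdeg_ne (f := f) (part := part) (k := k)
        rw [hk] at this
        exact this
      have hjo : D i (jo i) ≠ 0 := by
        intro h
        have h4 := hm.row i hi (jo i)
        rw [h, Nat.cast_zero, zero_mul] at h4
        have h5 := hm.full i hi (part k) hkj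
        have h6 := (Finset.sum_eq_zero_iff_of_nonneg fun j' _ => hm.nonneg i hi (jo i) j').1 h4
          (part k) (Finset.mem_univ _)
        linarith
      have h5 : (0 : ℝ) < (D i (part k) : ℝ) := by exact_mod_cast Nat.pos_of_ne_zero hkj
      refine bs_eq (f := f) (part := part) (i := i) (j := part k) (fun l hl1 hl2 => ?_) ?_ hk rfl
      · refine hymin i (jo i) hjo l hl1 ?_
        rw [hl2]
        exact hm.supp i hi _ _ (hm.full i hi (part k) hkj).ne'
      · have h6 := h2 (part k) hkj
        rw [div_eq_iff h5.ne'] at h6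
        rw [← hT, h6, mul_comm]
    intro k l hk hl
    rw [h3 k hk, h3 l hl]
  -- the rows of ones
  have hx : ∀ i j, T i j - (D i j : ℝ) * t (y i j) = 0 := by
    refine flow_zero hF ?_ ?_ hR0
    · intro i j hij
      by_cases hi : IsOnes D i
      · have h1 : D i j = 0 := by
          have h2 : onesM D i j = D i j := if_pos hi
          rw [← h2]
          exact hij
        rw [hTz i j h1, h1]
        simp
      · by_cases h1 : D i j = 0
        · rw [hTz i j h1, h1]
          simp
        · have h2 := bs_const (f := f) (part := part) (t := t) (i := i) (j := j) (c := t (y i j))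
            fun k hk1 _ => hconst i hi k (y i j) hk1 (hy i j h1).1
          rw [sub_eq_zero]
          exact h2
    · intro i
      by_cases hi : IsOnes D i
      · have h1 : ∀ j, T i j - (D i j : ℝ) * t (y i j) =
            T i j - (if D i j ≠ 0 then T i (nx i j) else 0) := by
          intro j
          by_cases h : D i j = 0
          · rw [if_neg (not_not.2 h), h]
            simp
          · rw [if_pos h, hones i hi j h]
        rw [Finset.sum_congr rfl fun j _ => h1 j, Finset.sum_sub_distrib,
          hnx i hi (T i) fun j hj => hTz i j hj, sub_self]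
      · refine Finset.sum_eq_zero fun j _ => ?_
        by_cases h1 : D i j = 0
        · rw [hTz i j h1, h1]
          simp
        · have h2 := bs_const (f := f) (part := part) (t := t) (i := i) (j := j) (c := t (y i j))
            fun k hk1 _ => hconst i hi k (y i j) hk1 (hy i j h1).1
          rw [sub_eq_zero]
          exact h2
  have hall : ∀ k l, fac f k = fac f l → t k = t l := by
    intro k l hkl
    by_cases hi : IsOnes D (fac f k)
    · have hone : ∀ k, IsOnes D (fac f k) → T (fac f k) (part k) = t k := fun k hk =>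
        bs_one (t := t) (hk _)
      have hk : D (fac f k) (part k) ≠ 0 := cdeg_ne
      have hl : D (fac f k) (part l) ≠ 0 := by rw [hkl]; exact cdeg_ne
      have h1 := hc.trans (fac f k) hi {j | T (fac f k) j = T (fac f k) (part k)}
        ⟨part k, rfl, hk⟩ (fun j hj hDj => by
          have h2 := hx (fac f k) j
          rw [hones _ hi j hDj] at h2
          show T (fac f k) (nx (fac f k) j) = _
          rw [← (show T (fac f k) j = T (fac f k) (part k) from hj)]
          linarith) (part l) hl
      have h2 : T (fac f k) (part l) = T (fac f k) (part k) := h1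
      rw [hone k hi, hkl, hone l (hkl ▸ hi)] at h2
      exact h2.symm
    · exact hconst _ hi k l rfl hkl.symm
  funext x
  exact hall (Sum.inl x) (Sum.inr (f x)) rfl

end Pool.Agent.H2.PK
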