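import Pool.Agent.H2.PK.Open
import Pool.Agent.H2.PK.Main
import Pool.Agent.H2.PK.Fam

/-!
# Dilations of the valuations, and open cones
-/

set_option linter.unusedSectionVars false

open MeasureTheory Matrix
open scoped ENNReal

namespace Pool.Agent.H2.PK

open Pool.Agent.H99.SYZ Pool.Agent.H55.CI Pool.Agent.H2.CI Pool.Agent.H99.ON Pool.Agent.H99.PI

variable {ι σ κ : Type} [Fintype ι] [Fintype σ] [Fintype κ] [DecidableEq ι] [DecidableEq σ]
  [DecidableEq κ] {f : ι → σ} {part : ι ⊕ σ → κ} {S S' : σ → κ → κ → Prop}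
  {Sy Sy' : σ → κ → Prop} {P V : κ → Set (ι → ℝ)} {g h : (ι → ℝ) → ℝ}

theorem mem_poly_scale {W : Set (ι → ℝ)} {s : ℝ} (hs : 0 < s) {m : ι → ℝ} :
    m ∈ poly W (fun p => s * h p) ↔ s⁻¹ • m ∈ poly W h := by
  constructor
  · intro H p hp
    rw [smul_dotProduct, smul_eq_mul, inv_mul_le_iff₀ hs]
    exact H p hp
  · intro H p hp
    have h1 := H p hp
    rw [smul_dotProduct, smul_eq_mul, inv_mul_le_iff₀ hs] at h1
    exact h1

theorem strong_scale {s : ℝ} (hs : 0 < s) (H : IsStrong V h) :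
    IsStrong V fun p => s * h p := by
  refine ⟨fun q hq => mul_pos hs (H.pos q hq), ?_, ?_⟩
  · have h1 : poly (un V) (fun p => s * h p) ⊆ (fun m : ι → ℝ => s • m) '' poly (un V) h := by
      intro m hm
      refine ⟨s⁻¹ • m, (mem_poly_scale hs).1 hm, ?_⟩
      show s • s⁻¹ • m = m
      rw [smul_smul, mul_inv_cancel₀ hs.ne', one_smul]
    exact (Bornology.IsBounded.smul₀ H.bdd s).subset h1
  · intro q hq m hm ht q' hq' hne ht'
    have h1 : ∀ p, m ⬝ᵥ p = s * h p → (s⁻¹ • m) ⬝ᵥ p = h p := by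
      intro p hp
      rw [smul_dotProduct, hp, smul_eq_mul, inv_mul_cancel_left₀ hs.ne']
    exact H.span q hq (s⁻¹ • m) ((mem_poly_scale hs).1 hm) (fun j => h1 _ (ht j)) q' hq' hne
      (h1 _ ht')

theorem high_scale {s : ℝ} (hs : 0 < s) (H : IsHigh V P h) : IsHigh V P fun p => s * h p := by
  refine ⟨H.sub, fun j p hp hpV => ?_⟩
  rcases H.high j p hp hpV with h1 | ⟨T, b, hT, hb, h1, h2, h3⟩
  · left
    intro n hn
    have h2 := h1 _ ((mem_poly_scale hs).1 hn)
    rw [smul_dotProduct, smul_eq_mul, inv_mul_lt_iff₀ hs] at h2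
    exact h2
  · refine Or.inr ⟨T, b, hT, hb, h1, h2, ?_⟩
    have h4 : ∑ x ∈ T, b x * (s * h x) = s * ∑ x ∈ T, b x * h x := by
      rw [Finset.mul_sum]
      exact Finset.sum_congr rfl fun x _ => by ring
    rw [h4]
    exact mul_le_mul_of_nonneg_left h3 hs.le

theorem IsBlk.mono (H : IsBlk f part S' Sy' h) (h1 : ∀ i j j', S i j j' → S' i j j')
    (h2 : ∀ i j, Sy i j → Sy' i j) : IsBlk f part S Sy h :=
  fun j y y' hy hy' hS hb => H j y y' hy hy' (fun i hi => h1 _ _ _ (hS i hi))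
    fun i hi => (hb i hi).imp_right fun h3 => ⟨h2 _ _ h3.1, h3.2⟩

theorem cver_congr {j : κ} {y y' : σ → ι ⊕ σ} (h : ∀ i, cdeg f part i j ≠ 0 → y i = y' i) :
    cver f part j y = cver f part j y' := by
  funext x
  unfold cver
  by_cases h0 : cdeg f part (f x) j = 0
  · rw [h0]
    simp
  · rw [h _ h0]

theorem cver_inj {j : κ} {y y' : σ → ι ⊕ σ} (hy : ∀ i, fac f (y i) = i)
    (hy' : ∀ i, fac f (y' i) = i) (h : cver f part j y = cver f part j y') {i : σ}
    (hi : cdeg f part i j ≠ 0) : y i = y' i := by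
  have h1 := cver_dot hy j (y i) (part := part)
  rw [h, cver_dot hy' j (y i), hy i, if_pos rfl, mul_one] at h1
  by_contra hne
  rw [if_neg hne, mul_zero] at h1
  have h2 : (cdeg f part i j : ℝ) = 0 := by linarith
  exact hi (by exact_mod_cast h2)

theorem cver_zero {j : κ} {y y' : σ → ι ⊕ σ} (hy : ∀ i, fac f (y i) = i)
    (hy' : ∀ i, fac f (y' i) = i) (hb : ∀ i, cdeg f part i j ≠ 0 → part (y i) = part (y' i))
    (h0 : cver f part j y = 0) : cver f part j y' = 0 := by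
  rw [← h0]
  refine cver_congr fun i hi => ?_
  have h1 := cver_dot hy j (y i) (part := part)
  rw [h0, hy i, if_pos rfl, mul_one, zero_dotProduct] at h1
  have h2 : (1 : ℝ) ≤ cdeg f part i j := by exact_mod_cast Nat.one_le_iff_ne_zero.2 hi
  have h3 : part (y i) = j := by
    by_contra h3
    rw [if_neg h3] at h1
    linarith
  rw [if_pos h3] at h1
  have h4 : cdeg f part i j = 1 := by
    have h4 : (cdeg f part i j : ℝ) = 1 := by linarith
    exact_mod_cast h4
  unfold cdeg at h4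
  refine Finset.card_le_one.1 h4.le _ ?_ _ ?_
  · exact Finset.mem_filter.2 ⟨Finset.mem_univ _, hy' i, by rw [← hb i hi, h3]⟩
  · exact Finset.mem_filter.2 ⟨Finset.mem_univ _, hy i, h3⟩

theorem sP_block {j : κ} {y y' : σ → ι ⊕ σ} (hy : ∀ i, fac f (y i) = i)
    (hy' : ∀ i, fac f (y' i) = i) (hb : ∀ i, cdeg f part i j ≠ 0 → part (y i) = part (y' i))
    (h : cver f part j y ∈ sP f part S j) : cver f part j y' ∈ sP f part S j := by
  obtain ⟨h0, w, hw, hS, he⟩ := h
  refine ⟨fun h1 => h0 (cver_zero hy' hy (fun i hi => (hb i hi).symm) h1), y', hy',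
    fun i hi => ?_, rfl⟩
  rw [← hb i hi, cver_inj hy hw he hi]
  exact hS i hi

theorem IsHigh.raise (H : IsHigh V P h) {h' : (ι → ℝ) → ℝ} (h1 : ∀ p ∈ un V, h' p = h p)
    (h2 : ∀ j, ∀ p ∈ P j, p ∉ V j → h p ≤ h' p) : IsHigh V P h' := by
  refine ⟨H.sub, fun j p hp hpV => ?_⟩
  rcases H.high j p hp hpV with h3 | ⟨T, b, hT, hb, h3, h4, h5⟩
  · left
    intro n hn
    refine (h3 n fun q hq => ?_).trans_le (h2 j p hp hpV)
    rw [← h1 q hq]
    exact hn q hq
  · refine Or.inr ⟨T, b, hT, hb, h3, h4, ?_⟩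
    have h6 : ∑ x ∈ T, b x * h' x = ∑ x ∈ T, b x * h x :=
      Finset.sum_congr rfl fun x hx => by rw [h1 x ⟨j, hT hx⟩]
    rw [h6]
    exact h5.trans (h2 j p hp hpV)

theorem strong_congr (H : IsStrong V h) {h' : (ι → ℝ) → ℝ} (h1 : ∀ p ∈ un V, h' p = h p) :
    IsStrong V h' := by
  have h2 : ∀ m, m ∈ poly (un V) h' ↔ m ∈ poly (un V) h := fun m =>
    ⟨fun hm q hq => by rw [← h1 q hq]; exact hm q hq, fun hm q hq => by
      rw [h1 q hq]; exact hm q hq⟩
  refine ⟨fun q hq => by rw [h1 q hq]; exact H.pos q hq, H.bdd.subset fun m hm => (h2 m).1 hm, ?_⟩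
  intro q hq m hm ht q' hq' hne ht'
  exact H.span q hq m ((h2 m).1 hm) (fun j => by rw [ht j, h1 _ ⟨j, hq j⟩]) q' hq' hne
    (by rw [ht', h1 _ hq'])

open Classical in
/-- An open cone of valuations of all monomials. -/
theorem exists_cone (Sy : σ → κ → Prop)
    (hb : ∀ h' : (ι → ℝ) → ℝ, Bornology.IsBounded (poly (un (sP f part S)) h')) :
    ∃ (h₀ : (ι → ℝ) → ℝ) (ε : ℝ), 0 < ε ∧ (∀ j, ∀ p ∈ cfull f part j, 0 < h₀ p) ∧
      IsBlk f part (fun _ _ _ => True) Sy h₀ ∧
      ∀ (s : ℝ) (h : (ι → ℝ) → ℝ), 0 < s →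
        (∀ j, ∀ p ∈ cfull f part j, |h p - s * h₀ p| < ε * s) →
        IsStrong (sP f part S) h ∧ IsHigh (sP f part S) (cfull f part) h := by
  obtain ⟨h₁, c, ε, hε, hc, hp, H⟩ := exists_open hb
  have hfin : (⋃ j, cfull f part j).Finite :=
    Set.finite_iUnion fun j => finite_cfull (f := f) (part := part) j
  obtain ⟨C, hC⟩ : ∃ C : ℝ, ∀ p ∈ ⋃ j, cfull f part j, h₁ p ≤ C := by
    obtain ⟨C, hC⟩ := (hfin.image h₁).bddAbove
    exact ⟨C, fun p hp => hC ⟨p, hp, rfl⟩⟩
  set h₀ : (ι → ℝ) → ℝ := fun p => if p ∈ un (sP f part S) then h₁ p else max C 1 with hh₀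
  have hle : ∀ j, ∀ p ∈ cfull f part j, h₁ p ≤ h₀ p := by
    intro j p hp'
    by_cases h1 : p ∈ un (sP f part S)
    · rw [hh₀]
      simp only
      rw [if_pos h1]
    · rw [hh₀]
      simp only
      rw [if_neg h1]
      exact (hC p (Set.mem_iUnion.2 ⟨j, hp'⟩)).trans (le_max_left _ _)
  refine ⟨h₀, ε, hε, fun j p hp' => (hp j p hp').trans_le (hle j p hp'), ?_,
    fun s h hs hh => ?_⟩
  · intro j y y' hy hy' _ hbl
    have hbl' : ∀ i, cdeg f part i j ≠ 0 → part (y i) = part (y' i) := fun i hi => by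
      rcases hbl i hi with h1 | h1
      · rw [h1]
      · exact h1.2
    by_cases h0 : cver f part j y = 0
    · rw [h0, cver_zero hy hy' hbl' h0]
    have h0' : cver f part j y' ≠ 0 := fun h1 =>
      h0 (cver_zero hy' hy (fun i hi => (hbl' i hi).symm) h1)
    have h2 : ∀ p, p ∈ cP f part j → (p ∈ un (sP f part S) ↔ p ∈ sP f part S j) := by
      intro p hp'
      refine ⟨fun h1 => ?_, fun h1 => ⟨j, h1⟩⟩
      obtain ⟨j', hj'⟩ := h1
      by_cases hjj : j' = j
      · rw [← hjj]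
        exact hj'
      · exact absurd (cP_subset j hp') (Set.disjoint_left.1 (cfull_disjoint hjj) (sP_subset j' hj'))
    have h3 := h2 _ ⟨h0, y, hy, rfl⟩
    have h4 := h2 _ ⟨h0', y', hy', rfl⟩
    by_cases h1 : cver f part j y ∈ sP f part S j
    · have h1' := sP_block hy hy' hbl' h1
      rw [hh₀]
      simp only
      rw [if_pos (h3.2 h1), if_pos (h4.2 h1'), hc j _ h1, hc j _ h1']
    · have h1' : cver f part j y' ∉ sP f part S j := fun h5 =>
        h1 (sP_block hy' hy (fun i hi => (hbl' i hi).symm) h5)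
      rw [hh₀]
      simp only
      rw [if_neg (fun h5 => h1 (h3.1 h5)), if_neg (fun h5 => h1' (h4.1 h5))]
  · set h₂ : (ι → ℝ) → ℝ := fun p => s⁻¹ * h p - (h₀ p - h₁ p) with hh₂
    have h1 : ∀ j, ∀ p ∈ cfull f part j, |h₂ p - h₁ p| < ε := by
      intro j p hp'
      have h2 : h₂ p - h₁ p = s⁻¹ * (h p - s * h₀ p) := by
        rw [hh₂, mul_sub, inv_mul_cancel_left₀ hs.ne']
        ring
      have h3 := hh j p hp'
      rw [h2, abs_mul, abs_of_pos (inv_pos.2 hs), inv_mul_lt_iff₀ hs]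
      linarith
    obtain ⟨h2, h3⟩ := H h₂ h1
    have h6 : ∀ p ∈ un (sP f part S), s⁻¹ * h p = h₂ p := by
      intro p hp'
      rw [hh₂]
      simp only
      rw [hh₀]
      simp only
      rw [if_pos hp', sub_self, sub_zero]
    have h7 := strong_congr h2 (h' := fun p => s⁻¹ * h p) h6
    have h8 := h3.raise (h' := fun p => s⁻¹ * h p) h6 fun j p hp' _ => by
      rw [hh₂]
      simp only
      have := hle j p hp'
      linarith
    have h4 : (fun p => s * (s⁻¹ * h p)) = h := funext fun p => mul_inv_cancel_left₀ hs.ne' _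
    have h5 := strong_scale hs h7
    have h9 := high_scale hs h8
    rw [h4] at h5 h9
    exact ⟨h5, h9⟩

/-- Bounded polytopes. -/
theorem IsRec.bdd {D : σ → κ → ℕ} (H : IsRec D S) (hD : cdeg f part = D) (h : (ι → ℝ) → ℝ) :
    Bornology.IsBounded (poly (un (sP f part S)) h) := by
  refine bdd_of_rec ?_ (H ι f part hD) h
  have h1 : (⋃ j, cfull f part j).Finite :=
    Set.finite_iUnion fun j => finite_cfull (f := f) (part := part) j
  refine h1.subset ?_
  rintro p ⟨j, hj⟩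
  exact Set.mem_iUnion.2 ⟨j, sP_subset j hj⟩

/-- An open cone of valuations of all monomials which is good for all polarisations. -/
theorem cone_good {D : σ → κ → ℕ} (hR : IsRegS D S Sy) (hc : HasChoice D)
    (hf : Function.Surjective f) (hD : cdeg f part = D)
    (hb : ∀ h' : (ι → ℝ) → ℝ, Bornology.IsBounded (poly (un (sP f part S)) h')) :
    ∃ (h₀ : (ι → ℝ) → ℝ) (ε : ℝ), 0 < ε ∧ (∀ j, ∀ p ∈ cfull f part j, 0 < h₀ p) ∧
      IsBlk f part (fun _ _ _ => True) Sy h₀ ∧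
      ∀ g : (ι → ℝ) → ℝ, (∀ k, 0 < g (pray f k)) → ∀ (s : ℝ) (h : (ι → ℝ) → ℝ), 0 < s →
        (∀ j, ∀ p ∈ cfull f part j, |h p - s * h₀ p| < ε * s) →
        IsBlk f part (fun _ _ _ => True) Sy h → IsGoodS f part (cfull f part) g h := by
  obtain ⟨h₀, ε, hε, hp, hs, H⟩ := exists_cone (f := f) (part := part) Sy hb
  subst hD
  refine ⟨h₀, ε, hε, hp, hs, fun g hg s h hs0 hh hhs => ?_⟩
  obtain ⟨h1, h2⟩ := H s h hs0 hh
  exact main_sym hf hR hc hg h1 (hhs.mono (fun _ _ _ _ => trivial) fun _ _ h3 => h3)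
    (fun _ => subset_rfl) h2

/-- Generic heights. -/
theorem gen_reg (hf : Function.Surjective f)
    (hD : IsRegS (cdeg f part) S fun _ _ => False) (hs : HasChoice (cdeg f part))
    (hg : ∀ k, 0 < g (pray f k)) (hh : IsGen (sP f part S) h)
    (hb : Bornology.IsBounded (poly (un (sP f part S)) h)) :
    IsStrict (sP f part S) (cQ f part) g h :=
  (main_reg hf hD hs hg (s_strong hf hh hb) (fun j => sP_subset j)
    ⟨fun _ => subset_rfl, fun _ _ hp hp' => absurd hp hp'⟩).2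

/-- Regular matrices without entries `1`: all blocks. -/
theorem reg_all {D : σ → κ → ℕ} (H : IsReg D) (h1 : ∀ i j, D i j ≠ 1) :
    IsRegS D (fun _ _ _ => True) fun _ _ => False := by
  intro z e hz _ _ hu
  refine H z e (fun j j' _ => ?_) hu
  have h2 := hz j'
  have h3 := h1 (z j') j'
  omega

/-- The polytopes of all products of powers are bounded. -/
theorem bounded_all (h : (ι → ℝ) → ℝ) :
    Bornology.IsBounded (poly (un (sP f part fun _ _ _ => True)) h) := by
  refine (bounded_polyP (f := f) (part := part) h).subset fun m hm q hq => hm q ?_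
  obtain ⟨j, h0, y, hy, hp⟩ := hq
  exact ⟨j, h0, y, hy, fun _ _ => trivial, hp⟩

end Pool.Agent.H2.PK
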